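import Pool.Agent.Lib.MP_78205c_lc.Basic

/-!
Moments of the channel and the Bhattacharyya coefficient.
-/

namespace Pool.Agent.Lib.MP_78205c_lc

open ENNReal Finset

/-- The exponential in `ℝ≥0∞`. -/
noncomputable def ex (x : ℝ) : ℝ≥0∞ := ENNReal.ofReal (Real.exp x)

theorem ex_add (x y : ℝ) : ex (x + y) = ex x * ex y := by
  simp only [ex, Real.exp_add, ENNReal.ofReal_mul (Real.exp_pos x).le]

@[simp] theorem ex_zero : ex 0 = 1 := by simp [ex]

@[gcongr] theorem ex_mono {x y : ℝ} (h : x ≤ y) : ex x ≤ ex y :=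
  ENNReal.ofReal_le_ofReal (Real.exp_le_exp.2 h)

theorem ex_pow (x : ℝ) (n : ℕ) : ex x ^ n = ex (n * x) := by
  induction n with
  | zero => simp
  | succ n ih => rw [pow_succ, ih, ← ex_add]; congr 1; push_cast; ring

theorem ex_ne_top (x : ℝ) : ex x ≠ ⊤ := ENNReal.ofReal_ne_top

theorem one_le_ex {x : ℝ} (h : 0 ≤ x) : 1 ≤ ex x := ex_zero ▸ ex_mono h

theorem natCast_le_ex {n : ℕ} {x : ℝ} (h : (n : ℝ) ≤ Real.exp x) : (n : ℝ≥0∞) ≤ ex x := by
  rw [← ENNReal.ofReal_natCast]; exact ENNReal.ofReal_le_ofReal h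

theorem two_le_ex_one : (2 : ℝ≥0∞) ≤ ex 1 := by
  have := natCast_le_ex (n := 2) (x := 1) (by have := Real.add_one_le_exp 1; push_cast; linarith)
  simpa using this

theorem ex_add_ex_le {x y z : ℝ} (hx : x + 1 ≤ z) (hy : y + 1 ≤ z) : ex x + ex y ≤ ex z := by
  calc ex x + ex y ≤ ex (z - 1) + ex (z - 1) := by gcongr <;> linarith
    _ = 2 * ex (z - 1) := (two_mul _).symm
    _ ≤ ex 1 * ex (z - 1) := by gcongr; exact two_le_ex_one
    _ = ex z := by rw [← ex_add]; congr 1; ring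

/-- The square root in `ℝ≥0∞`. -/
noncomputable def sq (x : ℝ≥0∞) : ℝ≥0∞ := x ^ (1 / 2 : ℝ)

theorem sq_mul (x y : ℝ≥0∞) : sq (x * y) = sq x * sq y :=
  ENNReal.mul_rpow_of_nonneg _ _ (by norm_num)

@[gcongr] theorem sq_mono {x y : ℝ≥0∞} (h : x ≤ y) : sq x ≤ sq y :=
  ENNReal.rpow_le_rpow h (by norm_num)

theorem sq_mul_sq (x : ℝ≥0∞) : sq x * sq x = x := by
  unfold sq
  rw [← ENNReal.rpow_add_of_nonneg _ _ (by norm_num) (by norm_num)]
  norm_num

theorem sq_self_mul (x : ℝ≥0∞) : sq (x * x) = x := by rw [sq_mul, sq_mul_sq]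

theorem sq_sum_le {ι : Type*} (t : Finset ι) (f : ι → ℝ≥0∞) :
    sq (∑ i ∈ t, f i) ≤ ∑ i ∈ t, sq (f i) := by
  classical
  induction t using Finset.induction_on with
  | empty => simp [sq]
  | insert a t ha ih =>
    rw [Finset.sum_insert ha, Finset.sum_insert ha]
    exact (ENNReal.rpow_add_le_add_rpow _ _ (by norm_num) (by norm_num)).trans (add_le_add le_rfl ih)

theorem two_mul_le (a b : ℝ≥0∞) : 2 * (a * b) ≤ a * a + b * b := by
  rcases eq_or_ne a ⊤ with rfl | ha
  · simp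
  rcases eq_or_ne b ⊤ with rfl | hb
  · simp
  lift a to NNReal using ha
  lift b to NNReal using hb
  norm_cast
  rw [← NNReal.coe_le_coe]
  push_cast
  nlinarith [sq_nonneg ((a : ℝ) - b)]

variable {p s : ℝ}

/-- The Bhattacharyya coefficient of the trace of `u` and the (weighted) trace of `v`. -/
noncomputable def bc (p s : ℝ) (u v : List Bool) : ℝ≥0∞ := ∑' y, sq (ch p 0 u y * ch p s v y)

theorem bc_mono {s' : ℝ} (h : s ≤ s') (u v : List Bool) : bc p s u v ≤ bc p s' u v :=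
  ENNReal.tsum_le_tsum fun y => by gcongr; exact ch_le_ch h _ _

theorem bc_tilt (u v : List Bool) (f g : List Bool → ℝ≥0∞) (h : ∀ y, 1 ≤ f y * g y) {A A' : ℝ}
    (h1 : E p 0 u f ≤ ex A) (h2 : E p s v g ≤ ex A') : bc p s u v ≤ ex ((A + A') / 2) := by
  set t := (A' - A) / 2
  have key : 2 * bc p s u v ≤ ex t * E p 0 u f + ex (-t) * E p s v g := by
    rw [← E_mul, ← E_mul]
    unfold bc E
    rw [← ENNReal.tsum_mul_left, ← ENNReal.tsum_add]
    refine ENNReal.tsum_le_tsum fun y => ?_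
    rw [← sq_mul_sq (ch p 0 u y * (ex t * f y)), ← sq_mul_sq (ch p s v y * (ex (-t) * g y))]
    refine le_trans ?_ (two_mul_le _ _)
    rw [← sq_mul (ch p 0 u y * _)]
    refine mul_le_mul_right (sq_mono ?_) _
    calc ch p 0 u y * ch p s v y = ch p 0 u y * ch p s v y * (ex t * ex (-t)) * 1 := by
          rw [← ex_add]; simp
      _ ≤ ch p 0 u y * ch p s v y * (ex t * ex (-t)) * (f y * g y) := by gcongr; exact h y
      _ = _ := by ring
  have : ex t * E p 0 u f + ex (-t) * E p s v g ≤ 2 * ex ((A + A') / 2) := by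
    rw [two_mul]
    gcongr ?_ + ?_
    · refine (mul_le_mul_right h1 _).trans (le_of_eq ?_)
      rw [← ex_add]; congr 1; simp only [t]; ring
    · refine (mul_le_mul_right h2 _).trans (le_of_eq ?_)
      rw [← ex_add]; congr 1; simp only [t]; ring
  exact (ENNReal.mul_le_mul_iff_right (by simp) (by simp)).1 (key.trans this)

theorem bc_split (u x z : List Bool) : bc p (p / 4) (u ++ x) z ≤
    ∑ j ∈ range (z.length + 1), bc p (p / 4) u (z.take j) * bc p (p / 4) x (z.drop j) := by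
  unfold bc
  simp only [← ENNReal.tsum_mul_right]
  simp only [← ENNReal.tsum_mul_left]
  rw [← Summable.tsum_finsetSum (fun _ _ => ENNReal.summable)]
  simp only [← Summable.tsum_finsetSum (fun _ _ => ENNReal.summable)]
  rw [← tsum_split (fun w y => ∑ j ∈ range (z.length + 1),
    sq (ch p 0 u w * ch p (p / 4) (z.take j) w) * sq (ch p 0 x y * ch p (p / 4) (z.drop j) y))]
  refine ENNReal.tsum_le_tsum fun y => ?_
  rw [ch_append, Finset.sum_mul]
  refine (sq_sum_le _ _).trans (Finset.sum_le_sum fun i _ => ?_)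
  have := ch_split (p := p) z (y.take i) (y.drop i)
  rw [List.take_append_drop] at this
  refine (sq_mono (mul_le_mul_right this _)).trans ?_
  rw [Finset.mul_sum]
  refine (sq_sum_le _ _).trans (Finset.sum_le_sum fun j _ => le_of_eq ?_)
  rw [← sq_mul]
  congr 1
  ring

/-- The price of choosing the splitting point `j`. -/
def cost (j : ℕ) : ℕ := (j + 1) * (j + 2)

theorem exists_le_cost (n : ℕ) (a : ℕ → ℝ≥0∞) :
    ∃ j ≤ n, ∑ i ∈ range (n + 1), a i ≤ cost j * a j := by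
  obtain ⟨j, hj, hmax⟩ := Finset.exists_max_image (range (n + 1)) (fun j => (cost j : ℝ≥0∞) * a j)
    ⟨0, by simp⟩
  refine ⟨j, by simpa [Nat.lt_succ_iff] using hj, ?_⟩
  set M := (cost j : ℝ≥0∞) * a j
  have h : ∀ m ≤ n + 1, (∑ i ∈ range m, a i) * (m + 1) ≤ m * M := by
    intro m
    induction m with
    | zero => simp
    | succ m ih =>
      intro hm
      have h1 := ih (by omega)
      have h2 : (cost m : ℝ≥0∞) * a m ≤ M := hmax m (by simpa using hm)
      refine (ENNReal.mul_le_mul_iff_left (c := (m + 1 : ℝ≥0∞)) (by simp) (by simp)).1 ?_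
      calc (∑ i ∈ range (m + 1), a i) * (((m + 1 : ℕ) : ℝ≥0∞) + 1) * (m + 1)
          = (∑ i ∈ range m, a i) * (m + 1) * (m + 2) + cost m * a m := by
            rw [Finset.sum_range_succ]; simp only [cost]; push_cast; ring
        _ ≤ m * M * (m + 2) + M := by gcongr
        _ = ((m + 1 : ℕ) : ℝ≥0∞) * M * (m + 1) := by push_cast; ring
  refine (ENNReal.mul_le_mul_iff_left (c := ((n + 1 : ℕ) + 1 : ℝ≥0∞)) (by simp) (by simp)).1 ?_
  refine (h _ le_rfl).trans ?_
  rw [mul_comm]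
  gcongr
  exact le_self_add

theorem bc_exists_split (u x z : List Bool) : ∃ v z', z = v ++ z' ∧ bc p (p / 4) (u ++ x) z ≤
    cost v.length * bc p (p / 4) u v * bc p (p / 4) x z' := by
  obtain ⟨j, hj, h⟩ := exists_le_cost z.length
    (fun j => bc p (p / 4) u (z.take j) * bc p (p / 4) x (z.drop j))
  refine ⟨z.take j, z.drop j, (List.take_append_drop _ _).symm, (bc_split u x z).trans ?_⟩
  rwa [List.length_take_of_le hj, mul_assoc]

/-- Exponential moments of the length. -/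
theorem E_len (hp0 : 0 ≤ p) (hp1 : p ≤ 1) (hs : 0 ≤ s) {w φ D : ℝ} (hw : 0 ≤ w) (hφ : 0 ≤ φ)
    (hD : 0 ≤ D) (h0 : 1 + 2 * s * w * D ≤ D) (h1 : p / 2 + (1 - p) * w + p / 2 * w * φ ≤ φ)
    (x : List Bool) :
    E p s x (fun y => ENNReal.ofReal (w ^ y.length)) ≤ ENNReal.ofReal (D * φ ^ x.length) := by
  refine E_le_real hp0 hp1 hs (fun x F M => ∃ A, 0 ≤ A ∧ F = (fun y => A * w ^ y.length) ∧
    M = A * (D * φ ^ x.length)) ?_ ?_ ?_ ⟨1, zero_le_one, by simp, by simp⟩
  · rintro x _ _ ⟨A, hA, rfl, rfl⟩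
    exact ⟨by positivity, fun y => by positivity⟩
  · rintro _ _ ⟨A, hA, rfl, rfl⟩
    refine ⟨_, _, ⟨A * w, by positivity, by ext y; simp [pow_succ]; ring, rfl⟩,
      ⟨A * w, by positivity, by ext y; simp [pow_succ]; ring, rfl⟩, ?_⟩
    simp only [List.length_nil, pow_zero, mul_one]
    nlinarith [mul_le_mul_of_nonneg_left h0 hA]
  · rintro b x _ _ ⟨A, hA, rfl, rfl⟩
    refine ⟨_, _, _, _, ⟨A, hA, rfl, rfl⟩, ⟨A * w, by positivity, by ext y; simp [pow_succ]; ring, rfl⟩,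
      ⟨A * w, by positivity, by ext y; simp [pow_succ]; ring, rfl⟩,
      ⟨A * w, by positivity, by ext y; simp [pow_succ]; ring, rfl⟩, ?_⟩
    simp only [List.length_cons, pow_succ]
    have : 0 ≤ A * (D * φ ^ x.length) := by positivity
    nlinarith [mul_le_mul_of_nonneg_left h1 this]

/-- Exponential moments of the distance between the source and the trace. -/
theorem E_lev (hp0 : 0 ≤ p) (hp1 : p ≤ 1) {w φ : ℝ} (hw : 1 ≤ w) (hφ : 0 ≤ φ)
    (h1 : p / 2 * w + 1 + p / 2 * w * φ ≤ φ) (x : List Bool) :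
    E p 0 x (fun y => ENNReal.ofReal (w ^ lev x y)) ≤ ENNReal.ofReal (φ ^ x.length) := by
  have hw0 : 0 ≤ w := by linarith
  have step : ∀ {A : ℝ} {i j : ℕ}, 0 ≤ A → i ≤ j + 1 → A * w ^ i ≤ A * w * w ^ j := by
    intro A i j hA h
    rw [mul_assoc, ← pow_succ']
    gcongr
  refine E_le_real hp0 hp1 le_rfl (fun x F M => ∃ A, 0 ≤ A ∧
    (∀ y, 0 ≤ F y ∧ F y ≤ A * w ^ lev x y) ∧ M = A * φ ^ x.length) ?_ ?_ ?_
    ⟨1, zero_le_one, fun y => ⟨by positivity, by simp⟩, by simp⟩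
  · rintro x F _ ⟨A, hA, h, rfl⟩
    exact ⟨by positivity, fun y => (h y).1⟩
  · rintro F _ ⟨A, hA, h, rfl⟩
    refine ⟨_, _, ⟨A * w, by positivity, fun y => ⟨(h _).1, (h _).2.trans (step hA (lev_ins ..))⟩, rfl⟩,
      ⟨A * w, by positivity, fun y => ⟨(h _).1, (h _).2.trans (step hA (lev_ins ..))⟩, rfl⟩, ?_⟩
    simpa [lev_self] using (h []).2
  · rintro b x F _ ⟨A, hA, h, rfl⟩
    refine ⟨_, _, _, _,
      ⟨A * w, by positivity, fun y => ⟨(h _).1, (h _).2.trans (step hA (lev_del ..))⟩, rfl⟩,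
      ⟨A, hA, fun y => ⟨(h _).1, (h _).2.trans (by gcongr; exact lev_keep ..)⟩, rfl⟩,
      ⟨A * w, by positivity, fun y => ⟨(h _).1, (h _).2.trans (step hA (lev_ins ..))⟩, rfl⟩,
      ⟨A * w, by positivity, fun y => ⟨(h _).1, (h _).2.trans (step hA (lev_ins ..))⟩, rfl⟩, ?_⟩
    simp only [List.length_cons, pow_succ]
    have : 0 ≤ A * φ ^ x.length := by positivity
    nlinarith [mul_le_mul_of_nonneg_left h1 this, mul_nonneg hp0 this]

theorem E_one_le (hp0 : 0 ≤ p) (hp1 : p ≤ 1) (x : List Bool) : E p 0 x (fun _ => 1) ≤ 1 := by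
  simpa using E_len hp0 hp1 le_rfl (w := 1) (φ := 1) (D := 1) zero_le_one zero_le_one zero_le_one
    (by simp) (by linarith) x

theorem E_one_le_two (hp0 : 0 ≤ p) (hp1 : p ≤ 1) (hs : 0 ≤ s) (hs1 : s ≤ 1 / 4) (x : List Bool) :
    E p s x (fun _ => 1) ≤ 2 := by
  simpa using E_len hp0 hp1 hs (w := 1) (φ := 1) (D := 2) zero_le_one zero_le_one zero_le_two
    (by linarith) (by linarith) x

theorem E_one (hp0 : 0 ≤ p) (hp1 : p ≤ 1) (x : List Bool) : E p 0 x (fun _ => 1) = 1 := by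
  induction x with
  | nil => rw [E_nil]; simp
  | cons b x ih =>
    have h := E_cons (p := p) (s := 0) b x (fun _ => 1)
    have hle := E_one_le hp0 hp1 (b :: x)
    rw [ih] at h
    generalize E p 0 (b :: x) (fun _ => 1) = M at h hle
    lift M to NNReal using ne_top_of_le_ne_top one_ne_top hle
    have h' := congrArg ENNReal.toReal h
    rw [ENNReal.toReal_add (by finiteness) (by finiteness),
      ENNReal.toReal_add (by finiteness) (by finiteness)] at h'
    simp only [ENNReal.coe_toReal, mul_one, ENNReal.toReal_mul, ← ENNReal.coe_add,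
      NNReal.coe_add] at h'
    rw [ENNReal.toReal_ofReal (by positivity), ENNReal.toReal_ofReal (by linarith),
      ENNReal.toReal_ofReal (by positivity)] at h'
    have : (M : ℝ) = 1 := by
      have : (1 - p / 2) * ((M : ℝ) - 1) = 0 := by linarith
      rcases mul_eq_zero.1 this with h | h <;> linarith
    exact_mod_cast this

theorem E_const_le (hp0 : 0 ≤ p) (hp1 : p ≤ 1) (x : List Bool) (c : ℝ≥0∞) :
    E p 0 x (fun _ => c) ≤ c := by
  have := E_mul (p := p) (s := 0) x c (fun _ => 1)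
  simp only [mul_one] at this
  rw [this, E_one hp0 hp1, mul_one]

theorem bc_le_ex (hp0 : 0 ≤ p) (hp1 : p ≤ 1) (hs : 0 ≤ s) (hs1 : s ≤ 1 / 4) (u v : List Bool) :
    bc p s u v ≤ ex (1 / 2) := by
  have := bc_tilt (p := p) (s := s) u v (fun _ => 1) (fun _ => 1) (by simp) (A := 0) (A' := 1)
    (by simpa using E_one_le hp0 hp1 u) ((E_one_le_two hp0 hp1 hs hs1 v).trans two_le_ex_one)
  simpa using this

theorem E_len_up (hp0 : 0 ≤ p) (hp1 : p ≤ 1 / 100) (hs : 0 ≤ s) (hs1 : s ≤ 1 / 100)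
    (x : List Bool) : E p s x (fun y => ex y.length) ≤ ex (1 + 1.1 * x.length) := by
  have e1 := Real.exp_one_lt_d9
  have e2 := Real.exp_one_gt_d9
  have e3 : Real.exp 1.1 = Real.exp 1 * Real.exp 0.1 := by rw [← Real.exp_add]; norm_num
  have e4 := Real.add_one_le_exp 0.1
  have e5 : Real.exp 1 * 1.1 ≤ Real.exp 1.1 := by rw [e3]; gcongr; linarith
  have := E_len hp0 (by linarith) hs (w := Real.exp 1) (φ := Real.exp 1.1) (D := Real.exp 1)
    (by positivity) (by positivity) (by positivity) (by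
      have : 2 * s * Real.exp 1 ≤ 0.06 := by nlinarith
      have : 2 * s * Real.exp 1 * Real.exp 1 ≤ 0.06 * Real.exp 1 := by gcongr
      linarith) (by
      have : p / 2 * Real.exp 1 ≤ 0.014 := by nlinarith
      have : p / 2 * Real.exp 1 * Real.exp 1.1 ≤ 0.014 * Real.exp 1.1 := by gcongr
      nlinarith) x
  simpa only [ex, ← Real.exp_nat_mul, mul_one, ← Real.exp_add, mul_comm] using this

theorem E_len_down (hp0 : 0 ≤ p) (hp1 : p ≤ 1 / 100) (hs : 0 ≤ s) (hs1 : s ≤ 1 / 100)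
    (x : List Bool) : E p s x (fun y => ex (-y.length)) ≤ ex (1 + -0.9 * x.length) := by
  have e1 := Real.exp_neg_one_lt_d9
  have e2 := Real.exp_neg_one_gt_d9
  have e6 := Real.exp_one_lt_d9
  have e7 := Real.exp_one_gt_d9
  have e3 : Real.exp (-0.9) = Real.exp (-1) * Real.exp 0.1 := by rw [← Real.exp_add]; norm_num
  have e4 := Real.add_one_le_exp 0.1
  have e5 : Real.exp (-1) * 1.1 ≤ Real.exp (-0.9) := by rw [e3]; gcongr; linarith
  have := E_len hp0 (by linarith) hs (w := Real.exp (-1)) (φ := Real.exp (-0.9)) (D := Real.exp 1)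
    (by positivity) (by positivity) (by positivity) (by
      have : 2 * s * Real.exp (-1) ≤ 0.01 := by nlinarith
      have : 2 * s * Real.exp (-1) * Real.exp 1 ≤ 0.01 * Real.exp 1 := by gcongr
      linarith) (by
      have : p / 2 * Real.exp (-1) ≤ 0.002 := by nlinarith
      have : p / 2 * Real.exp (-1) * Real.exp (-0.9) ≤ 0.002 * Real.exp (-0.9) := by gcongr
      nlinarith) x
  simpa only [ex, ← Real.exp_nat_mul, mul_neg, mul_one, ← Real.exp_add, mul_comm, neg_mul]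
    using this

theorem bc_long (hp0 : 0 ≤ p) (hp1 : p ≤ 1 / 100) (hs : 0 ≤ s) (hs1 : s ≤ 1 / 100)
    (u v : List Bool) (h : 2 * u.length ≤ v.length) : bc p s u v ≤ ex (1 - v.length / 6) := by
  refine (bc_tilt u v _ _ (fun y => by rw [← ex_add]; simp)
    (E_len_up hp0 hp1 le_rfl (by norm_num) u) (E_len_down hp0 hp1 hs hs1 v)).trans (ex_mono ?_)
  have : 2 * (u.length : ℝ) ≤ v.length := by exact_mod_cast h
  have : (0 : ℝ) ≤ v.length := by positivity
  linarith

theorem bc_short (hp0 : 0 ≤ p) (hp1 : p ≤ 1 / 100) (hs : 0 ≤ s) (hs1 : s ≤ 1 / 100)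
    (u v : List Bool) (h : 2 * v.length ≤ u.length) : bc p s u v ≤ ex (1 - u.length / 6) := by
  refine (bc_tilt u v _ _ (fun y => by rw [← ex_add]; simp)
    (E_len_down hp0 hp1 le_rfl (by norm_num) u) (E_len_up hp0 hp1 hs hs1 v)).trans (ex_mono ?_)
  have : 2 * (v.length : ℝ) ≤ u.length := by exact_mod_cast h
  have : (0 : ℝ) ≤ u.length := by positivity
  linarith

end Pool.Agent.Lib.MP_78205c_lc
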