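import Pool.Agent.Lib.MP_78205c_lc.Lev

/-!
The channel with values in `ℝ≥0∞`, expectations, the first-step formula, a coinduction principle
for upper bounds, and the concatenation and splitting formulas.
-/

namespace Pool.Agent.Lib.MP_78205c_lc

open ENNReal Finset

/-- The channel, with an optional weight `s` for insertions after the last letter. -/
noncomputable def ch (p s : ℝ) : List Bool → List Bool → ℝ≥0∞
  | [], y => ENNReal.ofReal s ^ y.length
  | _ :: x, [] => ENNReal.ofReal (p / 2) * ch p s x []
  | b :: x, c :: y => ENNReal.ofReal (p / 2) * ch p s x (c :: y) +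
      (if c = b then ENNReal.ofReal (1 - p) * ch p s x y else 0) +
      ENNReal.ofReal (p / 4) * ch p s (b :: x) y
termination_by x y => x.length + y.length

theorem ch_nil (p s : ℝ) (y : List Bool) : ch p s [] y = ENNReal.ofReal s ^ y.length := by
  rw [ch]

theorem ch_cons_nil (p s : ℝ) (b : Bool) (x : List Bool) :
    ch p s (b :: x) [] = ENNReal.ofReal (p / 2) * ch p s x [] := by rw [ch]

theorem ch_cons_cons (p s : ℝ) (b c : Bool) (x y : List Bool) :
    ch p s (b :: x) (c :: y) = ENNReal.ofReal (p / 2) * ch p s x (c :: y) +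
      (if c = b then ENNReal.ofReal (1 - p) else 0) * ch p s x y +
      ENNReal.ofReal (p / 4) * ch p s (b :: x) y := by
  rw [ch]; split_ifs <;> simp

theorem tsum_list (g : List Bool → ℝ≥0∞) :
    ∑' y, g y = g [] + (∑' y, g (false :: y) + ∑' y, g (true :: y)) := by
  classical
  rw [ENNReal.tsum_eq_add_tsum_ite []]
  congr 1
  have hi : Function.Injective (fun z : Bool × List Bool => z.1 :: z.2) := by
    rintro ⟨a, x⟩ ⟨b, y⟩ h
    simpa using h
  rw [← hi.tsum_eq, ENNReal.tsum_prod', tsum_fintype]
  · simp [add_comm]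
  · intro y hy
    cases y with
    | nil => simp at hy
    | cons c y => exact ⟨(c, y), rfl⟩

/-- Expectation of `F` under the channel. -/
noncomputable def E (p s : ℝ) (x : List Bool) (F : List Bool → ℝ≥0∞) : ℝ≥0∞ :=
  ∑' y, ch p s x y * F y

variable {p s : ℝ}

theorem E_nil (F : List Bool → ℝ≥0∞) : E p s [] F = F [] + ENNReal.ofReal s *
    (E p s [] (fun y => F (false :: y)) + E p s [] (fun y => F (true :: y))) := by
  unfold E
  rw [tsum_list]
  simp only [ch_nil, List.length_nil, pow_zero, one_mul, List.length_cons, pow_succ', mul_assoc,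
    ENNReal.tsum_mul_left, mul_add]

theorem E_cons (b : Bool) (x : List Bool) (F : List Bool → ℝ≥0∞) : E p s (b :: x) F =
    ENNReal.ofReal (p / 2) * E p s x F + ENNReal.ofReal (1 - p) * E p s x (fun y => F (b :: y)) +
    ENNReal.ofReal (p / 4) * (E p s (b :: x) (fun y => F (false :: y)) +
      E p s (b :: x) (fun y => F (true :: y))) := by
  unfold E
  rw [tsum_list, tsum_list (fun y => ch p s x y * F y)]
  simp only [ch_cons_nil, ch_cons_cons, add_mul, mul_assoc, ENNReal.tsum_add,
    ENNReal.tsum_mul_left]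
  cases b <;> simp <;> ring

theorem E_mono (x : List Bool) {F G : List Bool → ℝ≥0∞} (h : ∀ y, F y ≤ G y) :
    E p s x F ≤ E p s x G := ENNReal.tsum_le_tsum fun y => by gcongr; exact h y

theorem E_mul (x : List Bool) (c : ℝ≥0∞) (F : List Bool → ℝ≥0∞) :
    E p s x (fun y => c * F y) = c * E p s x F := by
  unfold E
  rw [← ENNReal.tsum_mul_left]
  exact tsum_congr fun y => by ring

theorem E_add (x : List Bool) (F G : List Bool → ℝ≥0∞) :
    E p s x (fun y => F y + G y) = E p s x F + E p s x G := by
  unfold E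
  rw [← ENNReal.tsum_add]
  exact tsum_congr fun y => by ring

theorem E_zero (x : List Bool) : E p s x (fun _ => 0) = 0 := by simp [E]

theorem tsum_le_of_trunc {g : List Bool → ℝ≥0∞} {M : ℝ≥0∞}
    (h : ∀ N, ∑' y, (if y.length < N then g y else 0) ≤ M) : ∑' y, g y ≤ M := by
  rw [ENNReal.tsum_eq_iSup_sum]
  refine iSup_le fun t => le_trans ?_ (h (t.sup List.length + 1))
  refine le_trans (le_of_eq ?_) (ENNReal.sum_le_tsum t)
  refine Finset.sum_congr rfl fun y hy => ?_
  rw [if_pos (Nat.lt_succ_of_le (Finset.le_sup (f := List.length) hy))]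

/-- Coinduction principle for upper bounds. -/
theorem E_le_coind (C : List Bool → (List Bool → ℝ≥0∞) → ℝ≥0∞ → Prop)
    (h0 : ∀ F M, C [] F M → ∃ M0 M1, C [] (fun y => F (false :: y)) M0 ∧
      C [] (fun y => F (true :: y)) M1 ∧ F [] + ENNReal.ofReal s * (M0 + M1) ≤ M)
    (h1 : ∀ b x F M, C (b :: x) F M → ∃ Md Mk M0 M1, C x F Md ∧ C x (fun y => F (b :: y)) Mk ∧
      C (b :: x) (fun y => F (false :: y)) M0 ∧ C (b :: x) (fun y => F (true :: y)) M1 ∧
      ENNReal.ofReal (p / 2) * Md + ENNReal.ofReal (1 - p) * Mk +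
        ENNReal.ofReal (p / 4) * (M0 + M1) ≤ M)
    {x F M} (h : C x F M) : E p s x F ≤ M := by
  have key : ∀ N x F M, C x F M → E p s x (fun y => if y.length < N then F y else 0) ≤ M := by
    intro N
    induction N with
    | zero => intro x F M _; simp [E]
    | succ N ih =>
      intro x
      induction x with
      | nil =>
        intro F M h
        obtain ⟨M0, M1, a0, a1, hle⟩ := h0 F M h
        rw [E_nil]
        simp only [List.length_cons, Nat.add_lt_add_iff_right, List.length_nil, Nat.zero_lt_succ,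
          if_true]
        refine le_trans ?_ hle
        gcongr
        exacts [ih _ _ _ a0, ih _ _ _ a1]
      | cons b x ihx =>
        intro F M h
        obtain ⟨Md, Mk, M0, M1, ad, ak, a0, a1, hle⟩ := h1 b x F M h
        rw [E_cons]
        simp only [List.length_cons, Nat.add_lt_add_iff_right]
        refine le_trans ?_ hle
        gcongr
        exacts [ihx _ _ ad, ih _ _ _ ak, ih _ _ _ a0, ih _ _ _ a1]
  refine tsum_le_of_trunc fun N => le_trans (le_of_eq ?_) (key N x F M h)
  exact tsum_congr fun y => by by_cases hy : y.length < N <;> simp [hy]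

/-- Real form of the coinduction principle. -/
theorem E_le_real (hp0 : 0 ≤ p) (hp1 : p ≤ 1) (hs : 0 ≤ s)
    (C : List Bool → (List Bool → ℝ) → ℝ → Prop)
    (hpos : ∀ x F M, C x F M → 0 ≤ M ∧ ∀ y, 0 ≤ F y)
    (h0 : ∀ F M, C [] F M → ∃ M0 M1, C [] (fun y => F (false :: y)) M0 ∧
      C [] (fun y => F (true :: y)) M1 ∧ F [] + s * (M0 + M1) ≤ M)
    (h1 : ∀ b x F M, C (b :: x) F M → ∃ Md Mk M0 M1, C x F Md ∧ C x (fun y => F (b :: y)) Mk ∧
      C (b :: x) (fun y => F (false :: y)) M0 ∧ C (b :: x) (fun y => F (true :: y)) M1 ∧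
      p / 2 * Md + (1 - p) * Mk + p / 4 * (M0 + M1) ≤ M)
    {x F M} (h : C x F M) : E p s x (fun y => ENNReal.ofReal (F y)) ≤ ENNReal.ofReal M := by
  refine E_le_coind (fun x G N => ∃ F M, C x F M ∧ G = (fun y => ENNReal.ofReal (F y)) ∧
    N = ENNReal.ofReal M) ?_ ?_ ⟨F, M, h, rfl, rfl⟩
  · rintro _ _ ⟨F, M, h, rfl, rfl⟩
    obtain ⟨M0, M1, a0, a1, hle⟩ := h0 F M h
    refine ⟨_, _, ⟨_, _, a0, rfl, rfl⟩, ⟨_, _, a1, rfl, rfl⟩, ?_⟩
    have b0 := (hpos _ _ _ a0).1
    have b1 := (hpos _ _ _ a1).1
    have b2 := (hpos _ _ _ h).2 []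
    rw [← ENNReal.ofReal_add b0 b1, ← ENNReal.ofReal_mul hs, ← ENNReal.ofReal_add b2 (by positivity)]
    exact ENNReal.ofReal_le_ofReal hle
  · rintro b x _ _ ⟨F, M, h, rfl, rfl⟩
    obtain ⟨Md, Mk, M0, M1, ad, ak, a0, a1, hle⟩ := h1 b x F M h
    refine ⟨_, _, _, _, ⟨_, _, ad, rfl, rfl⟩, ⟨_, _, ak, rfl, rfl⟩, ⟨_, _, a0, rfl, rfl⟩,
      ⟨_, _, a1, rfl, rfl⟩, ?_⟩
    have b0 := (hpos _ _ _ a0).1
    have b1 := (hpos _ _ _ a1).1
    have b2 := (hpos _ _ _ ad).1
    have b3 := (hpos _ _ _ ak).1
    have b4 : 0 ≤ 1 - p := by linarith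
    rw [← ENNReal.ofReal_add b0 b1, ← ENNReal.ofReal_mul (by positivity),
      ← ENNReal.ofReal_mul b4, ← ENNReal.ofReal_mul (by positivity),
      ← ENNReal.ofReal_add (by positivity) (by positivity),
      ← ENNReal.ofReal_add (by positivity) (by positivity)]
    exact ENNReal.ofReal_le_ofReal hle

theorem ch_append (x x' y : List Bool) : ch p s (x ++ x') y =
    ∑ i ∈ range (y.length + 1), ch p 0 x (y.take i) * ch p s x' (y.drop i) := by
  induction x generalizing y with
  | nil =>
    rw [Finset.sum_range_succ', Finset.sum_eq_zero]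
    · simp [ch_nil]
    · intro i hi
      have : (y.take (i + 1)).length ≠ 0 := by
        simp only [mem_range] at hi; simp only [List.length_take]; omega
      simp only [ch_nil, ENNReal.ofReal_zero, zero_pow this, zero_mul]
  | cons b x ih =>
    induction y with
    | nil => simp [ch_cons_nil, ih, mul_assoc]
    | cons c y ihy =>
      rw [List.cons_append, ch_cons_cons, ← List.cons_append, ihy, ih, ih, List.length_cons,
        Finset.sum_range_succ' _ (y.length + 1), Finset.sum_range_succ' _ (y.length + 1)]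
      simp only [List.take_succ_cons, List.drop_succ_cons, List.take_zero, List.drop_zero,
        ch_cons_cons, ch_cons_nil, add_mul, Finset.sum_add_distrib, mul_add, Finset.mul_sum,
        mul_assoc]
      ring

theorem ch_split (z y y' : List Bool) : ch p (p / 4) z (y ++ y') ≤
    ∑ i ∈ range (z.length + 1), ch p (p / 4) (z.take i) y * ch p (p / 4) (z.drop i) y' := by
  induction y generalizing z with
  | nil =>
    rw [Finset.sum_range_succ']
    simp [ch_nil]
  | cons c y ih =>
    induction z with
    | nil => simp [ch_nil, pow_add, pow_succ, mul_comm, mul_left_comm]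
    | cons b z ihz =>
      rw [List.cons_append, ch_cons_cons, ← List.cons_append]
      refine le_trans (add_le_add (add_le_add (mul_le_mul_right ihz _) (mul_le_mul_right (ih z) _))
        (mul_le_mul_right (ih (b :: z)) _)) (le_of_eq ?_)
      rw [List.length_cons, Finset.sum_range_succ' _ (z.length + 1),
        Finset.sum_range_succ' _ (z.length + 1)]
      simp only [List.take_succ_cons, List.drop_succ_cons, List.take_zero, List.drop_zero,
        ch_cons_cons, ch_nil, add_mul, Finset.sum_add_distrib, mul_add, Finset.mul_sum,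
        mul_assoc, List.length_cons, pow_succ']
      ring

theorem ch_le_ch {s' : ℝ} (h : s ≤ s') (x y : List Bool) : ch p s x y ≤ ch p s' x y := by
  induction x generalizing y with
  | nil => rw [ch_nil, ch_nil]; gcongr
  | cons b x ih =>
    induction y with
    | nil => rw [ch_cons_nil, ch_cons_nil]; gcongr; exact ih _
    | cons c y ihy => rw [ch_cons_cons, ch_cons_cons]; gcongr <;> exact ih _

theorem tsum_split (F : List Bool → List Bool → ℝ≥0∞) :
    ∑' y : List Bool, ∑ i ∈ range (y.length + 1), F (y.take i) (y.drop i) = ∑' u, ∑' v, F u v := by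
  classical
  have h : ∀ (y : List Bool) (F : List Bool → List Bool → ℝ≥0∞),
      ∑ i ∈ range (y.length + 1), F (y.take i) (y.drop i) =
        ∑' u, ∑' v, if y = u ++ v then F u v else 0 := by
    intro y
    induction y with
    | nil =>
      intro F
      rw [tsum_list]
      simp
    | cons c y ih =>
      intro F
      rw [tsum_list, List.length_cons, Finset.sum_range_succ' _ (y.length + 1)]
      simp only [List.take_succ_cons, List.drop_succ_cons, List.take_zero, List.drop_zero]
      rw [ih (fun u v => F (c :: u) v), add_comm]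
      congr 1
      · simp only [List.nil_append]
        rw [tsum_eq_single (c :: y)]
        · simp
        · intro v hv; rw [if_neg (Ne.symm hv)]
      · cases c <;> simp
  simp only [h]
  rw [ENNReal.tsum_comm]
  refine tsum_congr fun u => ?_
  rw [ENNReal.tsum_comm]
  refine tsum_congr fun v => ?_
  rw [tsum_eq_single (u ++ v)]
  · simp
  · intro y hy; rw [if_neg hy]

theorem E_append (x x' : List Bool) (F : List Bool → ℝ≥0∞) :
    E p s (x ++ x') F = E p 0 x (fun w => E p s x' (fun y => F (w ++ y))) := by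
  unfold E
  simp only [ch_append, Finset.sum_mul, ← ENNReal.tsum_mul_left]
  rw [← tsum_split (fun w y => ch p 0 x w * (ch p s x' y * F (w ++ y)))]
  simp only [List.take_append_drop, mul_assoc]

end Pool.Agent.Lib.MP_78205c_lc
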