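import Mathlib

/-!
Approximate trace reconstruction: the channel, the edit distance and the success probability.
-/

namespace Pool.Agent.Lib.MP_78205c_lc

/-- `trace p s y` is the probability that the insertion-deletion channel `R_p` turns `s` into `y`,
given by the first step of the scan: delete (probability `p/2`), copy (probability `1-p`), or
insert a uniform bit and stay (probability `p/2`). -/
noncomputable def trace (p : ℝ) : List Bool → List Bool → ℝ
  | [], y => if y = [] then 1 else 0
  | _ :: s, [] => p / 2 * trace p s []
  | b :: s, c :: y => p / 2 * trace p s (c :: y) + (if c = b then (1 - p) * trace p s y else 0) +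
      p / 2 * (1 / 2) * trace p (b :: s) y
termination_by s y => s.length + y.length

/-- One insertion, deletion or substitution. -/
inductive Step : List Bool → List Bool → Prop
  | ins (a b : List Bool) (c : Bool) : Step (a ++ b) (a ++ c :: b)
  | del (a b : List Bool) (c : Bool) : Step (a ++ c :: b) (a ++ b)
  | sub (a b : List Bool) (c d : Bool) : Step (a ++ c :: b) (a ++ d :: b)

/-- `Edits k x y`: a sequence of `k` edits turns `x` into `y`. -/
inductive Edits : ℕ → List Bool → List Bool → Prop
  | refl (x : List Bool) : Edits 0 x x
  | step {k : ℕ} {x y z : List Bool} : Step x y → Edits k y z → Edits (k + 1) x z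

/-- The edit distance. -/
noncomputable def ED (x y : List Bool) : ℕ := sInf {k | Edits k x y}

/-- The probability, over a uniform `s ∈ {0,1}^n` and `m` independent traces of `s`, that the
output of the algorithm `A` is within edit distance `D` of `s`. -/
noncomputable def success (p : ℝ) (n m : ℕ) (A : (Fin m → List Bool) → List Bool) (D : ℝ) : ℝ :=
  1 / 2 ^ n * ∑ s : Fin n → Bool, ∑' ys : Fin m → List Bool,
    (∏ i, trace p (List.ofFn s) (ys i)) * if (ED (List.ofFn s) (A ys) : ℝ) ≤ D then 1 else 0

end Pool.Agent.Lib.MP_78205c_lc
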