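import Pool.Agent.Lib.MP_78205c_lc.Typ

/-!
The first test for foreign windows: an unbiased estimate of their number, with bounded increments.
-/

namespace Pool.Agent.Lib.MP_78205c_lc

open ENNReal Finset

/-- Real functions on words. -/
abbrev Fn := List Bool → ℝ

/-- Adding a letter. -/
def Tm (b : Bool) : Fn →ₗ[ℝ] Fn := LinearMap.funLeft ℝ ℝ (fun w => b :: w)

@[simp] theorem Tm_apply (b : Bool) (g : Fn) (w : List Bool) : Tm b g w = g (b :: w) := rfl

/-- Inverse of the averaging operator, to depth `n`. -/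
noncomputable def Jm (p : ℝ) : ℕ → Fn →ₗ[ℝ] Fn
  | 0 => (1 - p / 2)⁻¹ • LinearMap.id
  | n + 1 => (1 - p)⁻¹ • (LinearMap.id - (p / 4) • ((Tm false + Tm true) ∘ₗ Jm p n))

theorem Jm_zero (p : ℝ) (g : Fn) (w : List Bool) : Jm p 0 g w = (1 - p / 2)⁻¹ * g w := rfl

theorem Jm_succ (p : ℝ) (n : ℕ) (g : Fn) (w : List Bool) : Jm p (n + 1) g w =
    (1 - p)⁻¹ * (g w - p / 4 * (Jm p n g (false :: w) + Jm p n g (true :: w))) := rfl

/-- The effect of one letter of the trace on the estimate. -/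
noncomputable def Am (p : ℝ) (k : ℕ) (c : Bool) : Fn →ₗ[ℝ] Fn :=
  (1 - p)⁻¹ • ((1 - p / 2) ^ 2 • (Jm p k ∘ₗ Tm c) - (p / 2) • LinearMap.id)

theorem Am_apply (p : ℝ) (k : ℕ) (c : Bool) (g : Fn) (w : List Bool) : Am p k c g w =
    (1 - p)⁻¹ * ((1 - p / 2) ^ 2 * Jm p k (Tm c g) w - p / 2 * g w) := rfl

/-- The sum of the estimates over all starting points in the (reversed) word read so far. -/
noncomputable def Sm (p : ℝ) (k : ℕ) : List Bool → Fn →ₗ[ℝ] ℝ
  | [] => LinearMap.proj []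
  | c :: ρ => LinearMap.proj [] + Sm p k ρ ∘ₗ Am p k c

theorem Sm_nil (p : ℝ) (k : ℕ) (g : Fn) : Sm p k [] g = g [] := rfl

theorem Sm_cons (p : ℝ) (k : ℕ) (c : Bool) (ρ : List Bool) (g : Fn) :
    Sm p k (c :: ρ) g = g [] + Sm p k ρ (Am p k c g) := rfl

/-- Functions that do not change beyond depth `k`. -/
def Stab (k : ℕ) (g : Fn) : Prop := ∀ c w, k ≤ w.length → g (c :: w) = g w

variable {p : ℝ} {k : ℕ} {g : Fn}

theorem Stab.tm (h : Stab k g) (b : Bool) : Stab k (Tm b g) := fun c w hw => by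
  rw [Tm_apply, Tm_apply, h b (c :: w) (by simp; omega), h c w hw, h b w hw]

theorem Jm_left (hp : p ≤ 1 / 100) (h : Stab k g) (n : ℕ) : ∀ w : List Bool, k ≤ w.length + n →
    Jm p n ((1 - p) • g + (p / 4) • (Tm false g + Tm true g)) w = g w := by
  have h1 : 1 - p ≠ 0 := by linarith
  have h2 : 1 - p / 2 ≠ 0 := by linarith
  induction n with
  | zero =>
    intro w hw
    simp only [Jm_zero, Pi.add_apply, Pi.smul_apply, smul_eq_mul, Tm_apply, h _ w hw]
    rw [inv_mul_eq_iff_eq_mul₀ h2]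
    ring
  | succ n ih =>
    intro w hw
    rw [Jm_succ, ih _ (by simp; omega), ih _ (by simp; omega)]
    simp only [Pi.add_apply, Pi.smul_apply, smul_eq_mul, Tm_apply]
    field_simp
    ring

theorem Am_harm (hp : p ≤ 1 / 100) (h : Stab k g) (b : Bool) :
    (p / 2) • g + (1 - p) • Am p k b g +
      (p / 4) • (Am p k false (Tm b g) + Am p k true (Tm b g)) = Tm b g := by
  have h1 : 1 - p ≠ 0 := by linarith
  ext w
  have := Jm_left hp (h.tm b) k w (by omega)
  simp only [map_add, map_smul, Pi.add_apply, Pi.smul_apply, smul_eq_mul] at this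
  simp only [Pi.add_apply, Pi.smul_apply, smul_eq_mul, Am_apply]
  field_simp
  linear_combination (4 * (2 - p) ^ 2) * this

theorem Jm_deep (hp : p ≤ 1 / 100) (h : Stab k g) (n : ℕ) : ∀ w : List Bool, k ≤ w.length →
    Jm p n g w = (1 - p / 2)⁻¹ * g w := by
  have h1 : 1 - p ≠ 0 := by linarith
  have h2 : 2 - p ≠ 0 := by linarith
  induction n with
  | zero => exact fun w _ => rfl
  | succ n ih =>
    intro w hw
    rw [Jm_succ, ih _ (by simp; omega), ih _ (by simp; omega), h _ w hw, h _ w hw,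
      show 1 - p / 2 = (2 - p) / 2 by ring]
    field_simp
    ring

theorem Am_deep (hp : p ≤ 1 / 100) (h : Stab k g) (c : Bool) (w : List Bool) (hw : k ≤ w.length) :
    Am p k c g w = g w := by
  have h1 : 1 - p ≠ 0 := by linarith
  have h2 : 2 - p ≠ 0 := by linarith
  rw [Am_apply, Jm_deep hp (h.tm c) k w hw, Tm_apply, h c w hw,
    show 1 - p / 2 = (2 - p) / 2 by ring]
  field_simp
  ring

theorem Jm_bound (hp0 : 0 ≤ p) (hp : p ≤ 1 / 100) {M θ : ℝ} (hM : 0 ≤ M) (h0 : 0 ≤ θ) (h1 : θ ≤ 1)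
    (h : ∀ w, |g w| ≤ M * θ ^ w.length) (n : ℕ) :
    ∀ w, |Jm p n g w| ≤ (1 - 3 * p / 2)⁻¹ * (M * θ ^ w.length) := by
  have a1 : 0 < 1 - p := by linarith
  have a2 : 0 < 1 - p / 2 := by linarith
  have a3 : 0 < 1 - 3 * p / 2 := by linarith
  induction n with
  | zero =>
    intro w
    rw [Jm_zero, abs_mul, abs_of_pos (inv_pos.2 a2)]
    gcongr
    · linarith
    · exact h w
  | succ n ih =>
    intro w
    have b : ∀ c, |Jm p n g (c :: w)| ≤ (1 - 3 * p / 2)⁻¹ * (M * θ ^ w.length) := fun c => by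
      refine (ih _).trans ?_
      rw [List.length_cons, pow_succ]
      gcongr
      exact mul_le_of_le_one_right (by positivity) h1
    rw [Jm_succ, abs_mul, abs_of_pos (inv_pos.2 a1)]
    calc _ ≤ (1 - p)⁻¹ * (M * θ ^ w.length + p / 4 * ((1 - 3 * p / 2)⁻¹ * (M * θ ^ w.length) +
          (1 - 3 * p / 2)⁻¹ * (M * θ ^ w.length))) := by
          gcongr
          refine (abs_sub _ _).trans (add_le_add (h w) ?_)
          rw [abs_mul, abs_of_nonneg (by positivity)]
          gcongr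
          exact (abs_add_le _ _).trans (add_le_add (b _) (b _))
      _ = _ := by
          have e := inv_mul_cancel₀ a3.ne'
          rw [inv_mul_eq_iff_eq_mul₀ a1.ne']
          linear_combination (-(M * θ ^ w.length)) * e

theorem Am_bound (hp0 : 0 ≤ p) (hp : p ≤ 1 / 100) {M θ : ℝ} (hM : 0 ≤ M) (h0 : 0 ≤ θ) (h1 : θ ≤ 1)
    (h : ∀ w, |g w| ≤ M * θ ^ w.length) (c : Bool) (w : List Bool) :
    |Am p k c g w| ≤ (θ + 5 * p) * M * θ ^ w.length := by
  have a1 : 0 < 1 - p := by linarith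
  have a3 : 0 < 1 - 3 * p / 2 := by linarith
  have b := Jm_bound (g := Tm c g) hp0 hp (M := θ * M) (by positivity) h0 h1
    (fun w => (h _).trans (by rw [List.length_cons, pow_succ]; exact le_of_eq (by ring))) k w
  have c1 : (1 - p)⁻¹ ≤ 1 + 2 * p := by rw [inv_le_iff_one_le_mul₀ a1]; nlinarith
  have c2 : (1 - 3 * p / 2)⁻¹ ≤ 1 + 2 * p := by rw [inv_le_iff_one_le_mul₀ a3]; nlinarith
  have c3 : (1 - p / 2) ^ 2 ≤ 1 := by nlinarith
  rw [Am_apply, abs_mul, abs_of_pos (inv_pos.2 a1)]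
  calc _ ≤ (1 + 2 * p) * (1 * ((1 + 2 * p) * (θ * M * θ ^ w.length)) +
        p / 2 * (M * θ ^ w.length)) := by
        gcongr
        refine (abs_sub _ _).trans (add_le_add ?_ ?_)
        · rw [abs_mul, abs_of_nonneg (by positivity)]
          gcongr
          exact b.trans (by gcongr)
        · rw [abs_mul, abs_of_nonneg (by positivity)]
          gcongr
          exact h w
    _ = ((1 + 2 * p) * ((1 + 2 * p) * θ + p / 2)) * (M * θ ^ w.length) := by ring
    _ ≤ (θ + 5 * p) * (M * θ ^ w.length) := by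
        gcongr
        nlinarith [mul_nonneg hp0 h0, mul_le_mul_of_nonneg_left h1 hp0,
          mul_le_mul_of_nonneg_left h1 (mul_nonneg hp0 hp0)]
    _ = _ := by ring

theorem Sm_bound (hp0 : 0 ≤ p) (hp : p ≤ 1 / 100) {θ K : ℝ} (h0 : 0 ≤ θ) (h1 : θ ≤ 1) (hK : 0 ≤ K)
    (hθ : 1 + K * (θ + 5 * p) ≤ K) (ρ : List Bool) : ∀ (g : Fn) (M : ℝ), 0 ≤ M →
      (∀ w, |g w| ≤ M * θ ^ w.length) → |Sm p k ρ g| ≤ K * M := by
  induction ρ with
  | nil =>
    intro g M hM h
    have : 0 ≤ K * (θ + 5 * p) := by positivity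
    have := h []
    simp only [List.length_nil, pow_zero, mul_one] at this
    rw [Sm_nil]
    nlinarith
  | cons c ρ ih =>
    intro g M hM h
    have h2 := h []
    simp only [List.length_nil, pow_zero, mul_one] at h2
    have h3 := ih _ _ (by positivity) (Am_bound (k := k) hp0 hp hM h0 h1 h c)
    rw [Sm_cons]
    refine (abs_add_le _ _).trans ?_
    nlinarith [mul_le_mul_of_nonneg_right hθ hM]

theorem fgn_append {u a : List Bool} (ha : k ≤ a.length) (x : List Bool) :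
    Fgn k u (a ++ x) ↔ Fgn k u a := by
  simp only [Fgn, Occ, List.take_append_of_le_length ha, List.length_append, ha,
    le_add_right ha]

open Classical in
/-- The indicator of a foreign window at the start of `w.reverse ++ x`. -/
noncomputable def Gx (k : ℕ) (u x : List Bool) : Fn :=
  fun w => if Fgn k u (w.reverse ++ x) then 1 else 0

variable {u : List Bool}

theorem Gx_tm (b : Bool) (x : List Bool) : Tm b (Gx k u x) = Gx k u (b :: x) := by
  ext w
  rw [Tm_apply, Gx, Gx, List.reverse_cons, List.append_assoc, List.singleton_append]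

theorem Gx_deep (x x' w : List Bool) (hw : k ≤ w.length) : Gx k u x w = Gx k u x' w := by
  have h : k ≤ w.reverse.length := by simpa using hw
  rw [Gx, Gx, propext ((fgn_append (u := u) h x).trans (fgn_append h x').symm)]

theorem Gx_stab (x : List Bool) : Stab k (Gx k u x) := fun c w hw => by
  rw [← Tm_apply c (Gx k u x), Gx_tm, Gx_deep _ x w hw]

theorem Gx_mem (x w : List Bool) : 0 ≤ Gx k u x w ∧ Gx k u x w ≤ 1 := by
  unfold Gx; split_ifs <;> simp

theorem fc_cons (b : Bool) (x : List Bool) :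
    (fc k u (b :: x) : ℝ) = Gx k u (b :: x) [] + fc k u x := by
  simp only [fc, Gx, List.reverse_nil, List.nil_append]
  split_ifs <;> simp

/-- The conditional mean of the estimate, given the part of the trace read so far. -/
noncomputable def Vv (p : ℝ) (k : ℕ) (u ρ x : List Bool) : ℝ :=
  Sm p k ρ (Gx k u x) + (fc k u x - (1 - p) / (1 - p / 2) * Gx k u x [])

theorem Vv_harm (hp : p ≤ 1 / 100) (ρ : List Bool) (b : Bool) (x : List Bool) :
    p / 2 * Vv p k u ρ x + (1 - p) * Vv p k u (b :: ρ) x +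
      p / 4 * (Vv p k u (false :: ρ) (b :: x) + Vv p k u (true :: ρ) (b :: x)) =
        Vv p k u ρ (b :: x) := by
  have h2 : 2 - p ≠ 0 := by linarith
  have := congrArg (Sm p k ρ) (Am_harm hp (Gx_stab (k := k) (u := u) x) b)
  simp only [map_add, map_smul, smul_eq_mul, Gx_tm] at this
  simp only [Vv, Sm_cons, fc_cons, show 1 - p / 2 = (2 - p) / 2 by ring]
  rw [← this]
  field_simp
  ring

theorem Vv_incr (hp0 : 0 ≤ p) (hp : p ≤ 1 / 100) {θ K R : ℝ} (h0 : 0 ≤ θ) (h1 : θ ≤ 1) (hK : 0 ≤ K)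
    (hθ : 1 + K * (θ + 5 * p) ≤ K) (hR : 1 ≤ R * θ ^ k) (ρ x : List Bool) (b : Bool) :
    |Vv p k u ρ x - Vv p k u ρ (b :: x)| ≤ 3 * K * R + 3 ∧
    |Vv p k u (b :: ρ) x - Vv p k u ρ (b :: x)| ≤ 3 * K * R + 3 ∧
    |Vv p k u (b :: ρ) x - Vv p k u ρ x| ≤ 3 * K * R + 3 := by
  have hR0 : 0 ≤ R := by
    by_contra hn
    nlinarith [pow_nonneg h0 k]
  have key : ∀ d : Fn, (∀ w, |d w| ≤ 3) → (∀ w : List Bool, k ≤ w.length → d w = 0) →
      |Sm p k ρ d| ≤ 3 * K * R := by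
    intro d d1 d2
    refine (Sm_bound hp0 hp h0 h1 hK hθ ρ d (3 * R) (by positivity) fun w => ?_).trans
      (le_of_eq (by ring))
    by_cases hw : k ≤ w.length
    · rw [d2 w hw, abs_zero]; positivity
    · have : R * θ ^ k ≤ R * θ ^ w.length :=
        mul_le_mul_of_nonneg_left (pow_le_pow_of_le_one h0 h1 (by omega)) hR0
      linarith [d1 w]
  have hG : ∀ x w, |Gx k u x w| ≤ 1 := fun x w => abs_le.2 ⟨by linarith [(Gx_mem (k := k) (u := u) x w).1],
    (Gx_mem x w).2⟩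
  have hA : ∀ w, |Am p k b (Gx k u x) w| ≤ 2 := fun w => by
    have := Am_bound (k := k) (g := Gx k u x) hp0 hp zero_le_one zero_le_one le_rfl
      (by simpa using hG x) b w
    simp only [one_pow, mul_one] at this
    linarith
  have k1 := abs_le.1 (key (Gx k u x - Gx k u (b :: x))
    (fun w => (abs_sub _ _).trans (by linarith [hG x w, hG (b :: x) w]))
    (fun w hw => sub_eq_zero.2 (Gx_deep _ _ w hw)))
  have k2 := abs_le.1 (key (Am p k b (Gx k u x) - Gx k u x)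
    (fun w => (abs_sub _ _).trans (by linarith [hA w, hG x w]))
    (fun w hw => sub_eq_zero.2 (Am_deep hp (Gx_stab x) b w hw)))
  have k3 := abs_le.1 (key (Am p k b (Gx k u x) - Gx k u (b :: x))
    (fun w => (abs_sub _ _).trans (by linarith [hA w, hG (b :: x) w]))
    (fun w hw => sub_eq_zero.2 ((Am_deep hp (Gx_stab x) b w hw).trans (Gx_deep _ _ w hw))))
  simp only [map_sub] at k1 k2 k3
  have c0 : 0 ≤ (1 - p) / (1 - p / 2) := div_nonneg (by linarith) (by linarith)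
  have c1 : (1 - p) / (1 - p / 2) ≤ 1 := (div_le_one (by linarith)).2 (by linarith)
  obtain ⟨g1, g2⟩ := Gx_mem (k := k) (u := u) x []
  obtain ⟨g3, g4⟩ := Gx_mem (k := k) (u := u) (b :: x) []
  have m1 := mul_nonneg c0 g1
  have m2 := mul_le_one₀ c1 g1 g2
  have m3 := mul_nonneg c0 g3
  have m4 := mul_le_one₀ c1 g3 g4
  simp only [Vv, Sm_cons, fc_cons, abs_le]
  refine ⟨⟨?_, ?_⟩, ⟨?_, ?_⟩, ?_, ?_⟩ <;> linarith [k1.1, k1.2, k2.1, k2.2, k3.1, k3.2]

theorem exp_le_quad {a δ : ℝ} (h : |a| ≤ δ) (h1 : δ ≤ 1) :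
    Real.exp a ≤ 1 + a + δ ^ 2 ∧ Real.exp a ≤ 3 := by
  have := (abs_le.1 (Real.abs_exp_sub_one_sub_id_le (h.trans h1))).2
  have h2 : a ^ 2 ≤ δ ^ 2 := by rw [← sq_abs]; gcongr
  have h3 := (abs_le.1 h).2
  have h4 : δ ^ 2 ≤ 1 := pow_le_one₀ ((abs_nonneg a).trans h) h1
  constructor <;> linarith

theorem E_exp_Vv (hp0 : 0 ≤ p) (hp : p ≤ 1 / 100) {s D θ K R η δ : ℝ} (hs : 0 ≤ s)
    (hD : 1 + 6 * s * Real.exp D ≤ Real.exp D) (h0 : 0 ≤ θ) (h1 : θ ≤ 1)
    (hK : 0 ≤ K) (hθ : 1 + K * (θ + 5 * p) ≤ K) (hR : 1 ≤ R * θ ^ k)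
    (hη : |η| * (3 * K * R + 3) ≤ δ) (hδ : δ ≤ 1) (x : List Bool) :
    E p s x (fun y => ex (η * Vv p k u y.reverse [])) ≤
      ex (D + η * Vv p k u [] x + 2 * δ ^ 2 * x.length) := by
  have inc : ∀ {a b : ℝ}, |a - b| ≤ 3 * K * R + 3 → |η * a - η * b| ≤ δ := fun h => by
    rw [← mul_sub, abs_mul]
    exact le_trans (by gcongr) hη
  have I := fun ρ x b => Vv_incr (u := u) hp0 hp h0 h1 hK hθ hR ρ x b
  refine E_le_real hp0 (by linarith) hs (fun x F M => ∃ ρ,
    F = (fun y => Real.exp (η * Vv p k u (y.reverse ++ ρ) [])) ∧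
    M = Real.exp (D + η * Vv p k u ρ x + 2 * δ ^ 2 * x.length)) ?_ ?_ ?_ ⟨[], by simp, rfl⟩
  · rintro x _ _ ⟨ρ, rfl, rfl⟩
    exact ⟨by positivity, fun y => by positivity⟩
  · rintro _ _ ⟨ρ, rfl, rfl⟩
    refine ⟨_, _, ⟨false :: ρ, by simp, rfl⟩, ⟨true :: ρ, by simp, rfl⟩, ?_⟩
    have a := fun c => (exp_le_quad (inc (I ρ [] c).2.2) hδ).2
    have e : ∀ c, Real.exp (η * Vv p k u (c :: ρ) []) ≤ 3 * Real.exp (η * Vv p k u ρ []) := fun c => by
      have := a c
      rwa [Real.exp_sub, div_le_iff₀ (Real.exp_pos _)] at this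
    simp only [List.reverse_nil, List.nil_append, List.length_nil, Nat.cast_zero, mul_zero,
      add_zero, Real.exp_add]
    have := Real.exp_pos (η * Vv p k u ρ [])
    calc _ ≤ Real.exp (η * Vv p k u ρ []) + s * (Real.exp D * (3 * Real.exp (η * Vv p k u ρ [])) +
          Real.exp D * (3 * Real.exp (η * Vv p k u ρ []))) := by gcongr <;> exact e _
      _ = (1 + 6 * s * Real.exp D) * Real.exp (η * Vv p k u ρ []) := by ring
      _ ≤ _ := by gcongr
  · rintro b x _ _ ⟨ρ, rfl, rfl⟩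
    refine ⟨_, _, _, _, ⟨ρ, rfl, rfl⟩, ⟨b :: ρ, by simp, rfl⟩, ⟨false :: ρ, by simp, rfl⟩,
      ⟨true :: ρ, by simp, rfl⟩, ?_⟩
    obtain ⟨a1, -⟩ := exp_le_quad (inc (I ρ x b).1) hδ
    obtain ⟨a2, -⟩ := exp_le_quad (inc (I ρ x b).2.1) hδ
    obtain ⟨a3, a3'⟩ := exp_le_quad (inc (I ρ (b :: x) false).2.2) hδ
    obtain ⟨a4, a4'⟩ := exp_le_quad (inc (I ρ (b :: x) true).2.2) hδ
    have hh := Vv_harm (k := k) (u := u) hp ρ b x
    set V := Vv p k u ρ (b :: x)
    set V1 := Vv p k u ρ x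
    set V2 := Vv p k u (b :: ρ) x
    set V3 := Vv p k u (false :: ρ) (b :: x)
    set V4 := Vv p k u (true :: ρ) (b :: x)
    have f : ∀ W t : ℝ, Real.exp (D + η * W + t) =
        Real.exp (η * W - η * V) * Real.exp (D + η * V + t) := fun W t => by
      rw [← Real.exp_add]; congr 1; ring
    have f' : Real.exp (D + η * V + 2 * δ ^ 2 * ((b :: x).length : ℕ)) =
        Real.exp (2 * δ ^ 2) * Real.exp (D + η * V + 2 * δ ^ 2 * x.length) := by
      rw [← Real.exp_add]; congr 1; simp only [List.length_cons]; push_cast; ring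
    rw [f V1, f V2, f V3, f V4, f']
    have hc := Real.add_one_le_exp (2 * δ ^ 2)
    have q0 : 0 ≤ 1 - p := by linarith
    have b1 := mul_le_mul_of_nonneg_left a1 (show 0 ≤ p / 2 by positivity)
    have b2 := mul_le_mul_of_nonneg_left a2 q0
    have b3 := mul_le_mul_of_nonneg_left a3 (show 0 ≤ p / 4 by positivity)
    have b4 := mul_le_mul_of_nonneg_left a4 (show 0 ≤ p / 4 by positivity)
    generalize Real.exp (η * V1 - η * V) = e1 at *
    generalize Real.exp (η * V2 - η * V) = e2 at *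
    generalize Real.exp (η * V3 - η * V) = e3 at *
    generalize Real.exp (η * V4 - η * V) = e4 at *
    have hs : p / 2 * e1 + (1 - p) * e2 + p / 4 * (e3 + e4) ≤ 1 + δ ^ 2 := by
      have : η * (p / 2 * V1 + (1 - p) * V2 + p / 4 * (V3 + V4)) = η * V := by rw [hh]
      nlinarith
    have hy : p / 4 * (e3 + e4) ≤ 1 / 2 := by nlinarith
    have : p / 2 * e1 + (1 - p) * e2 + p / 4 * (e3 + e4) * Real.exp (2 * δ ^ 2) ≤
        Real.exp (2 * δ ^ 2) := by
      nlinarith [mul_le_mul_of_nonneg_right hc (show 0 ≤ 1 - p / 4 * (e3 + e4) by linarith),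
        mul_le_mul_of_nonneg_left hy (sq_nonneg δ)]
    have := mul_le_mul_of_nonneg_right this (Real.exp_pos (D + η * V + 2 * δ ^ 2 * x.length)).le
    linarith

theorem ft1 (hp0 : 0 ≤ p) (hp : p ≤ 1 / 100) {s D θ K R η δ : ℝ} (hs : 0 ≤ s)
    (hD : 1 + 6 * s * Real.exp D ≤ Real.exp D) (h0 : 0 ≤ θ) (h1 : θ ≤ 1)
    (hK : 0 ≤ K) (hθ : 1 + K * (θ + 5 * p) ≤ K) (hR : 1 ≤ R * θ ^ k) (hη0 : 0 ≤ η)
    (hη : η * (3 * K * R + 3) ≤ δ) (hδ : δ ≤ 1) (u v : List Bool) :
    bc p s u v ≤ ex ((D - η * fc k u v) / 2 + δ ^ 2 * (u.length + v.length)) := by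
  have a := E_exp_Vv (u := u) hp0 hp le_rfl (D := 0) (by simp) h0 h1 hK hθ hR
    (by rwa [abs_of_nonneg hη0]) hδ u
  have b := E_exp_Vv (u := u) (η := -η) hp0 hp hs hD h0 h1 hK hθ hR
    (by rwa [abs_neg, abs_of_nonneg hη0]) hδ v
  refine (bc_tilt u v _ _ (fun y => by rw [← ex_add]; simp) a b).trans (ex_mono ?_)
  have e1 : Vv p k u [] u = 0 := by
    have : Gx k u u [] = 0 := if_neg fun hf => hf.2 ⟨u, List.suffix_rfl, hf.1, rfl⟩
    simp [Vv, Sm_nil, this, fc_self List.suffix_rfl]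
  have e2 : (fc k u v : ℝ) ≤ Vv p k u [] v := by
    have c1 : (1 - p) / (1 - p / 2) ≤ 1 := (div_le_one (by linarith)).2 (by linarith)
    have := mul_le_mul_of_nonneg_right c1 (Gx_mem (k := k) (u := u) v []).1
    simp only [Vv, Sm_nil]
    linarith
  rw [e1]
  nlinarith [mul_le_mul_of_nonneg_left e2 hη0]

end Pool.Agent.Lib.MP_78205c_lc
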