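import Pool.Agent.Lib.MP_78205c_lc.Typ

/-!
The second test for foreign windows: count disjoint occurrences of them in the trace.
-/

namespace Pool.Agent.Lib.MP_78205c_lc

open ENNReal Finset

open Classical in
/-- The largest number of disjoint windows of length `j + 1` with property `W`. -/
noncomputable def pk (W : List Bool → Prop) (j : ℕ) : List Bool → ℕ
  | [] => 0
  | c :: y => max (pk W j y) (if W (c :: y.take j) then 1 + pk W j (y.drop j) else 0)
termination_by y => y.length
decreasing_by all_goals simp only [List.length_cons, List.length_drop]; omega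

variable {W : List Bool → Prop} {j : ℕ}

theorem pk_nil : pk W j [] = 0 := by rw [pk]

open Classical in
theorem pk_cons (c : Bool) (y : List Bool) : pk W j (c :: y) =
    max (pk W j y) (if W (c :: y.take j) then 1 + pk W j (y.drop j) else 0) := by rw [pk]

theorem pk_le_append (a y : List Bool) : pk W j y ≤ pk W j (a ++ y) := by
  induction a with
  | nil => rfl
  | cons c a ih => rw [List.cons_append, pk_cons]; exact le_max_of_le_left ih

theorem pk_word {w : List Bool} (h : W w) (hl : w.length = j + 1) (y : List Bool) :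
    1 + pk W j y ≤ pk W j (w ++ y) := by
  cases w with
  | nil => simp at hl
  | cons c w =>
    have hl : w.length = j := by simpa using hl
    rw [List.cons_append, pk_cons, List.take_left' hl, List.drop_left' hl, if_pos h]
    exact le_max_right _ _

theorem pk_append_le (m : ℕ) : ∀ (a y : List Bool) (n : ℕ), a.length ≤ m → a.length ≤ n * (j + 1) →
    pk W j (a ++ y) ≤ n + pk W j y := by
  induction m with
  | zero =>
    intro a y n h _
    obtain rfl : a = [] := by simpa using h
    simp
  | succ m ih =>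
    intro a y n h h'
    cases a with
    | nil => simp
    | cons c a =>
      simp only [List.length_cons] at h h'
      rw [List.cons_append, pk_cons]
      refine max_le (ih _ _ _ (by omega) (by omega)) ?_
      split_ifs
      swap
      · omega
      obtain ⟨n, rfl⟩ : ∃ n', n = n' + 1 := ⟨n - 1, by rcases n with _ | n <;> simp at h' ⊢⟩
      rw [List.drop_append]
      have h1 := ih (a.drop j) (y.drop (j - a.length)) n (by simp; omega)
        (by simp only [List.length_drop, add_mul] at h' ⊢; omega)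
      have h2 := pk_le_append (W := W) (j := j) (y.take (j - a.length)) (y.drop (j - a.length))
      rw [List.take_append_drop] at h2
      omega

theorem pk_append_none (a y : List Bool)
    (h : ∀ a', a' <:+ a → ¬ W ((a' ++ y).take (j + 1))) : pk W j (a ++ y) ≤ pk W j y := by
  induction a with
  | nil => rfl
  | cons c a ih =>
    rw [List.cons_append, pk_cons, if_neg (by simpa using h _ List.suffix_rfl)]
    exact max_le (ih fun a' ha => h a' (ha.trans (List.suffix_cons c a))) (Nat.zero_le _)

open Classical in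
/-- The number of nonempty final segments with property `P`. -/
noncomputable def cnt (P : List Bool → Prop) : List Bool → ℕ
  | [] => 0
  | c :: Y => (if P (c :: Y) then 1 else 0) + cnt P Y

theorem cnt_le_append (P : List Bool → Prop) (a Y : List Bool) : cnt P Y ≤ cnt P (a ++ Y) := by
  induction a with
  | nil => rfl
  | cons c a ih => simp only [List.cons_append, cnt]; omega

theorem cnt_or {P Q R : List Bool → Prop} (h : ∀ Z, P Z → Q Z ∨ R Z) (u : List Bool) :
    cnt P u ≤ cnt Q u + cnt R u := by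
  induction u with
  | nil => simp [cnt]
  | cons c u ih =>
    have := h (c :: u)
    simp only [cnt]
    split_ifs <;> first | omega | tauto

theorem cnt_zero {P : List Bool → Prop} {u : List Bool} (h : ∀ Z, Z <:+ u → ¬ P Z) :
    cnt P u = 0 := by
  induction u with
  | nil => rfl
  | cons c u ih =>
    rw [cnt, if_neg (h _ List.suffix_rfl), ih fun Z hZ => h Z (hZ.trans (List.suffix_cons c u))]

theorem cnt_le_one {P : List Bool → Prop} {u : List Bool}
    (h : ∀ Z Z', Z <:+ u → Z' <:+ u → P Z → P Z' → Z = Z') : cnt P u ≤ 1 := by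
  induction u with
  | nil => simp [cnt]
  | cons c u ih =>
    rw [cnt]
    split_ifs with hP
    · rw [cnt_zero]
      intro Z hZ hPZ
      have := h _ _ List.suffix_rfl (hZ.trans (List.suffix_cons c u)) hP hPZ
      have := hZ.length_le
      simp [← ‹c :: u = Z›] at this
    · simpa using ih fun Z Z' a b => h Z Z' (a.trans (List.suffix_cons c u))
        (b.trans (List.suffix_cons c u))

variable {k k1 : ℕ} {u : List Bool}

/-- `Z` starts with a block of length `k1` of a word with property `W`. -/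
def Near (W : List Bool → Prop) (k1 : ℕ) (Z : List Bool) : Prop :=
  ∃ w r, W w ∧ r.length = k1 ∧ r <:+: w ∧ r <+: Z

theorem cnt_near_word (hT : Typ k1 u) (h1 : 1 ≤ k1) (w : List Bool) :
    cnt (Near (· = w) k1) u ≤ w.length := by
  induction w with
  | nil =>
    refine (cnt_zero ?_).le
    rintro Z - ⟨_, r, rfl, a, b, -⟩
    rw [List.infix_nil.1 b] at a
    simp at a; omega
  | cons c w ih =>
    refine (cnt_or (Q := fun Z => k1 ≤ Z.length ∧ Z.take k1 = (c :: w).take k1)
      (R := Near (· = w) k1) ?_ u).trans ?_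
    · rintro Z ⟨_, r, rfl, a, b, d⟩
      rcases List.infix_cons_iff.1 b with b | b
      · refine Or.inl ⟨a ▸ d.length_le, ?_⟩
        rw [← a, ← List.prefix_iff_eq_take.1 d, ← List.prefix_iff_eq_take.1 b]
      · exact Or.inr ⟨w, r, rfl, a, b, d⟩
    · have := cnt_le_one (u := u) (P := fun Z => k1 ≤ Z.length ∧ Z.take k1 = (c :: w).take k1)
        fun Z Z' a b d e => hT Z Z' a b d.1 e.1 (d.2.trans e.2.symm)
      simp only [List.length_cons]
      omega

/-- The foreign windows of `v`. -/
def InW (k : ℕ) (u v w : List Bool) : Prop := ∃ Y, Y <:+ v ∧ Fgn k u Y ∧ w = Y.take k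

theorem cnt_near (hT : Typ k1 u) (h1 : 1 ≤ k1) (hk : 1 ≤ k) (v : List Bool) :
    cnt (Near (InW k u v) k1) u ≤ k * fc k u v := by
  induction v with
  | nil =>
    rw [cnt_zero]
    · exact Nat.zero_le _
    rintro Z - ⟨_, r, ⟨Y, a, b, -⟩, -⟩
    have := b.1
    rw [List.suffix_nil.1 a] at this
    simp at this; omega
  | cons c v ih =>
    rw [fc]
    split_ifs with hf
    · refine (cnt_or (Q := Near (· = (c :: v).take k) k1) (R := Near (InW k u v) k1) ?_ u).trans ?_
      · rintro Z ⟨_, r, ⟨Y, a, b, rfl⟩, d⟩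
        rcases List.suffix_cons_iff.1 a with rfl | a
        · exact Or.inl ⟨_, r, rfl, d⟩
        · exact Or.inr ⟨_, r, ⟨Y, a, b, rfl⟩, d⟩
      · have := cnt_near_word hT h1 ((c :: v).take k)
        rw [List.length_take_of_le hf.1] at this
        rw [mul_add]
        omega
    · refine (cnt_or (Q := fun _ => False) (R := Near (InW k u v) k1) ?_ u).trans ?_
      · rintro Z ⟨_, r, ⟨Y, a, b, rfl⟩, d⟩
        rcases List.suffix_cons_iff.1 a with rfl | a
        · exact absurd b hf
        · exact Or.inr ⟨_, r, ⟨Y, a, b, rfl⟩, d⟩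
      · rw [cnt_zero (by simp)]
        simpa using ih

variable {p s β ζ : ℝ}

theorem E_ne_le (hp0 : 0 ≤ p) (hp1 : p ≤ 1) (hβ : β + 1 ≤ ζ) (hζ : 0 ≤ ζ) {w : List Bool}
    (hP : E p 0 w (fun y => ex (ζ * lev w y)) ≤ ex 1) :
    E p 0 w (fun y => if y = w then ex (-β) else 1) ≤ ex (1 - β) := by
  calc _ ≤ E p 0 w (fun y => ex (-β) + ex (-ζ) * ex (ζ * lev w y)) := by
        refine E_mono _ fun y => ?_
        split_ifs with h
        · exact le_self_add
        · refine le_add_left ?_
          rw [← ex_add]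
          have : (1 : ℝ) ≤ lev w y := by exact_mod_cast lev_pos h
          exact one_le_ex (by nlinarith)
    _ ≤ ex (-β) + ex (-ζ) * ex 1 := by
        rw [E_add, E_mul]
        gcongr
        exact E_const_le hp0 hp1 _ _
    _ ≤ _ := by
        rw [← ex_add]
        exact ex_add_ex_le (by linarith) (by linarith)

theorem vside (hp0 : 0 ≤ p) (hp1 : p ≤ 1) (hs : 0 ≤ s) (hs1 : s ≤ 1 / 4) (hβ0 : 0 ≤ β)
    (hβ : β + 1 ≤ ζ) (hP : ∀ w : List Bool, w.length ≤ 2 * (j + 1) →
      E p 0 w (fun y => ex (ζ * lev w y)) ≤ ex 1) (v : List Bool) (n : ℕ) :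
    ∀ Y, Y.length ≤ n → Y <:+ v → ∃ T : ℕ, fc (j + 1) u Y ≤ (j + 1) * T ∧
      E p s Y (fun y => ex (-β * pk (InW (j + 1) u v) j y)) ≤ ex (1 - (β - 1) * T) := by
  have base : ∃ T : ℕ, fc (j + 1) u [] ≤ (j + 1) * T ∧
      E p s [] (fun y => ex (-β * pk (InW (j + 1) u v) j y)) ≤ ex (1 - (β - 1) * T) := by
    refine ⟨0, by simp [fc], (E_mono _ (G := fun _ => 1) fun y => ?_).trans ?_⟩
    · rw [← ex_zero]
      exact ex_mono (by rw [neg_mul, neg_nonpos]; positivity)
    · simpa using (E_one_le_two hp0 hp1 hs hs1 []).trans two_le_ex_one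
  induction n with
  | zero =>
    intro Y h _
    obtain rfl : Y = [] := by simpa using h
    exact base
  | succ n ih =>
    intro Y h hY
    cases Y with
    | nil => exact base
    | cons c Y =>
      have mono : ∀ a y : List Bool, ex (-β * pk (InW (j + 1) u v) j (a ++ y)) ≤
          ex (-β * pk (InW (j + 1) u v) j y) := fun a y => by
        have : (pk (InW (j + 1) u v) j y : ℝ) ≤ pk (InW (j + 1) u v) j (a ++ y) := by
          exact_mod_cast pk_le_append a y
        exact ex_mono (by nlinarith)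
      by_cases hf : Fgn (j + 1) u (c :: Y)
      · have hl := List.length_take_of_le hf.1
        have hW : InW (j + 1) u v ((c :: Y).take (j + 1)) := ⟨_, hY, hf, rfl⟩
        obtain ⟨T, h1, h2⟩ := ih ((c :: Y).drop (j + 1)) (by simp at h ⊢; omega)
          ((List.drop_suffix _ _).trans hY)
        have e := List.take_append_drop (j + 1) (c :: Y)
        generalize (c :: Y).take (j + 1) = w at *
        generalize (c :: Y).drop (j + 1) = Y' at *
        rw [← e]
        refine ⟨T + 1, (fc_append_le _ _).trans (by rw [mul_add]; omega), ?_⟩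
        rw [E_append]
        calc _ ≤ E p 0 w (fun y => ex (1 - (β - 1) * T) * if y = w then ex (-β) else 1) := by
              refine E_mono _ fun y => ?_
              split_ifs with hy
              · rw [mul_comm]
                refine le_trans ?_ (mul_le_mul_right h2 _)
                rw [← E_mul]
                refine E_mono _ fun y' => ?_
                rw [← ex_add, hy]
                have : (1 + pk (InW (j + 1) u v) j y' : ℝ) ≤ pk (InW (j + 1) u v) j (w ++ y') := by
                  exact_mod_cast pk_word hW hl y'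
                exact ex_mono (by nlinarith)
              · rw [mul_one]
                exact (E_mono _ fun y' => mono y y').trans h2
          _ ≤ ex (1 - (β - 1) * T) * ex (1 - β) := by
              rw [E_mul]
              gcongr
              exact E_ne_le hp0 hp1 hβ (by linarith) (hP w (by omega))
          _ = _ := by rw [← ex_add]; congr 1; push_cast; ring
      · obtain ⟨T, h1, h2⟩ := ih Y (by simpa using h) ((List.suffix_cons c Y).trans hY)
        refine ⟨T, by rw [fc, if_neg hf]; omega, ?_⟩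
        rw [← List.singleton_append, E_append]
        exact (E_mono _ fun y => (E_mono _ fun y' => mono y y').trans h2).trans
          (E_const_le hp0 hp1 _ _)

theorem E_mono_nil (x : List Bool) {F G : List Bool → ℝ≥0∞}
    (h : ∀ y, (x = [] → y = []) → F y ≤ G y) : E p 0 x F ≤ E p 0 x G := by
  cases x with
  | nil => rw [E_nil F, E_nil G]; simpa using h [] (fun _ => rfl)
  | cons c x => exact E_mono _ fun y => h y (by simp)

/-- A cell is relevant if the two cells starting there share a block with a counted word. -/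
def Rel (W : List Bool → Prop) (k1 : ℕ) (c : List Bool) : Prop :=
  ∃ w r, W w ∧ r.length = k1 ∧ r <:+: w ∧ r <:+: c

theorem rel_cnt (h1 : 1 ≤ k1) {c : List Bool} (h : Rel W k1 c) (X : List Bool) :
    cnt (Near W k1) X + 1 ≤ cnt (Near W k1) (c ++ X) := by
  obtain ⟨w, r, a1, a2, a3, a, b, rfl⟩ := h
  cases r with
  | nil => simp at a2; omega
  | cons d r =>
    have e1 := cnt_le_append (Near W k1) a (d :: (r ++ b ++ X))
    have e2 := cnt_le_append (Near W k1) (r ++ b) X
    rw [cnt, if_pos ⟨w, d :: r, a1, a2, a3, ⟨b ++ X, by simp⟩⟩] at e1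
    simp only [List.append_assoc, List.cons_append] at e1 e2 ⊢
    omega

open Classical in
theorem pk_cell {r0 : ℕ} (hk : (2 * r0 + 1) * k1 + 2 * r0 ≤ j + 1)
    (hW : ∀ w, W w → w.length = j + 1 ∧ ¬ w <:+: u) {c1 c2 : List Bool} (hu : c1 ++ c2 <:+: u)
    (l1 : c1.length ≤ 2 * (j + 1)) (y1 y2 y : List Bool) (l2 : c2.length = 2 * (j + 1) ∨ y = []) :
    pk W j (y1 ++ (y2 ++ y)) ≤ (if r0 < lev c1 y1 then 3 + lev c1 y1
      else if Rel W k1 (c1 ++ c2) ∧ y1 ≠ c1 then 4 else 0) +
      (if r0 < lev c2 y2 ∨ (Rel W k1 (c1 ++ c2) ∧ y2 ≠ c2) then 4 else 0) + pk W j (y2 ++ y) := by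
  have a1 := (length_le_lev c1 y1).2
  have a2 := (length_le_lev c2 y2).1
  by_cases h1 : r0 < lev c1 y1
  · have := pk_append_le (W := W) (j := j) _ y1 (y2 ++ y) (3 + lev c1 y1) le_rfl (by nlinarith)
    rw [if_pos h1]
    omega
  have b := pk_append_le (W := W) (j := j) _ y1 (y2 ++ y) 4 le_rfl (by omega)
  rw [if_neg h1]
  by_cases h2 : Rel W k1 (c1 ++ c2) ∧ y1 ≠ c1
  · rw [if_pos h2]; omega
  by_cases h3 : r0 < lev c2 y2 ∨ (Rel W k1 (c1 ++ c2) ∧ y2 ≠ c2)
  · rw [if_pos h3]; omega
  refine le_add_left (pk_append_none _ _ fun a ha hw => ?_)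
  obtain ⟨b1, b2⟩ := hW _ hw
  have b3 : (a ++ (y2 ++ y)).take (j + 1) <:+: y1 ++ y2 := by
    have : (a ++ (y2 ++ y)).take (j + 1) = (a ++ y2).take (j + 1) := by
      rcases l2 with l2 | rfl
      · rw [← List.append_assoc, List.take_append_of_le_length (by simp; omega)]
      · simp
    obtain ⟨t, rfl⟩ := ha
    rw [this, List.append_assoc]
    exact (List.take_prefix _ _).isInfix.trans (List.suffix_append _ _).isInfix
  obtain ⟨r, c1', c2', c3'⟩ := (Al.common (k := k1) ((al_lev c1 y1).append (al_lev c2 y2))).2 _ b3 (by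
    rw [b1]
    refine le_trans ?_ hk
    have : lev c1 y1 + lev c2 y2 ≤ 2 * r0 := by omega
    gcongr)
  have hr : Rel W k1 (c1 ++ c2) := ⟨_, r, hw, c1', c2', c3'⟩
  obtain rfl : y1 = c1 := by tauto
  obtain rfl : y2 = c2 := by tauto
  exact b2 (b3.trans hu)

open Classical in
theorem cell_factor (hp0 : 0 ≤ p) (hp1 : p ≤ 1) (hβ0 : 0 ≤ β) (hβ : β + 1 ≤ ζ) {r0 : ℕ}
    {ε1 ε2 : ℝ} (h1 : Real.exp (7 * β - (ζ - β) * (r0 + 1) + 1) ≤ ε1)
    (h2 : Real.exp (8 * β - ζ + 1) ≤ ε2) {c : List Bool}
    (hP : E p 0 c (fun y => ex (ζ * lev c y)) ≤ ex 1) (fl fl' : Prop) :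
    E p 0 c (fun y => ex (β * ((if r0 < lev c y ∨ (fl ∧ y ≠ c) then 4 else 0) +
      (if r0 < lev c y then 3 + lev c y else if fl' ∧ y ≠ c then 4 else 0) : ℕ))) ≤
      ex (ε1 + ε2 * ((if fl then 1 else 0) + (if fl' then 1 else 0) : ℕ)) := by
  set N : ℕ := (if fl then 1 else 0) + (if fl' then 1 else 0) with hN
  calc _ ≤ E p 0 c (fun y => 1 + (ex (7 * β - (ζ - β) * (r0 + 1)) + N * ex (8 * β - ζ)) *
        ex (ζ * lev c y)) := by
        refine E_mono _ fun y => ?_
        rw [add_mul]
        by_cases a : r0 < lev c y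
        · refine le_add_left (le_add_right ?_)
          rw [← ex_add, if_pos (Or.inl a), if_pos a]
          have : (r0 + 1 : ℝ) ≤ lev c y := by exact_mod_cast a
          exact ex_mono (by push_cast; nlinarith)
        by_cases b : (fl ∨ fl') ∧ y ≠ c
        · refine le_add_left (le_add_left ?_)
          have : (1 : ℝ) ≤ lev c y := by exact_mod_cast lev_pos b.2
          have n1 : (1 : ℝ≥0∞) ≤ N := by
            have : 1 ≤ N := by rw [hN]; split_ifs <;> first | omega | tauto
            exact_mod_cast this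
          rw [mul_assoc, ← ex_add]
          refine le_trans (ex_mono ?_) (le_mul_of_one_le_left' n1)
          have : (((if r0 < lev c y ∨ (fl ∧ y ≠ c) then 4 else 0) +
            (if r0 < lev c y then 3 + lev c y else if fl' ∧ y ≠ c then 4 else 0) : ℕ) : ℝ) ≤ 8 := by
            rw [if_neg a]
            split_ifs <;> norm_num
          nlinarith
        · rw [if_neg (by tauto), if_neg a, if_neg (by tauto)]
          simp
    _ ≤ 1 + (ex (7 * β - (ζ - β) * (r0 + 1)) + N * ex (8 * β - ζ)) * ex 1 := by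
        rw [E_add, E_mul]
        gcongr
        exact E_one_le hp0 hp1 c
    _ ≤ ENNReal.ofReal (ε1 + ε2 * N + 1) := by
        have e1 := (Real.exp_pos _).le.trans h1
        have e2 := (Real.exp_pos _).le.trans h2
        rw [add_mul, mul_assoc, ← ex_add, ← ex_add, ENNReal.ofReal_add (by positivity) zero_le_one,
          ENNReal.ofReal_add e1 (by positivity), ENNReal.ofReal_mul e2, ENNReal.ofReal_natCast,
          ENNReal.ofReal_one, add_comm, mul_comm (N : ℝ≥0∞)]
        gcongr
        exacts [ENNReal.ofReal_le_ofReal h1, ENNReal.ofReal_le_ofReal h2]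
    _ ≤ _ := ENNReal.ofReal_le_ofReal (Real.add_one_le_exp _)

open Classical in
theorem uside (hp0 : 0 ≤ p) (hp1 : p ≤ 1) (hβ0 : 0 ≤ β) (hβ : β + 1 ≤ ζ) {r0 : ℕ}
    {ε1 ε2 : ℝ} (h1 : Real.exp (7 * β - (ζ - β) * (r0 + 1) + 1) ≤ ε1)
    (h2 : Real.exp (8 * β - ζ + 1) ≤ ε2) (hP : ∀ w : List Bool, w.length ≤ 2 * (j + 1) →
      E p 0 w (fun y => ex (ζ * lev w y)) ≤ ex 1) (hk1 : 1 ≤ k1)
    (hk : (2 * r0 + 1) * k1 + 2 * r0 ≤ j + 1) (hW : ∀ w, W w → w.length = j + 1 ∧ ¬ w <:+: u)
    (n : ℕ) : ∀ (c X : List Bool) (fl : Prop), (c ++ X).length ≤ n → c ++ X <:+ u →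
      c.length ≤ 2 * (j + 1) → (c = [] → X = []) →
      E p 0 c (fun y => ex (β * (if r0 < lev c y ∨ (fl ∧ y ≠ c) then 4 else 0 : ℕ)) *
        E p 0 X (fun y' => ex (β * pk W j (y ++ y')))) ≤
      ex (ε1 * (c ++ X).length + ε2 * ((if fl then 1 else 0) +
        2 * (cnt (Near W k1) (c ++ X) + cnt (Near W k1) X) : ℕ)) := by
  have e1 := (Real.exp_pos _).le.trans h1
  have e2 := (Real.exp_pos _).le.trans h2
  have base : ∀ fl : Prop, E p 0 [] (fun y => ex (β * (if r0 < lev [] y ∨ (fl ∧ y ≠ []) then 4 else 0 : ℕ)) *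
        E p 0 [] (fun y' => ex (β * pk W j (y ++ y')))) ≤
      ex (ε1 * (([] : List Bool) ++ []).length + ε2 * ((if fl then 1 else 0) +
        2 * (cnt (Near W k1) ([] ++ []) + cnt (Near W k1) []) : ℕ)) := by
    intro fl
    rw [E_nil, E_nil]
    simp only [lev_self, ENNReal.ofReal_zero, zero_mul, add_zero, List.append_nil, pk_nil]
    rw [if_neg (by simp)]
    simp only [Nat.cast_zero, mul_zero, ex_zero, mul_one]
    exact one_le_ex (by positivity)
  induction n with
  | zero =>
    intro c X fl h _ _ h'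
    obtain rfl : c = [] := by simp at h; exact h.1
    obtain rfl := h' rfl
    exact base fl
  | succ n ih =>
    intro c X fl h hu l hc
    by_cases hc0 : c = []
    · subst hc0
      obtain rfl := hc rfl
      exact base fl
    have lc : 0 < c.length := List.length_pos_iff.2 hc0
    have e := List.take_append_drop (2 * (j + 1)) X
    have l2 : (X.take (2 * (j + 1))).length ≤ 2 * (j + 1) := List.length_take_le _ _
    have l3 : (X.take (2 * (j + 1))).length = 2 * (j + 1) ∨ X.drop (2 * (j + 1)) = [] := by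
      simp only [List.length_take, List.drop_eq_nil_iff]; omega
    generalize X.take (2 * (j + 1)) = c2 at *
    generalize X.drop (2 * (j + 1)) = X2 at *
    subst e
    have IH := ih c2 X2 (Rel W k1 (c ++ c2)) (by simp at h ⊢; omega)
      ((List.suffix_append _ _).trans hu) l2 (by rintro rfl; simpa using l3)
    have hu' : c ++ c2 <:+: u := by
      rw [← List.append_assoc] at hu
      exact (List.prefix_append _ _).isInfix.trans hu.isInfix
    refine le_trans (E_mono c (G := fun y => ex (ε1 * (c2 ++ X2).length + ε2 *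
      ((if Rel W k1 (c ++ c2) then 1 else 0) + 2 * (cnt (Near W k1) (c2 ++ X2) +
        cnt (Near W k1) X2) : ℕ)) * ex (β * ((if r0 < lev c y ∨ (fl ∧ y ≠ c) then 4 else 0) +
      (if r0 < lev c y then 3 + lev c y else if Rel W k1 (c ++ c2) ∧ y ≠ c then 4 else 0) : ℕ)))
      fun y => ?_) ?_
    · rw [Nat.cast_add (if r0 < lev c y ∨ (fl ∧ y ≠ c) then 4 else 0), mul_add β,
        ex_add (β * _), mul_left_comm]
      refine mul_le_mul_right ?_ _
      rw [mul_comm, E_append]
      refine le_trans ?_ (mul_le_mul_right IH _)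
      rw [← E_mul]
      refine E_mono _ fun y2 => ?_
      rw [← E_mul, ← E_mul]
      refine E_mono_nil _ fun y' hy' => ?_
      rw [← ex_add, ← ex_add, ← mul_add, ← mul_add]
      refine ex_mono (mul_le_mul_of_nonneg_left ?_ hβ0)
      have := pk_cell hk hW hu' l y y2 y' (l3.imp id hy')
      rw [add_assoc] at this
      exact_mod_cast this
    · rw [E_mul]
      refine (mul_le_mul_right (cell_factor hp0 hp1 hβ0 hβ h1 h2 (hP c l) fl _) _).trans ?_
      rw [← ex_add]
      refine ex_mono ?_
      have a1 : ((c2 ++ X2).length + 1 : ℝ) ≤ (c ++ (c2 ++ X2)).length := by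
        exact_mod_cast (by simp; omega : (c2 ++ X2).length + 1 ≤ (c ++ (c2 ++ X2)).length)
      have a2 : (if Rel W k1 (c ++ c2) then 1 else 0) + cnt (Near W k1) X2 ≤
          cnt (Near W k1) (c ++ (c2 ++ X2)) := by
        rw [← List.append_assoc]
        split_ifs with hr
        · rw [add_comm]; exact rel_cnt hk1 hr X2
        · rw [zero_add]; exact cnt_le_append _ _ _
      have a3 : ((if Rel W k1 (c ++ c2) then 1 else 0 : ℕ) + cnt (Near W k1) X2 : ℝ) ≤
          cnt (Near W k1) (c ++ (c2 ++ X2)) := by exact_mod_cast a2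
      push_cast at a3 ⊢
      nlinarith [mul_le_mul_of_nonneg_left a1 e1, mul_le_mul_of_nonneg_left a3 e2]

theorem ft2 (hp0 : 0 ≤ p) (hp1 : p ≤ 1) (hs : 0 ≤ s) (hs1 : s ≤ 1 / 4) (hβ0 : 0 ≤ β)
    (hβ : β + 1 ≤ ζ) {r0 : ℕ} {ε1 ε2 : ℝ} (h1 : Real.exp (7 * β - (ζ - β) * (r0 + 1) + 1) ≤ ε1)
    (h2 : Real.exp (8 * β - ζ + 1) ≤ ε2) (hP : ∀ w : List Bool, w.length ≤ 2 * k →
      E p 0 w (fun y => ex (ζ * lev w y)) ≤ ex 1) (hk1 : 1 ≤ k1)
    (hk : (2 * r0 + 1) * k1 + 2 * r0 ≤ k) (hT : Typ k1 u) (v : List Bool) :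
    ∃ T : ℕ, fc k u v ≤ k * T ∧
      bc p s u v ≤ ex ((ε1 * u.length + 4 * ε2 * k * fc k u v + 1 - (β - 1) * T) / 2) := by
  obtain ⟨j, rfl⟩ : ∃ j, k = j + 1 := ⟨k - 1, by have : 1 ≤ k := by nlinarith
                                                 omega⟩
  have e2 := (Real.exp_pos _).le.trans h2
  obtain ⟨T, a1, a2⟩ := vside (u := u) hp0 hp1 hs hs1 hβ0 hβ hP v _ v le_rfl List.suffix_rfl
  refine ⟨T, a1, ?_⟩
  have e := List.take_append_drop (2 * (j + 1)) u
  have a3 := uside (W := InW (j + 1) u v) (u := u) hp0 hp1 hβ0 hβ h1 h2 hP hk1 hk (by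
      rintro _ ⟨Y, -, hf, rfl⟩
      exact ⟨List.length_take_of_le hf.1, fun h => hf.2 (occ_of_infix h
        (List.length_take_of_le hf.1) (List.take_prefix _ _))⟩) _ (u.take (2 * (j + 1)))
    (u.drop (2 * (j + 1))) False le_rfl (by rw [e]) (List.length_take_le _ _)
    (by cases u <;> simp [mul_add])
  have a4 : E p 0 u (fun y => ex (β * pk (InW (j + 1) u v) j y)) ≤
      ex (ε1 * u.length + 4 * ε2 * (j + 1 : ℕ) * fc (j + 1) u v) := by
    conv_lhs => rw [← e, E_append, e]
    refine (E_mono _ fun y => le_mul_of_one_le_left' (one_le_ex (by positivity))).trans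
      (a3.trans (ex_mono ?_))
    have b1 := cnt_le_append (Near (InW (j + 1) u v) k1) (u.take (2 * (j + 1)))
      (u.drop (2 * (j + 1)))
    have b2 := cnt_near hT hk1 (show 1 ≤ j + 1 by omega) v
    rw [e] at b1 ⊢
    have b3 : (((if False then 1 else 0) + 2 * (cnt (Near (InW (j + 1) u v) k1) u +
        cnt (Near (InW (j + 1) u v) k1) (u.drop (2 * (j + 1)))) : ℕ) : ℝ) ≤
        (4 * ((j + 1) * fc (j + 1) u v) : ℕ) := by
      rw [if_neg id]; exact_mod_cast (by omega)
    have := mul_le_mul_of_nonneg_left b3 e2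
    push_cast at this ⊢
    linarith
  refine (bc_tilt u v _ _ (fun y => by rw [← ex_add]; simp) a4 a2).trans (le_of_eq ?_)
  congr 1
  ring

end Pool.Agent.Lib.MP_78205c_lc
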