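import Pool.Agent.Lib.MP_78205c_lc.Top

/-!
The choice of the parameters for long strings.
-/

namespace Pool.Agent.Lib.MP_78205c_lc

open ENNReal Finset

theorem nu_le {ν : ℕ} (h : 40 ≤ ν) : (100000000 * ν : ℝ) ≤ 2 ^ ν := by
  have : 100000000 * ν ≤ 2 ^ ν := by
    induction ν, h using Nat.le_induction with
    | base => norm_num
    | succ n hn ih => rw [pow_succ]; omega
  exact_mod_cast this

theorem pw {a c : ℝ} {i j : ℕ} (ha : 1 ≤ a) (hc : c ≤ a) (h : i + 1 ≤ j) : c * a ^ i ≤ a ^ j :=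
  calc c * a ^ i ≤ a * a ^ i := by gcongr
    _ = a ^ (i + 1) := (pow_succ' _ _).symm
    _ ≤ _ := pow_le_pow_right₀ ha h

theorem two_pow_le_exp (j : ℕ) : (2 : ℝ) ^ j ≤ Real.exp j := by
  rw [← mul_one (j : ℝ), Real.exp_nat_mul]
  gcongr
  linarith [Real.exp_one_gt_d9]

theorem cost_pow {ν j : ℕ} (h : 40 ≤ ν) (hj : j ≤ 200) :
    (cost (2 * (2 ^ ν) ^ j) : ℝ) ≤ Real.exp (2 ^ ν - 1) := by
  have h1 := nu_le h
  have h2 : (40 : ℝ) ≤ ν := by exact_mod_cast h
  have h3 : (1 : ℝ) ≤ (2 ^ ν) ^ j := one_le_pow₀ (by linarith)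
  calc (cost (2 * (2 ^ ν) ^ j) : ℝ) ≤ 12 * (2 ^ ν) ^ (2 * j) := by
        simp only [cost]; push_cast; rw [pow_mul' _ 2 j]; nlinarith
    _ ≤ (2 ^ ν) ^ 401 := pw (by linarith) (by linarith) (by omega)
    _ ≤ Real.exp ((ν * 401 : ℕ)) := by rw [← pow_mul]; exact two_pow_le_exp _
    _ ≤ _ := Real.exp_le_exp.2 (by push_cast; linarith)

theorem exp_neg_le {x n : ℝ} (hn : 0 < n) (hx : 0 ≤ x) (h : 4 * n ≤ x ^ 2) :
    Real.exp (-x) ≤ n⁻¹ / 2 := by
  have h1 := Real.quadratic_le_exp_of_nonneg hx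
  rw [Real.exp_neg, show n⁻¹ / 2 = (2 * n)⁻¹ by field_simp]
  gcongr
  linarith

theorem main_large {p κ D : ℝ} {ν m n : ℕ} (hp0 : 0 ≤ p) (hp : p ≤ 1 / 100) (hν : 40 ≤ ν)
    (hm : 48 ≤ m) (hκ : 1 ≤ 2 * (2 ^ ν) ^ 82 * κ) (hmκ : 8 ≤ m * κ)
    (H1 : ∀ u v : List Bool, Typ (2000 * ν) u → u.length = (2 ^ ν) ^ 160 →
      v.length ≤ 2 * (2 ^ ν) ^ 160 → bc p (p / 4) u v ≤ ex (2 ^ ν - κ * fc (200000 * ν) u v))
    (H2 : ∀ u v : List Bool, Typ (2000 * ν) u → u.length = (2 ^ ν) ^ 42 →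
      v.length ≤ 2 * (2 ^ ν) ^ 42 → (2 ^ ν) ^ 42 ≤ 4 * fc (200000 * ν) u v →
      bc p (p / 4) u v ≤ ex (-(2 ^ ν) ^ 36 - 2 ^ ν))
    (hn : (2 ^ ν) ^ 641 ≤ n) (hD : (n : ℝ) ≤ (2 ^ ν) ^ 33 * D) :
    ∃ A, 1 - (n : ℝ)⁻¹ ≤ success p n m A D := by
  have h1 := nu_le hν
  have h2 : (40 : ℝ) ≤ ν := by exact_mod_cast hν
  have c42 := cost_pow hν (show 42 ≤ 200 by omega)
  have c160 := cost_pow hν (show 160 ≤ 200 by omega)
  have hk1 : (2 : ℕ) ^ (2000 * ν) = (2 ^ ν) ^ 2000 := by rw [← pow_mul, mul_comm]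
  have hk1' : (2 : ℝ) ^ (2000 * ν) = (2 ^ ν) ^ 2000 := by rw [← pow_mul, mul_comm]
  obtain ⟨A, hA⟩ : ∃ A : ℕ, A = 2 ^ ν := ⟨_, rfl⟩
  have hA' : (2 : ℝ) ^ ν = A := by rw [hA]; push_cast; rfl
  rw [← hA] at H1 H2 hn c42 c160 hk1
  rw [hA'] at h1 hκ H1 H2 hD c42 c160 hk1'
  have a1 : (1 : ℝ) ≤ A := by linarith
  have a0 : (0 : ℝ) < A := by linarith
  have P : ∀ (c : ℝ) (i j : ℕ), c ≤ 1000 → i + 1 ≤ j → c * (A : ℝ) ^ i ≤ A ^ j :=
    fun c i j hc h => pw a1 (by linarith) h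
  have Q : ∀ i j : ℕ, i ≤ j → (A : ℝ) ^ i ≤ A ^ j := fun i j h => pow_le_pow_right₀ a1 h
  have m1 : (48 : ℝ) ≤ m := by exact_mod_cast hm
  obtain ⟨l, hl⟩ : ∃ l : ℝ, l * A ^ 125 = m := ⟨m / A ^ 125, by field_simp⟩
  have l0 : 0 < l := by
    by_contra hn
    nlinarith [pow_pos a0 125]
  have R : ∀ (c : ℝ) (i j : ℕ), c ≤ 1000 → i + 1 ≤ j → c * l * (A : ℝ) ^ i ≤ l * A ^ j :=
    fun c i j hc h => by nlinarith [mul_le_mul_of_nonneg_left (P c i j hc h) l0.le]
  have hml : 24 * (l + 1) ≤ m := by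
    have := R 48 0 125 (by norm_num) (by omega)
    rw [hl, pow_zero] at this
    linarith
  have hB : 100 ≤ A ^ 160 := by
    have := P 100 0 160 (by norm_num) (by omega)
    exact_mod_cast (by simpa using this : (100 : ℝ) ≤ (A : ℝ) ^ 160)
  have hL : 100 ≤ A ^ 42 := by
    have := P 100 0 42 (by norm_num) (by omega)
    exact_mod_cast (by simpa using this : (100 : ℝ) ≤ (A : ℝ) ^ 42)
  have n1 : (A : ℝ) ^ 641 ≤ n := by exact_mod_cast hn
  have n0 : (0 : ℝ) < n := (pow_pos a0 _).trans_le n1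
  obtain ⟨K, hK⟩ : ∃ K : ℝ, K * A ^ 320 = n := ⟨n / A ^ 320, by field_simp⟩
  obtain ⟨π, hπ⟩ : ∃ π : ℝ, π * A ^ 321 = 1 := ⟨1 / A ^ 321, by field_simp⟩
  have π0 : 0 < π := by
    by_contra hn
    nlinarith [pow_pos a0 321]
  have K1 : (A : ℝ) ^ 321 ≤ K := by
    refine le_of_mul_le_mul_right ?_ (pow_pos a0 320)
    rw [hK, ← pow_add]
    exact n1
  have K0 : 1 ≤ K := (one_le_pow₀ a1).trans K1
  obtain ⟨T, hT⟩ := large (p := p) (m := m) (l := l) hp0 (by linarith) l0.le (B := A ^ 160)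
    (k1 := 2000 * ν) (n := n) (by omega) (E := l * A ^ 127 / 4) (μ := l * A ^ 286) (π := π) (K := K)
    (D := D) (by positivity) (by positivity) (by
      rw [hk1', show 2000 = 321 + 1679 by rfl, pow_add, ← mul_assoc, hπ, one_mul]
      push_cast
      rw [← pow_mul]
      exact Q _ _ (by omega)) π0.le (fun u hu => by
      refine (psi_crude hp0 hp l0.le hml hB c160 a0.le hu).trans (ex_mono ?_)
      have b1 := R 4 126 286 (by norm_num) (by omega)
      have b2 := R 12 160 286 (by norm_num) (by omega)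
      have b3 := R 20 285 286 (by norm_num) (by omega)
      have b4 : l * A ^ 126 = m * A := by rw [← hl]; ring
      have b5 : l * A ^ 285 = m * A ^ 160 := by rw [← hl]; ring
      have b6 : (1 : ℝ) ≤ A ^ 160 := one_le_pow₀ a1
      push_cast
      nlinarith) (fun u hu hT => by
      refine (psi_typ hp0 hp l0.le hml (L := A ^ 42) (k := 200000 * ν) hB c160 a0.le (by omega)
        (by rw [hk1]; exact_mod_cast P 4 160 2000 (by norm_num) (by omega))
        (C := A * (A ^ 118 + 1 : ℕ)) (g := A ^ 36) (x0 := A ^ 84) (κ := κ) a0.le (by positivity)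
        (by positivity) ?_ ?_ ?_ hT hu.le (fun v => H1 u v hT hu) (fun v => ?_)).trans (ex_mono ?_)
      · have b1 := P 4 119 120 (by norm_num) (by omega)
        have b2 := Q 1 119 (by omega)
        push_cast
        calc _ = 2 * (A : ℝ) ^ 119 + 2 * A ^ 1 := by ring
          _ ≤ A ^ 120 := by linarith
          _ = _ := by ring
      · push_cast
        rw [← hl, mul_assoc l, ← pow_add]
        exact R 48 42 _ (by norm_num) (by omega)
      · have b1 := R 96 124 125 (by norm_num) (by omega)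
        have b2 : 96 * l * A ^ 42 * 1 ≤ 96 * l * A ^ 42 * (2 * A ^ 82 * κ) := by gcongr
        have κ0 : 0 ≤ κ := by
          by_contra hn
          nlinarith
        have b3 := mul_le_mul_of_nonneg_right b1 κ0
        rw [hl] at b3
        have b4 : 96 * l * A ^ 42 * (2 * A ^ 82 * κ) = 2 * (96 * l * A ^ 124 * κ) := by ring
        push_cast
        linarith
      · refine order hp0 hp hT (by omega) hL ?_ c42 ?_ H2 ?_ v
        · have := Q 1 42 (by omega)
          exact_mod_cast (by push_cast; linarith : ((4 * (200000 * ν) : ℕ) : ℝ) ≤ (A ^ 42 : ℕ))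
        · have b1 := P 24 36 42 (by norm_num) (by omega)
          have b2 := Q 1 36 (by omega)
          push_cast
          linarith
        · rw [hu, add_mul, ← pow_add, show 118 + 42 = 160 by rfl]
          omega
      · have b1 := R 108 126 127 (by norm_num) (by omega)
        have b2 : l * A ^ 126 = m * A := by rw [← hl]; ring
        have b3 : l * A ^ 42 ≤ l * A ^ 126 := mul_le_mul_of_nonneg_left (Q _ _ (by omega)) l0.le
        have b4 : (A : ℝ) ≤ m * A := le_mul_of_one_le_left a0.le (by linarith)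
        have b5 : 12 * l * A ^ 42 * (A ^ 84 + 1) = 12 * (l * A ^ 126) + 12 * (l * A ^ 42) := by ring
        push_cast
        linarith)
  refine ⟨T, le_trans ?_ hT⟩
  have key : ∀ x : ℝ, K / 2 ≤ x → Real.exp (-x) ≤ (n : ℝ)⁻¹ / 2 := fun x hx => by
    refine (Real.exp_le_exp.2 (neg_le_neg hx)).trans (exp_neg_le n0 (by positivity) ?_)
    have b1 := P 16 320 321 (by norm_num) (by omega)
    nlinarith [mul_le_mul_of_nonneg_left (b1.trans K1) (show 0 ≤ K by linarith)]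
  have e1 := key (K - 3 * π * n) (by
    have b1 : π * n * A = K := by
      rw [← hK]; linear_combination K * hπ
    nlinarith [mul_pos π0 n0])
  have e2 := key (l * D - (l * A ^ 127 / 4 * (n / (A ^ 160 : ℕ)) + l * A ^ 286 * (K + 1))) (by
    have b1 : l * A ^ 127 / 4 * (n / (A ^ 160 : ℕ)) = l * A ^ 287 * K / 4 := by
      rw [← hK]; push_cast; field_simp
    have b2 : A ^ 287 * K ≤ D := by
      refine le_of_mul_le_mul_left ?_ (pow_pos a0 33)
      rw [← mul_assoc, ← pow_add, mul_comm, hK]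
      exact hD
    have b3 := mul_le_mul_of_nonneg_left b2 l0.le
    have b4 := mul_le_mul_of_nonneg_right (R 8 286 287 (by norm_num) (by omega))
      (show 0 ≤ K by linarith)
    have b5 : l * A ^ 286 * 1 ≤ l * A ^ 286 * K := by gcongr
    have b6 : l * A ^ 125 ≤ l * A ^ 287 := mul_le_mul_of_nonneg_left (Q _ _ (by omega)) l0.le
    have b7 : 1 * K ≤ l * A ^ 287 * K := by gcongr; linarith
    rw [b1]
    nlinarith)
  rw [neg_sub] at e1 e2
  linarith

end Pool.Agent.Lib.MP_78205c_lc
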