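import Pool.Agent.Lib.MP_78205c_lc.Defs

/-!
Alignments and the insertion-deletion distance.
-/

namespace Pool.Agent.Lib.MP_78205c_lc

/-- Alignments with a given number of insertions and deletions. -/
inductive Al : ℕ → List Bool → List Bool → Prop
  | nil : Al 0 [] []
  | keep {e x y} (c : Bool) : Al e x y → Al e (c :: x) (c :: y)
  | del {e x y} (c : Bool) : Al e x y → Al (e + 1) (c :: x) y
  | ins {e x y} (c : Bool) : Al e x y → Al (e + 1) x (c :: y)

theorem Al.self (x : List Bool) : Al 0 x x := by
  induction x with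
  | nil => exact .nil
  | cons c x ih => exact ih.keep c

theorem Al.append {e e' x y x' y'} (h : Al e x y) (h' : Al e' x' y') :
    Al (e + e') (x ++ x') (y ++ y') := by
  induction h with
  | nil => simpa using h'
  | keep c _ ih => exact ih.keep c
  | del c _ ih => rw [Nat.add_right_comm]; exact ih.del c
  | ins c _ ih => rw [Nat.add_right_comm]; exact ih.ins c

theorem Al.crude (x y : List Bool) : Al (x.length + y.length) x y := by
  induction x with
  | nil =>
    induction y with
    | nil => exact .nil
    | cons c y ih => simpa using ih.ins c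
  | cons c x ih => rw [List.length_cons, Nat.add_right_comm]; exact ih.del c

theorem Al.length_le {e x y} (h : Al e x y) : x.length ≤ y.length + e ∧ y.length ≤ x.length + e := by
  induction h <;> simp only [List.length_cons, List.length_nil] <;> omega

theorem Al.eq_of_zero {e x y} (h : Al e x y) : e = 0 → x = y := by
  induction h with
  | nil => exact fun _ => rfl
  | keep c _ ih => exact fun h => by rw [ih h]
  | del => omega
  | ins => omega

theorem Edits.cons {k x y} (h : Edits k x y) (c : Bool) : Edits k (c :: x) (c :: y) := by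
  induction h with
  | refl x => exact .refl _
  | step hs _ ih =>
    refine .step ?_ ih
    cases hs with
    | ins a b d => exact .ins (c :: a) b d
    | del a b d => exact .del (c :: a) b d
    | sub a b d e => exact .sub (c :: a) b d e

theorem Al.edits {e x y} (h : Al e x y) : Edits e x y := by
  induction h with
  | nil => exact .refl _
  | keep c _ ih => exact ih.cons c
  | del c _ ih => exact .step (.del [] _ c) ih
  | ins c _ ih => exact .step (.ins [] _ c) (ih.cons c)

/-- The insertion-deletion distance. -/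
noncomputable def lev (x y : List Bool) : ℕ := sInf {e | Al e x y}

theorem al_lev (x y : List Bool) : Al (lev x y) x y :=
  Nat.sInf_mem (s := {e | Al e x y}) ⟨_, Al.crude x y⟩

theorem Al.lev_le {e x y} (h : Al e x y) : lev x y ≤ e := Nat.sInf_le h

theorem ED_le_lev (x y : List Bool) : ED x y ≤ lev x y := Nat.sInf_le (al_lev x y).edits

theorem lev_self (x : List Bool) : lev x x = 0 := Nat.le_zero.1 (Al.self x).lev_le

theorem lev_le (x y : List Bool) : lev x y ≤ x.length + y.length := (Al.crude x y).lev_le

theorem lev_append (x y x' y' : List Bool) : lev (x ++ x') (y ++ y') ≤ lev x y + lev x' y' :=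
  ((al_lev x y).append (al_lev x' y')).lev_le

theorem lev_keep (c : Bool) (x y : List Bool) : lev (c :: x) (c :: y) ≤ lev x y :=
  ((al_lev x y).keep c).lev_le

theorem lev_del (c : Bool) (x y : List Bool) : lev (c :: x) y ≤ lev x y + 1 :=
  ((al_lev x y).del c).lev_le

theorem lev_ins (c : Bool) (x y : List Bool) : lev x (c :: y) ≤ lev x y + 1 :=
  ((al_lev x y).ins c).lev_le

theorem length_le_lev (x y : List Bool) :
    x.length ≤ y.length + lev x y ∧ y.length ≤ x.length + lev x y := (al_lev x y).length_le

theorem lev_pos {x y : List Bool} (h : y ≠ x) : 1 ≤ lev x y :=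
  Nat.pos_of_ne_zero fun h0 => h ((al_lev x y).eq_of_zero h0).symm

/-- A long window of `y` shares a block of length `k` with `x`. -/
theorem Al.common {k e x y} (h : Al e x y) :
    (∀ j w, j ≤ k → w <+: y → (e + 1) * k + e ≤ w.length + j →
      (∃ r, r.length + j = k ∧ r <+: w ∧ r <+: x) ∨ ∃ r, r.length = k ∧ r <:+: w ∧ r <:+: x) ∧
    ∀ w, w <:+: y → (e + 1) * k + e ≤ w.length → ∃ r, r.length = k ∧ r <:+: w ∧ r <:+: x := by
  have aux : ∀ {e : ℕ} {x y : List Bool}, (∀ j (w : List Bool), j ≤ k → w <+: y → (e + 1) * k + e ≤ w.length + j →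
      (∃ r : List Bool, r.length + j = k ∧ r <+: w ∧ r <+: x) ∨
        ∃ r : List Bool, r.length = k ∧ r <:+: w ∧ r <:+: x) →
      ∀ w : List Bool, w <+: y → (e + 1) * k + e ≤ w.length → ∃ r : List Bool, r.length = k ∧ r <:+: w ∧ r <:+: x := by
    intro e x y H w hw hl
    rcases H 0 w (Nat.zero_le _) hw hl with ⟨r, h1, h2, h3⟩ | h
    · exact ⟨r, h1, h2.isInfix, h3.isInfix⟩
    · exact h
  induction h with
  | nil =>
    refine ⟨fun j w hj hw hl => Or.inl ⟨[], ?_, List.nil_prefix, List.nil_prefix⟩,
      fun w hw hl => ⟨[], ?_, List.nil_infix, List.nil_infix⟩⟩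
    · rw [List.prefix_nil.1 hw] at hl; simp at hl ⊢; omega
    · rw [List.infix_nil.1 hw] at hl; simp at hl ⊢; omega
  | @keep e x y c _ ih =>
    have h1 : ∀ j w, j ≤ k → w <+: c :: y → (e + 1) * k + e ≤ w.length + j →
        (∃ r, r.length + j = k ∧ r <+: w ∧ r <+: c :: x) ∨
          ∃ r, r.length = k ∧ r <:+: w ∧ r <:+: c :: x := by
      intro j w hj hw hl
      rcases hj.eq_or_lt with rfl | hj
      · exact Or.inl ⟨[], by simp, List.nil_prefix, List.nil_prefix⟩
      rcases List.prefix_cons_iff.1 hw with rfl | ⟨w', rfl, hw'⟩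
      · simp only [List.length_nil, add_mul] at hl; omega
      rcases ih.1 (j + 1) w' hj hw' (by simp only [List.length_cons] at hl; omega) with
        ⟨r, h1, h2, h3⟩ | ⟨r, h1, h2, h3⟩
      · exact Or.inl ⟨c :: r, by simp; omega, by simpa using h2, by simpa using h3⟩
      · exact Or.inr ⟨r, h1, List.infix_cons h2, List.infix_cons h3⟩
    refine ⟨h1, fun w hw hl => ?_⟩
    rcases List.infix_cons_iff.1 hw with hw | hw
    · exact aux h1 w hw hl
    · obtain ⟨r, h1, h2, h3⟩ := ih.2 w hw hl
      exact ⟨r, h1, h2, List.infix_cons h3⟩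
  | @del e x y c _ ih =>
    have h1 : ∀ w, w <:+: y → (e + 1) * k + e ≤ w.length →
        ∃ r, r.length = k ∧ r <:+: w ∧ r <:+: c :: x := fun w hw hl => by
      obtain ⟨r, h1, h2, h3⟩ := ih.2 w hw hl
      exact ⟨r, h1, h2, List.infix_cons h3⟩
    exact ⟨fun j w hj hw hl => Or.inr (h1 w hw.isInfix (by simp only [add_mul] at hl ⊢; omega)),
      fun w hw hl => h1 w hw (by simp only [add_mul] at hl ⊢; omega)⟩
  | @ins e x y c _ ih =>
    have h1 : ∀ w, w <:+: c :: y → (e + 1) * k + e + 1 ≤ w.length →
        ∃ r, r.length = k ∧ r <:+: w ∧ r <:+: x := fun w hw hl => by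
      rcases List.infix_cons_iff.1 hw with hw | hw
      · rcases List.prefix_cons_iff.1 hw with rfl | ⟨w', rfl, hw'⟩
        · simp at hl
        · obtain ⟨r, h1, h2, h3⟩ := ih.2 w' hw'.isInfix (by simpa using hl)
          exact ⟨r, h1, List.infix_cons h2, h3⟩
      · exact ih.2 w hw (by omega)
    exact ⟨fun j w hj hw hl => Or.inr (h1 w hw.isInfix (by simp only [add_mul] at hl ⊢; omega)),
      fun w hw hl => h1 w hw (by simp only [add_mul] at hl ⊢; omega)⟩

end Pool.Agent.Lib.MP_78205c_lc
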