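import Pool.Agent.Lib.MP_78205c_lc.Typ

/-!
Sums over all strings of a given length, the probability of atypical strings, and the
maximum likelihood estimator.
-/

namespace Pool.Agent.Lib.MP_78205c_lc

open ENNReal Finset

/-- Sum over all strings of length `n`. -/
noncomputable def tot (n : ℕ) (F : List Bool → ℝ≥0∞) : ℝ≥0∞ := ∑ s : Fin n → Bool, F (List.ofFn s)

theorem tot_zero (F : List Bool → ℝ≥0∞) : tot 0 F = F [] := by simp [tot]

theorem tot_succ (n : ℕ) (F : List Bool → ℝ≥0∞) :
    tot (n + 1) F = tot n (fun s => F (false :: s) + F (true :: s)) := by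
  unfold tot
  rw [← (Fin.consEquiv (fun _ => Bool)).sum_comp, Fintype.sum_prod_type, Fintype.sum_bool,
    Finset.sum_add_distrib, add_comm]
  simp [Fin.consEquiv, List.ofFn_succ]

theorem tot_mono {n : ℕ} {F G : List Bool → ℝ≥0∞} (h : ∀ s, s.length = n → F s ≤ G s) :
    tot n F ≤ tot n G := Finset.sum_le_sum fun s _ => h _ (by simp)

theorem tot_add (n : ℕ) (F G : List Bool → ℝ≥0∞) :
    tot n (fun s => F s + G s) = tot n F + tot n G := Finset.sum_add_distrib

theorem tot_mul (n : ℕ) (c : ℝ≥0∞) (F : List Bool → ℝ≥0∞) :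
    tot n (fun s => c * F s) = c * tot n F := (Finset.mul_sum _ _ _).symm

theorem tot_const (n : ℕ) (c : ℝ≥0∞) : tot n (fun _ => c) = c * 2 ^ n := by
  simp [tot, mul_comm]

theorem tot_sum (n : ℕ) (t : Finset ℕ) (F : ℕ → List Bool → ℝ≥0∞) :
    tot n (fun s => ∑ d ∈ t, F d s) = ∑ d ∈ t, tot n (F d) := Finset.sum_comm

theorem tot_append (n m : ℕ) (F : List Bool → ℝ≥0∞) :
    tot (n + m) F = tot n (fun u => tot m (fun v => F (u ++ v))) := by
  induction n generalizing F with
  | zero => simp [tot_zero]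
  | succ n ih => rw [Nat.add_right_comm, tot_succ, tot_succ, ih]; simp only [tot_add, List.cons_append]

theorem tot_le_tsum (n : ℕ) (F : List Bool → ℝ≥0∞) : tot n F ≤ ∑' z, F z := by
  rw [tot, ← tsum_fintype (L := .unconditional _)]
  exact ENNReal.tsum_comp_le_tsum_of_injective List.ofFn_injective F

open Classical in
/-- Indicator. -/
noncomputable def ind (P : Prop) : ℝ≥0∞ := if P then 1 else 0

theorem ind_le_one (P : Prop) : ind P ≤ 1 := by unfold ind; split_ifs <;> simp

theorem ind_pos {P : Prop} (h : P) : ind P = 1 := if_pos h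

theorem ind_neg {P : Prop} (h : ¬ P) : ind P = 0 := if_neg h

theorem ind_le {P : Prop} {x : ℝ≥0∞} (h : P → 1 ≤ x) : ind P ≤ x := by
  by_cases hP : P
  · rw [ind_pos hP]; exact h hP
  · rw [ind_neg hP]; exact zero_le

/-- The first window is repeated at distance `d + 1`. -/
def Rep (d k : ℕ) (X : List Bool) : Prop :=
  d + 1 + k ≤ X.length ∧ X.take k = (X.drop (d + 1)).take k

theorem tot_rep (d k : ℕ) : ∀ n, tot n (fun s => ind (Rep d k s)) * 2 ^ k ≤ 2 ^ n := by
  induction k with
  | zero =>
    intro n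
    simpa [tot_const] using tot_mono (n := n) (G := fun _ => 1) fun s _ => ind_le_one (Rep d 0 s)
  | succ k ih =>
    intro n
    cases n with
    | zero => rw [tot_zero, ind_neg (by simp [Rep])]; simp
    | succ n =>
      rw [tot_succ, pow_succ, pow_succ, ← mul_assoc]
      refine mul_le_mul_left (le_trans (mul_le_mul_left (tot_mono fun s _ => ?_) _) (ih n)) _
      have key : ∀ c, Rep d (k + 1) (c :: s) → Rep d k s ∧ (s.drop d).head? = some c := by
        rintro c ⟨h1, h2⟩
        rw [List.drop_succ_cons, List.take_succ_cons] at h2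
        have h3 : s.drop (d + 1) = (s.drop d).tail := by simp
        rw [Rep, h3]
        cases hd : s.drop d with
        | nil => simp [hd] at h2
        | cons e t =>
          simp only [hd, List.take_succ_cons, List.cons.injEq] at h2
          exact ⟨⟨by simp at h1; omega, h2.2⟩, by simp [h2.1]⟩
      by_cases a : Rep d (k + 1) (false :: s)
      · rw [ind_pos a, ind_pos (key _ a).1, ind_neg, add_zero]
        intro b
        simpa using (key _ a).2.symm.trans (key _ b).2
      · rw [ind_neg a, zero_add]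
        exact ind_le fun b => (ind_pos (key _ b).1).ge

theorem tot_atyp (k n : ℕ) : tot n (fun s => ind (¬ Typ k s)) * 2 ^ k ≤ n ^ 2 * 2 ^ n := by
  induction n with
  | zero =>
    rw [tot_zero, ind_neg]
    · simp
    · exact not_not.2 fun X Y a b _ _ _ => by rw [List.suffix_nil.1 a, List.suffix_nil.1 b]
  | succ n ih =>
    have key : ∀ c (s : List Bool), s.length = n → ind (¬ Typ k (c :: s)) ≤
        ind (¬ Typ k s) + ∑ d ∈ range (n + 1), ind (Rep d k (c :: s)) := by
      intro c s hs
      refine ind_le fun h => ?_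
      by_cases h' : Typ k s
      swap
      · rw [ind_pos h']; exact le_self_add
      have aux : ∀ Y, Y <:+ s → k ≤ Y.length → (c :: s).take k = Y.take k →
          1 ≤ ∑ d ∈ range (n + 1), ind (Rep d k (c :: s)) := by
        rintro Y ⟨t, rfl⟩ l e
        refine le_trans (ind_pos ?_).ge (Finset.single_le_sum (f := fun d => ind (Rep d k (c :: (t ++ Y))))
          (fun _ _ => zero_le) (a := t.length) (by simp at hs ⊢; omega))
        exact ⟨by simp; omega, by simpa using e⟩
      refine le_add_left ?_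
      by_contra hn
      refine h fun X Y a b lX lY e => ?_
      rcases List.suffix_cons_iff.1 a with rfl | a <;> rcases List.suffix_cons_iff.1 b with rfl | b
      · rfl
      · exact absurd (aux Y b lY e) hn
      · exact absurd (aux X a lX e.symm) hn
      · exact h' X Y a b lX lY e
    have h1 : tot (n + 1) (fun s => ind (¬ Typ k s)) ≤ 2 * tot n (fun s => ind (¬ Typ k s)) +
        ∑ d ∈ range (n + 1), tot (n + 1) (fun s => ind (Rep d k s)) := by
      rw [← tot_sum, tot_succ, tot_succ, ← tot_mul, ← tot_add]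
      refine tot_mono fun s hs => (add_le_add (key _ s hs) (key _ s hs)).trans (le_of_eq (by ring))
    calc _ ≤ 2 * (tot n (fun s => ind (¬ Typ k s)) * 2 ^ k) +
          ∑ d ∈ range (n + 1), tot (n + 1) (fun s => ind (Rep d k s)) * 2 ^ k := by
          rw [← Finset.sum_mul, ← mul_assoc, ← add_mul]
          gcongr
      _ ≤ 2 * (n ^ 2 * 2 ^ n) + ∑ d ∈ range (n + 1), 2 ^ (n + 1) := by
          gcongr
          exact tot_rep _ _ _
      _ = (n ^ 2 + (n + 1)) * 2 ^ (n + 1) := by simp; ring
      _ ≤ _ := by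
          gcongr
          push_cast
          rw [show ((n : ℝ≥0∞) + 1) ^ 2 = n ^ 2 + (n + 1) + n by ring]
          exact le_self_add

theorem tot_atyp_le {k n : ℕ} {π : ℝ} (h : (n : ℝ) ^ 2 ≤ π * 2 ^ k) :
    tot n (fun s => ind (¬ Typ k s)) ≤ ENNReal.ofReal π * 2 ^ n := by
  refine (ENNReal.mul_le_mul_iff_left (c := 2 ^ k) (by simp) (by simp)).1 ((tot_atyp k n).trans ?_)
  rw [mul_right_comm]
  gcongr
  have := ENNReal.ofReal_le_ofReal h
  rwa [ENNReal.ofReal_mul' (by positivity), ENNReal.ofReal_pow (by positivity),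
    ENNReal.ofReal_pow (by positivity), ENNReal.ofReal_natCast, ENNReal.ofReal_ofNat] at this

open Classical in
/-- The number of atypical blocks among the first `N` blocks of length `B`. -/
noncomputable def nb (k B : ℕ) : ℕ → List Bool → ℕ
  | 0, _ => 0
  | N + 1, s => (if Typ k (s.take B) then 0 else 1) + nb k B N (s.drop B)

open Classical in
theorem tot_nb {k B : ℕ} {π : ℝ} (h : (B : ℝ) ^ 2 ≤ π * 2 ^ k) (R N : ℕ) :
    tot (N * B + R) (fun s => ex (nb k B N s)) ≤ ex (3 * π * N) * 2 ^ (N * B + R) := by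
  have hπ : 0 ≤ π := by
    by_contra hn
    nlinarith [sq_nonneg (B : ℝ), pow_pos (show (0 : ℝ) < 2 by norm_num) k]
  induction N with
  | zero => simp [nb, tot_const]
  | succ N ih =>
    rw [show (N + 1) * B + R = B + (N * B + R) by ring, tot_append]
    calc _ ≤ tot B (fun u => ex (3 * π * N) * 2 ^ (N * B + R) * (1 + ex 1 * ind (¬ Typ k u))) := by
          refine tot_mono fun u hu => ?_
          have e : ∀ v, ex (nb k B (N + 1) (u ++ v)) =
              ex ((if Typ k u then 0 else 1 : ℕ)) * ex (nb k B N v) := fun v => by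
            rw [nb, List.drop_left' hu, List.take_left' hu, Nat.cast_add, ex_add]
          simp only [e]
          rw [tot_mul, mul_comm]
          refine mul_le_mul' ih ?_
          split_ifs with a
          · simp
          · rw [ind_pos a]; simp
      _ ≤ ex (3 * π * N) * 2 ^ (N * B + R) * (1 * 2 ^ B + ex 1 * (ENNReal.ofReal π * 2 ^ B)) := by
          rw [tot_mul, tot_add, tot_mul, tot_const]
          gcongr
          exact tot_atyp_le h
      _ = ex (3 * π * N) * ENNReal.ofReal (Real.exp 1 * π + 1) * 2 ^ (B + (N * B + R)) := by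
          rw [ENNReal.ofReal_add (by positivity) zero_le_one, ENNReal.ofReal_mul (by positivity),
            ENNReal.ofReal_one, ex, ex]
          ring
      _ ≤ ex (3 * π * N) * ex (3 * π) * 2 ^ (B + (N * B + R)) := by
          gcongr
          refine ENNReal.ofReal_le_ofReal (le_trans ?_ (Real.add_one_le_exp _))
          nlinarith [Real.exp_one_lt_d9]
      _ = _ := by rw [← ex_add]; congr 2; push_cast; ring

theorem tot_nb_tail {k B : ℕ} {π : ℝ} (h : (B : ℝ) ^ 2 ≤ π * 2 ^ k) (R N : ℕ) (K : ℝ) :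
    tot (N * B + R) (fun s => ind (¬ (nb k B N s : ℝ) ≤ K)) ≤
      ex (3 * π * N - K) * 2 ^ (N * B + R) := by
  rw [sub_eq_neg_add, ex_add, mul_assoc]
  refine le_trans ?_ (mul_le_mul_right (tot_nb h R N) _)
  rw [← tot_mul]
  refine tot_mono fun s _ => ind_le fun a => ?_
  rw [← ex_add]
  exact one_le_ex (by linarith [not_le.1 a])

theorem tsum_pi (g : List Bool → ℝ≥0∞) (m : ℕ) :
    ∑' ys : Fin m → List Bool, ∏ i, g (ys i) = (∑' y, g y) ^ m := by
  induction m with
  | zero => simp
  | succ m ih =>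
    rw [← (Fin.consEquiv (fun _ => List Bool)).tsum_eq, ENNReal.tsum_prod', pow_succ', ← ih,
      ← ENNReal.tsum_mul_right]
    refine tsum_congr fun y => ?_
    rw [← ENNReal.tsum_mul_left]
    refine tsum_congr fun ys => ?_
    simp [Fin.consEquiv, Fin.prod_univ_succ]

variable {p : ℝ}

theorem trace_eq (hp0 : 0 ≤ p) (hp1 : p ≤ 1) (x y : List Bool) :
    0 ≤ trace p x y ∧ ENNReal.ofReal (trace p x y) = ch p 0 x y := by
  have q0 : 0 ≤ 1 - p := by linarith
  induction x generalizing y with
  | nil => cases y <;> simp [trace, ch_nil]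
  | cons b x ih =>
    induction y with
    | nil =>
      rw [trace, ch_cons_nil, ENNReal.ofReal_mul (by positivity), (ih _).2]
      exact ⟨mul_nonneg (by positivity) (ih _).1, rfl⟩
    | cons c y ihy =>
      have a1 := (ih (c :: y)).1
      have a2 := (ih y).1
      have a3 := ihy.1
      have a4 : 0 ≤ if c = b then (1 - p) * trace p x y else 0 := by split_ifs <;> positivity
      rw [trace, ch_cons_cons, ENNReal.ofReal_add (by positivity) (by positivity),
        ENNReal.ofReal_add (by positivity) a4, ENNReal.ofReal_mul (by positivity),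
        ENNReal.ofReal_mul (by positivity), (ih _).2, ihy.2, show p / 2 * (1 / 2) = p / 4 by ring]
      refine ⟨by positivity, ?_⟩
      split_ifs
      · rw [ENNReal.ofReal_mul q0, (ih _).2]
      · simp

theorem tsum_ch (hp0 : 0 ≤ p) (hp1 : p ≤ 1) (x : List Bool) : ∑' y, ch p 0 x y = 1 := by
  simpa [E] using E_one hp0 hp1 x

/-- The channel is a probability distribution. -/
theorem hasSum_trace (hp0 : 0 ≤ p) (hp1 : p ≤ 1) (x : List Bool) : HasSum (trace p x) 1 := by
  have h := ENNReal.hasSum_toReal (f := ch p 0 x) (by rw [tsum_ch hp0 hp1]; simp)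
  rw [← ENNReal.tsum_toReal_eq (fun y => by rw [← (trace_eq hp0 hp1 x y).2]; simp),
    tsum_ch hp0 hp1, ENNReal.toReal_one] at h
  convert h using 2 with y
  rw [← (trace_eq hp0 hp1 x y).2, ENNReal.toReal_ofReal (trace_eq hp0 hp1 x y).1]

theorem sq_prod {m : ℕ} (f : Fin m → ℝ≥0∞) : sq (∏ i, f i) = ∏ i, sq (f i) :=
  (ENNReal.prod_rpow_of_nonneg (by norm_num)).symm

theorem ml (hp0 : 0 ≤ p) (hp1 : p ≤ 1) (n m : ℕ) (D : ℝ) (Good : List Bool → Prop) {ε1 ε2 : ℝ}
    (e1 : 0 ≤ ε1) (e2 : 0 ≤ ε2)
    (h1 : tot n (fun s => ind (¬ Good s)) ≤ ENNReal.ofReal ε1 * 2 ^ n)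
    (h2 : ∀ s : List Bool, s.length = n → Good s →
      tot n (fun z => ind (D < lev s z) * bc p 0 s z ^ m) ≤ ENNReal.ofReal ε2) :
    ∃ A, 1 - (ε1 + ε2) ≤ success p n m A D := by
  have ex_max := fun ys : Fin m → List Bool =>
    Finite.exists_max (fun z : Fin n → Bool => ∏ i, ch p 0 (List.ofFn z) (ys i))
  choose A hA using ex_max
  refine ⟨fun ys => List.ofFn (A ys), ?_⟩
  set S : List Bool → ℝ≥0∞ := fun s => ∑' ys : Fin m → List Bool,
    (∏ i, ch p 0 s (ys i)) * ind ((ED s (List.ofFn (A ys)) : ℝ) ≤ D) with hS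
  set F : List Bool → ℝ≥0∞ := fun s => ∑' ys : Fin m → List Bool,
    (∏ i, ch p 0 s (ys i)) * ind (¬ (ED s (List.ofFn (A ys)) : ℝ) ≤ D) with hF
  have a1 : ∀ s, S s + F s = 1 := fun s => by
    rw [hS, hF, ← ENNReal.tsum_add, ← one_pow m, ← tsum_ch hp0 hp1 s, ← tsum_pi]
    refine tsum_congr fun ys => ?_
    by_cases h : (ED s (List.ofFn (A ys)) : ℝ) ≤ D
    · rw [ind_pos h, ind_neg (not_not.2 h)]; simp
    · rw [ind_neg h, ind_pos h]; simp
  have a2 : ∀ s : Fin n → Bool, F (List.ofFn s) ≤
      tot n (fun z => ind (D < lev (List.ofFn s) z) * bc p 0 (List.ofFn s) z ^ m) := fun s => by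
    simp only [tot, bc, ← tsum_pi, ← ENNReal.tsum_mul_left]
    rw [← Summable.tsum_finsetSum (fun _ _ => ENNReal.summable)]
    refine ENNReal.tsum_le_tsum fun ys => ?_
    refine le_trans ?_ (Finset.single_le_sum (fun _ _ => zero_le) (Finset.mem_univ (A ys)))
    rw [mul_comm]
    refine mul_le_mul' (ind_le fun h => (ind_pos ?_).ge) ?_
    · exact (not_le.1 h).trans_le (by exact_mod_cast ED_le_lev _ _)
    · rw [← sq_prod, Finset.prod_mul_distrib]
      conv_lhs => rw [← sq_self_mul (∏ i, ch p 0 (List.ofFn s) (ys i))]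
      exact sq_mono (mul_le_mul_right (hA ys s) _)
  have a3 : tot n F ≤ ENNReal.ofReal ((ε1 + ε2) * 2 ^ n) := by
    calc _ ≤ tot n (fun s => ind (¬ Good s) + ENNReal.ofReal ε2) := by
          refine Finset.sum_le_sum fun s _ => ?_
          by_cases h : Good (List.ofFn s)
          · exact le_add_left ((a2 s).trans (h2 _ (by simp) h))
          · exact le_add_right (le_of_le_of_eq le_add_self ((a1 _).trans (ind_pos h).symm))
      _ ≤ ENNReal.ofReal ε1 * 2 ^ n + ENNReal.ofReal ε2 * 2 ^ n := by
          rw [tot_add, tot_const]; gcongr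
      _ = _ := by
          rw [ENNReal.ofReal_mul (by positivity), ENNReal.ofReal_add e1 e2,
            ENNReal.ofReal_pow (by positivity), ENNReal.ofReal_ofNat, add_mul]
  have f1 : ∀ s, F s ≠ ⊤ := fun s => ne_top_of_le_ne_top one_ne_top (a1 s ▸ le_add_self)
  have f2 : ∀ s, S s ≠ ⊤ := fun s => ne_top_of_le_ne_top one_ne_top (a1 s ▸ le_self_add)
  have a4 : ∀ s : List Bool, ∑' ys : Fin m → List Bool, (∏ i, trace p s (ys i)) *
      (if (ED s (List.ofFn (A ys)) : ℝ) ≤ D then 1 else 0) = 1 - (F s).toReal := fun s => by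
    have b := congrArg ENNReal.toReal (a1 s)
    rw [ENNReal.toReal_add (f2 s) (f1 s), ENNReal.toReal_one] at b
    rw [← eq_sub_of_add_eq b, hS]
    simp only [← (trace_eq hp0 hp1 s _).2]
    rw [ENNReal.tsum_toReal_eq fun ys => ENNReal.mul_ne_top (ENNReal.prod_ne_top fun _ _ => by simp)
      (ne_top_of_le_ne_top one_ne_top (ind_le_one _))]
    refine tsum_congr fun ys => ?_
    rw [ENNReal.toReal_mul, ENNReal.toReal_prod]
    simp only [ENNReal.toReal_ofReal (trace_eq hp0 hp1 s _).1, ind]
    split_ifs <;> simp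
  have a5 := ENNReal.toReal_le_of_le_ofReal (by positivity) a3
  rw [tot, ENNReal.toReal_sum fun _ _ => f1 _] at a5
  simp only [success, a4, Finset.sum_sub_distrib, Finset.sum_const, Finset.card_univ,
    Fintype.card_pi, Fintype.card_bool, Finset.prod_const, Fintype.card_fin, nsmul_eq_mul, mul_one]
  push_cast
  rw [one_div, ← div_eq_inv_mul, le_div_iff₀ (by positivity)]
  linarith

end Pool.Agent.Lib.MP_78205c_lc
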