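import Pool.Agent.Lib.MP_78205c_lc.Large
import Pool.Agent.Lib.MP_78205c_lc.FT1
import Pool.Agent.Lib.MP_78205c_lc.FT2

/-!
The two regimes.
-/

namespace Pool.Agent.Lib.MP_78205c_lc

open ENNReal Finset

variable {p D : ℝ} {ν n m : ℕ}

theorem half_le_pow (N : ℕ) (hN : 0 < N) : (1 / 2 : ℝ) ≤ (1 - 1 / (2 * N)) ^ N := by
  have h : (1 : ℝ) ≤ N := by exact_mod_cast hN
  have h1 : (1 : ℝ) / (2 * N) ≤ 1 := by rw [div_le_one (by positivity)]; linarith
  have := one_add_mul_le_pow (a := -(1 / (2 * N) : ℝ)) (by linarith) N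
  rw [← sub_eq_add_neg] at this
  refine le_trans (le_of_eq ?_) this
  field_simp
  ring

theorem ft1' (hp0 : 0 ≤ p) (hp : p ≤ 1 / 4000000) (hν : 40 ≤ ν) {k : ℕ} (hk : k ≤ 200000 * ν)
    {s D η : ℝ} (hs : 0 ≤ s) (hD : 1 + 6 * s * Real.exp D ≤ Real.exp D) (hη0 : 0 ≤ η)
    (hη : η * (2 ^ ν) ^ 2 ≤ 1) (u v : List Bool) :
    bc p s u v ≤ ex ((D - η * fc k u v) / 2 + (η * (2 ^ ν) ^ 2) ^ 2 * (u.length + v.length)) := by
  have h1 := nu_le hν
  have h2 : (40 : ℝ) ≤ ν := by exact_mod_cast hν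
  obtain ⟨θ, h3, h4⟩ : ∃ θ : ℝ, θ = 1 - 1 / 400000 ∧ 1 / 2 ≤ θ ^ 200000 :=
    ⟨_, by norm_num, half_le_pow 200000 (by omega)⟩
  have t0 : 0 ≤ θ := by linarith
  have t1 : θ ≤ 1 := by linarith
  refine ft1 hp0 (by linarith) hs hD (K := 800000) (R := 2 ^ ν) t0 t1 (by norm_num) (by linarith)
    ?_ hη0 (mul_le_mul_of_nonneg_left (by nlinarith) hη0) hη u v
  calc (1 : ℝ) = 2 ^ ν * (1 / 2) ^ ν := by rw [← mul_pow]; simp
    _ ≤ 2 ^ ν * (θ ^ 200000) ^ ν := by gcongr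
    _ ≤ _ := by
      rw [← pow_mul]
      exact mul_le_mul_of_nonneg_left (pow_le_pow_of_le_one t0 t1 hk) (by positivity)

theorem exp_neg_nat_le (hn : 1 ≤ n) : Real.exp (-n) ≤ (n : ℝ)⁻¹ / 2 := by
  have h : (1 : ℝ) ≤ n := by exact_mod_cast hn
  have h1 := Real.add_one_le_exp ((n : ℝ) - 1)
  have h2 : Real.exp n = Real.exp (n - 1) * Real.exp 1 := by rw [← Real.exp_add]; simp
  rw [Real.exp_neg, show (n : ℝ)⁻¹ / 2 = (2 * n : ℝ)⁻¹ by field_simp]
  gcongr
  nlinarith [Real.exp_one_gt_d9]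

theorem main_small (hp0 : 0 ≤ p) (hp1 : p ≤ 1) (hν : 40 ≤ ν) (hn : 1 ≤ n) (hn' : n ≤ (2 ^ ν) ^ 641)
    (hD : 0 ≤ D) (h : ∀ s : List Bool, s.length = n → Typ (2000 * ν) s →
      tot n (fun z => ind (z ≠ s) * bc p 0 s z ^ m) ≤ ENNReal.ofReal ((n : ℝ)⁻¹ / 2)) :
    ∃ A, 1 - (n : ℝ)⁻¹ ≤ success p n m A D := by
  have h1 := nu_le hν
  have h2 : (40 : ℝ) ≤ ν := by exact_mod_cast hν
  have n0 : (0 : ℝ) < n := by exact_mod_cast hn
  have n1 : (n : ℝ) ≤ (2 ^ ν) ^ 641 := by exact_mod_cast hn'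
  obtain ⟨A, hA⟩ := small hp0 hp1 (π := (n : ℝ)⁻¹ / 2) hD (by positivity) (by positivity) (by
    rw [mul_comm 2000, pow_mul, show (n : ℝ)⁻¹ / 2 = (2 * n : ℝ)⁻¹ by field_simp,
      le_inv_mul_iff₀ (by positivity)]
    calc 2 * n * (n : ℝ) ^ 2 = 2 * n ^ 3 := by ring
      _ ≤ 2 * ((2 ^ ν) ^ 641) ^ 3 := by gcongr
      _ ≤ _ := by rw [← pow_mul]; exact pw (by linarith) (by linarith) (by omega)) h
  exact ⟨A, by linarith⟩

theorem one_le_fc {s z : List Bool} (hl : z.length = s.length) (h0 : 1 ≤ s.length) (h : z ≠ s) :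
    1 ≤ fc s.length s z := by
  by_contra hn
  obtain ⟨X, h1, h2, h3⟩ := occ_of_fc_zero (u := s) (Y := z) h0 (by omega) hl.ge
  obtain rfl := h1.eq_of_length (le_antisymm h1.length_le h2)
  rw [List.take_length, List.take_of_length_le hl.le] at h3
  exact h h3.symm

theorem regime1 (hp0 : 0 ≤ p) (hp : p ≤ 1 / 4000000) (hν : 40 ≤ ν) (hn : 1 ≤ n)
    (hD : (n : ℝ) ≤ (2 ^ ν) ^ 33 * D) :
    ∃ A, 1 - (n : ℝ)⁻¹ ≤ success p n ((2 ^ ν) ^ 1290) A D := by
  have h1 := nu_le hν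
  have h2 : (40 : ℝ) ≤ ν := by exact_mod_cast hν
  have F := fun k hk s D η => @ft1' p ν hp0 hp hν k hk s D η
  have ML := @main_large p
  have MS := @main_small p D ν n ((2 ^ ν) ^ 1290) hp0 (by linarith) hν hn
  replace ML := fun κ => @ML κ D ν ((2 ^ ν) ^ 1290) n hp0 (by linarith) hν
  obtain ⟨A, hA⟩ : ∃ A : ℕ, A = 2 ^ ν := ⟨_, rfl⟩
  have hA' : (2 : ℝ) ^ ν = A := by rw [hA]; push_cast; rfl
  rw [← hA] at ML MS ⊢
  rw [hA'] at h1 F ML hD
  have a1 : (1 : ℝ) ≤ A := by linarith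
  have a0 : (0 : ℝ) < A := by linarith
  have P : ∀ (c : ℝ) (i j : ℕ), c ≤ 1000 → i + 1 ≤ j → c * (A : ℝ) ^ i ≤ A ^ j :=
    fun c i j hc h => pw a1 (by linarith) h
  have Q : ∀ i j : ℕ, i ≤ j → (A : ℝ) ^ i ≤ A ^ j := fun i j h => pow_le_pow_right₀ a1 h
  have inv : ∀ j : ℕ, 2 ≤ j → ∃ η : ℝ, 0 < η ∧ η * A ^ j = 1 ∧ η * A ^ 2 ≤ 1 := fun j hj =>
    ⟨1 / A ^ j, by positivity, by field_simp, by
      rw [one_div, inv_mul_le_iff₀ (by positivity), mul_one]; exact Q _ _ hj⟩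
  have hs : 1 + 6 * (p / 4) * Real.exp 1 ≤ Real.exp 1 := by
    nlinarith [Real.exp_one_gt_d9, Real.exp_one_lt_d9]
  rcases le_total (A ^ 641) n with h | h
  · obtain ⟨η, e0, e1, e2⟩ := inv 82 (by omega)
    obtain ⟨η', e3, e4, e5⟩ := inv 5 (by omega)
    refine ML (η / 2) ?_ (by linarith) ?_ (fun u v _ lu lv => ?_) (fun u v _ lu lv lt => ?_) h hD
    · have := P 48 0 1290 (by norm_num) (by omega)
      exact_mod_cast (by simpa using this : (48 : ℝ) ≤ (A : ℝ) ^ 1290)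
    · have := mul_le_mul_of_nonneg_left (P 16 82 1290 (by norm_num) (by omega)) e0.le
      push_cast
      linarith
    · refine (F _ le_rfl _ _ _ (by positivity) hs e0.le e2 u v).trans (ex_mono ?_)
      have b1 : (u.length + v.length : ℝ) ≤ 3 * A ^ 160 := by
        exact_mod_cast (by omega : u.length + v.length ≤ 3 * A ^ 160)
      have b2 := mul_le_mul_of_nonneg_left b1 (sq_nonneg (η * A ^ 2))
      have b3 : (η * A ^ 2) ^ 2 * (3 * A ^ 160) = 3 * (η * A ^ 82) ^ 2 := by ring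
      rw [b3, e1] at b2
      linarith
    · refine (F _ le_rfl _ _ _ (by positivity) hs e3.le e5 u v).trans (ex_mono ?_)
      have b1 : (u.length + v.length : ℝ) ≤ 3 * A ^ 42 := by
        exact_mod_cast (by omega : u.length + v.length ≤ 3 * A ^ 42)
      have b2 := mul_le_mul_of_nonneg_left b1 (sq_nonneg (η' * A ^ 2))
      have b3 : (η' * A ^ 2) ^ 2 * (3 * A ^ 42) = 3 * (η' * A ^ 5) ^ 2 * A ^ 36 := by ring
      rw [b3, e4] at b2
      have b4 : (A : ℝ) ^ 42 ≤ 4 * fc (200000 * ν) u v := by exact_mod_cast lt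
      have b5 := mul_le_mul_of_nonneg_left b4 e3.le
      have b6 : η' * A ^ 42 = η' * A ^ 5 * A ^ 37 := by ring
      rw [b6, e4] at b5
      have b7 := P 48 36 37 (by norm_num) (by omega)
      have b8 := Q 1 36 (by omega)
      linarith
  · have n1 : (n : ℝ) ≤ A ^ 641 := by exact_mod_cast h
    have n0 : (1 : ℝ) ≤ n := by exact_mod_cast hn
    refine MS h (by by_contra hn; nlinarith [pow_pos a0 33]) fun s hs hT => ?_
    obtain ⟨η, e0, e1, e2⟩ := inv 646 (by omega)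
    refine (small_of_uniform (a := η / 4) fun z hz hne => ?_).trans
      (ENNReal.ofReal_le_ofReal ((Real.exp_le_exp.2 ?_).trans (exp_neg_nat_le hn)))
    · obtain ⟨k, k1, k2⟩ : ∃ k ≤ 200000 * ν, 1 ≤ fc k s z := by
        rcases le_total (200000 * ν) n with h' | h'
        · refine ⟨_, le_rfl, Nat.pos_of_ne_zero fun h0 => hne ?_⟩
          exact eq_of_fc_zero hT (by omega) (by omega) (by omega) h0
        · exact ⟨s.length, by omega, one_le_fc (by omega) (by omega) hne⟩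
      refine (F k k1 0 0 _ le_rfl (by simp) e0.le e2 s z).trans (ex_mono ?_)
      have b1 : (1 : ℝ) ≤ fc k s z := by exact_mod_cast k2
      have b2 := mul_le_mul_of_nonneg_left b1 e0.le
      have b3 := P 8 645 646 (by norm_num) (by omega)
      have b4 : (η * A ^ 2) ^ 2 * (n + n) ≤ (η * A ^ 2) ^ 2 * (A ^ 641 + A ^ 641) := by gcongr
      have b5 : (η * A ^ 2) ^ 2 * (A ^ 641 + A ^ 641) = η * η * (8 * A ^ 645) / 4 := by ring
      have b6 : η * η * (8 * A ^ 645) ≤ η * η * A ^ 646 := by gcongr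
      have b7 : η * η * A ^ 646 = η * (η * A ^ 646) := by ring
      rw [hs, hz]
      rw [b7, e1] at b6
      linarith
    · have b1 := P 8 641 644 (by norm_num) (by omega)
      have b2 : (A : ℝ) ^ 1290 * (η / 4) = η * A ^ 646 * A ^ 644 / 4 := by ring
      push_cast
      rw [b2, e1]
      linarith

theorem hP_of (hp0 : 0 ≤ p) (hν : 40 ≤ ν) (hp : p * (2 ^ ν) ^ 16 ≤ 1) (w : List Bool)
    (hw : w.length ≤ 2 * (200000 * ν)) :
    E p 0 w (fun y => ex (15 * (ν * Real.log 2) * lev w y)) ≤ ex 1 := by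
  have h1 := nu_le hν
  have h2 : (40 : ℝ) ≤ ν := by exact_mod_cast hν
  have a1 : (1 : ℝ) ≤ 2 ^ ν := by linarith
  have a2 : (1 : ℝ) ≤ (2 ^ ν) ^ 15 := one_le_pow₀ a1
  have a3 : (1 : ℝ) ≤ (2 ^ ν) ^ 16 := one_le_pow₀ a1
  obtain ⟨x, x0, hx⟩ : ∃ x : ℝ, 0 < x ∧ x * (400000 * ν) = 1 :=
    ⟨1 / (400000 * ν), by positivity, by field_simp⟩
  have x1 : x ≤ 1 := by nlinarith
  have a4 : p * (2 ^ ν) ^ 15 ≤ x / 2 := by
    refine le_of_mul_le_mul_right ?_ (show (0 : ℝ) < 2 ^ ν by positivity)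
    rw [mul_assoc, ← pow_succ]
    nlinarith
  have a5 : 0 ≤ p * (2 ^ ν) ^ 15 := by positivity
  have := E_lev hp0 (by nlinarith) a2 (φ := 1 + x) (by positivity) (by nlinarith) w
  have e : ∀ j : ℕ, ex (15 * (ν * Real.log 2) * j) = ENNReal.ofReal (((2 ^ ν) ^ 15) ^ j) := by
    intro j
    rw [ex, mul_comm, Real.exp_nat_mul, ← Nat.cast_ofNat, Real.exp_nat_mul, Real.exp_nat_mul,
      Real.exp_log (by norm_num)]
  simp only [e]
  refine this.trans (ENNReal.ofReal_le_ofReal ?_)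
  calc (1 + x) ^ w.length ≤ Real.exp x ^ w.length := by
        gcongr; linarith [Real.add_one_le_exp x]
    _ ≤ _ := by
      rw [← Real.exp_nat_mul]
      have : (w.length : ℝ) ≤ 2 * (200000 * ν) := by exact_mod_cast hw
      exact Real.exp_le_exp.2 (by nlinarith)

theorem ft2' (hp0 : 0 ≤ p) (hν : 40 ≤ ν) (hp : p * (2 ^ ν) ^ 16 ≤ 1) {s : ℝ} (hs : 0 ≤ s)
    (hs1 : s ≤ 1 / 4) {u : List Bool} (hT : Typ (2000 * ν) u) (hu : u.length ≤ (2 ^ ν) ^ 641)
    (v : List Bool) :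
    ∃ T : ℕ, fc (200000 * ν) u v ≤ 200000 * ν * T ∧ bc p s u v ≤ ex (1 - ν * T / 4) := by
  have h1 := nu_le hν
  have h2 : (40 : ℝ) ≤ ν := by exact_mod_cast hν
  have l2 := Real.log_two_gt_d9
  have hβ : 0.69 * ν ≤ ν * Real.log 2 := by nlinarith
  have ea : Real.exp (ν * Real.log 2) = 2 ^ ν := by
    rw [Real.exp_nat_mul, Real.exp_log (by norm_num)]
  have HP := hP_of hp0 hν hp
  have a1 : (1 : ℝ) ≤ 2 ^ ν := by linarith
  have p1 : p ≤ 1 := by nlinarith [one_le_pow₀ a1 (n := 16)]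
  have u1 : (u.length : ℝ) ≤ (2 ^ ν) ^ 641 := by exact_mod_cast hu
  generalize ν * Real.log 2 = β at *
  generalize (2 : ℝ) ^ ν = a at *
  have eb : ∀ j : ℕ, Real.exp (-(j * β) + 1) * a ^ j ≤ 3 := fun j => by
    rw [← ea, ← Real.exp_nat_mul, ← Real.exp_add]
    simpa using Real.exp_one_lt_three.le
  obtain ⟨T, t1, t2⟩ := ft2 (r0 := 46) hp0 p1 hs hs1 (β := β) (ζ := 15 * β) (by linarith)
    (by linarith) le_rfl le_rfl HP (by omega) (by omega) hT v
  refine ⟨T, t1, t2.trans (ex_mono ?_)⟩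
  have b1 := eb 651
  have b2 := eb 7
  rw [show 7 * β - (15 * β - β) * ((46 : ℕ) + 1) + 1 = -((651 : ℕ) * β) + 1 by push_cast; ring,
    show 8 * β - 15 * β + 1 = -((7 : ℕ) * β) + 1 by push_cast; ring]
  have c1 := Real.exp_pos (-((651 : ℕ) * β) + 1)
  have c2 := Real.exp_pos (-((7 : ℕ) * β) + 1)
  generalize Real.exp (-((651 : ℕ) * β) + 1) = ε1 at *
  generalize Real.exp (-((7 : ℕ) * β) + 1) = ε2 at *
  have d1 : ε1 * (3 * u.length) ≤ ε1 * a ^ 651 :=
    mul_le_mul_of_nonneg_left (le_trans (by gcongr) (pw a1 (by linarith) (by omega : 641 + 1 ≤ 651)))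
      c1.le
  have k1 : ((200000 * ν : ℕ) : ℝ) ≤ a := by push_cast; linarith
  have t3 : (fc (200000 * ν) u v : ℝ) ≤ a * T := by
    have : (fc (200000 * ν) u v : ℝ) ≤ (200000 * ν : ℕ) * T := by exact_mod_cast t1
    exact this.trans (by gcongr)
  have d2 : 4 * ε2 * (200000 * ν : ℕ) * fc (200000 * ν) u v ≤ 4 * ε2 * a * (a * T) := by gcongr
  have d3 : ε2 * (12 * a ^ 2) ≤ ε2 * a ^ 7 :=
    mul_le_mul_of_nonneg_left (pw a1 (by linarith) (by omega)) c2.le
  have T0 : (0 : ℝ) ≤ T := by positivity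
  have d4 := mul_le_mul_of_nonneg_right (d3.trans b2) T0
  have d5 : (2 + ν / 2) * T ≤ β * T := mul_le_mul_of_nonneg_right (by linarith) T0
  nlinarith

theorem regime2 (hp0 : 0 ≤ p) (hp1 : p ≤ 1 / 100) (hν : 40 ≤ ν) (hp : p * (2 ^ ν) ^ 16 ≤ 1)
    (hn : 1 ≤ n) (hD : (n : ℝ) ≤ (2 ^ ν) ^ 33 * D) (hm : 10000000 ≤ m) :
    ∃ A, 1 - (n : ℝ)⁻¹ ≤ success p n m A D := by
  have h1 := nu_le hν
  have h2 : (40 : ℝ) ≤ ν := by exact_mod_cast hν
  have m1 : (10000000 : ℝ) ≤ m := by exact_mod_cast hm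
  have F := fun s => @ft2' p ν hp0 hν hp s
  have HP := hP_of hp0 hν hp
  have ML := @main_large p (1 / 800000) D ν m n hp0 hp1 hν (by omega)
  have MS := @main_small p D ν n m hp0 (by linarith) hν hn
  have hk1 : (2 : ℕ) ^ (2000 * ν) = (2 ^ ν) ^ 2000 := by rw [← pow_mul, mul_comm]
  have ea := two_pow_le_exp (ν * 642)
  rw [pow_mul] at ea
  obtain ⟨A, hA⟩ : ∃ A : ℕ, A = 2 ^ ν := ⟨_, rfl⟩
  have hA' : (2 : ℝ) ^ ν = A := by rw [hA]; push_cast; rfl
  rw [← hA] at ML MS F hk1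
  rw [hA'] at h1 ML hD ea
  have a1 : (1 : ℝ) ≤ A := by linarith
  have a0 : (0 : ℝ) < A := by linarith
  have a2 : 1 ≤ A := by exact_mod_cast a1
  have P : ∀ (c : ℝ) (i j : ℕ), c ≤ 100000000 → i + 1 ≤ j → c * (A : ℝ) ^ i ≤ A ^ j :=
    fun c i j hc h => pw a1 (by linarith) h
  have Q : ∀ i j : ℕ, i ≤ j → (A : ℝ) ^ i ≤ A ^ j := fun i j h => pow_le_pow_right₀ a1 h
  have G : ∀ u v : List Bool, Typ (2000 * ν) u → u.length ≤ A ^ 641 →
      bc p (p / 4) u v ≤ ex (1 - 1 / 800000 * fc (200000 * ν) u v) := fun u v hT hu => by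
    obtain ⟨T, t1, t2⟩ := F (p / 4) (by positivity) (by linarith) hT hu v
    have : (fc (200000 * ν) u v : ℝ) ≤ 200000 * ν * T := by exact_mod_cast t1
    exact t2.trans (ex_mono (by linarith))
  rcases le_total (A ^ 641) n with h | h
  · refine ML ?_ (by linarith) (fun u v hT lu _ => ?_) (fun u v hT lu _ lt => ?_) h hD
    · have := P 400000 0 82 (by norm_num) (by omega)
      linarith
    · exact (G u v hT (lu ▸ Nat.pow_le_pow_right a2 (by omega))).trans (ex_mono (by linarith))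
    · refine (G u v hT (lu ▸ Nat.pow_le_pow_right a2 (by omega))).trans (ex_mono ?_)
      have b4 : (A : ℝ) ^ 42 ≤ 4 * fc (200000 * ν) u v := by exact_mod_cast lt
      have b7 := P 10000000 36 42 (by norm_num) (by omega)
      have b8 := Q 1 36 (by omega)
      linarith
  have n1 : (n : ℝ) ≤ A ^ 641 := by exact_mod_cast h
  have n0 : (1 : ℝ) ≤ n := by exact_mod_cast hn
  refine MS h (by by_contra hn; nlinarith [pow_pos a0 33]) fun s hs hT => ?_
  rcases le_total (200000 * ν) n with h' | h'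
  · refine (small_of_count (k := 200000 * ν) (a := 800000 * ν) hT (by omega) ?_
      fun z hz hne => ?_).trans (ENNReal.ofReal_le_ofReal ?_)
    · rw [hk1]
      have := P 2 641 2000 (by norm_num) (by omega)
      exact_mod_cast (by push_cast; linarith : ((2 * n : ℕ) : ℝ) ≤ (A ^ 2000 : ℕ))
    · obtain ⟨T, t1, t2⟩ := F 0 le_rfl (by norm_num) hT (by omega) z
      have t3 : 1 ≤ T := by
        rcases Nat.eq_zero_or_pos T with rfl | h0
        · exact absurd (eq_of_fc_zero (k := 200000 * ν) hT (by omega) (by omega) (by omega)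
            (by omega)) hne
        · exact h0
      refine (pow_le_pow_left' t2 m).trans ?_
      rw [ex_pow]
      refine ex_mono ?_
      have b1 : (fc (200000 * ν) s z : ℝ) ≤ 200000 * ν * T := by exact_mod_cast t1
      have b2 : (ν : ℝ) * 1 ≤ ν * T := by gcongr; exact_mod_cast t3
      have b3 : m * (1 - ν * T / 4 : ℝ) ≤ m * (-(ν * T / 8)) := by gcongr; linarith
      have b4 : 10000000 * (ν * T / 8 : ℝ) ≤ m * (ν * T / 8) := by gcongr
      linarith
    · have b1 := P 2 641 642 (by norm_num) (by omega)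
      refine (Real.exp_le_exp.2 (show _ ≤ -((ν * 642 : ℕ) : ℝ) by push_cast; linarith)).trans ?_
      rw [Real.exp_neg, show (n : ℝ)⁻¹ / 2 = (2 * n : ℝ)⁻¹ by field_simp]
      gcongr
      linarith
  · have l2 := Real.log_two_gt_d9
    have hβ : 0.69 * ν ≤ ν * Real.log 2 := by nlinarith
    generalize ν * Real.log 2 = β at *
    have key : ∀ w : List Bool, w.length = n →
        E p 0 w (fun y => ex β * if y = w then ex (-(2 * β)) else 1) ≤ ex (1 - β) := fun w hw => by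
      rw [E_mul]
      refine (mul_le_mul_right (E_ne_le hp0 (by linarith) (by linarith) (by linarith)
        (HP w (by omega))) _).trans (le_of_eq ?_)
      rw [← ex_add]; congr 1; ring
    refine (small_of_uniform (a := ν / 2) fun z hz hne => ?_).trans
      (ENNReal.ofReal_le_ofReal ((Real.exp_le_exp.2 ?_).trans (exp_neg_nat_le hn)))
    · refine (bc_tilt s z _ _ (fun y => ?_) (key s hs) (key z hz)).trans (ex_mono (by linarith))
      split_ifs with y1 y2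
      · exact absurd (y2.symm.trans y1) hne
      all_goals
        simp only [mul_one, ← ex_add]
        exact one_le_ex (by linarith)
    · have b1 : (n : ℝ) ≤ 200000 * ν := by exact_mod_cast h'
      have b4 : 10000000 * (ν / 2 : ℝ) ≤ m * (ν / 2) := by gcongr
      linarith

end Pool.Agent.Lib.MP_78205c_lc
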