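import Pool.Agent.Lib.MP_78205c_lc.Typ

/-!
Strings that are hard to tell apart and have few foreign windows are close.
-/

namespace Pool.Agent.Lib.MP_78205c_lc

open ENNReal Finset

variable {p : ℝ} {k k1 L : ℕ} {u : List Bool} {g c0 : ℝ}

theorem le_cost_mul (j : ℕ) (x : ℝ≥0∞) : x ≤ cost j * x :=
  le_mul_of_one_le_left' (by exact_mod_cast (by unfold cost; nlinarith : 1 ≤ cost j))

theorem order_aux (hT : Typ k1 u) (hk : k1 < k) (hc : 0 ≤ c0)
    (H : ∀ u' v' : List Bool, u' <:+: u → u'.length ≤ L →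
      (v'.length ≤ 2 * L ∧ (u'.length < L ∨ ∃ r : List Bool, r.length = k ∧ r <:+: u' ∧ r <:+: v') ∧
        cost v'.length * bc p (p / 4) u' v' ≤ ex c0) ∨
      ∃ x : ℕ, 1 ≤ x ∧ v'.length ≤ 2 * L * x ∧ cost v'.length * bc p (p / 4) u' v' ≤ ex (-g * x))
    (n : ℕ) : ∀ X Y : List Bool, X <:+ u → X.length < (n + 1) * L →
      ∃ x : ℕ, bc p (p / 4) X Y ≤ ex (c0 * (n + 1) - g * x) ∧
        ∀ a a' : List Bool, a.length ≤ L → a'.length ≤ 2 * L → a ++ X <:+ u →
          lev (a ++ X) (a' ++ Y) ≤ 12 * L * (x + fc k u (a' ++ Y)) + 12 * L ∧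
          (k ≤ (a ++ X).length → (a ++ X).take k = (a' ++ Y).take k →
            lev (a ++ X) (a' ++ Y) ≤ 12 * L * (x + fc k u (a' ++ Y)) + 6 * L) := by
  have base : ∀ (n : ℕ) (X Y : List Bool), X <:+ u → X.length < L →
      ∃ x : ℕ, bc p (p / 4) X Y ≤ ex (c0 * (n + 1) - g * x) ∧
        ∀ a a' : List Bool, a.length ≤ L → a'.length ≤ 2 * L → a ++ X <:+ u →
          lev (a ++ X) (a' ++ Y) ≤ 12 * L * (x + fc k u (a' ++ Y)) + 12 * L ∧
          (k ≤ (a ++ X).length → (a ++ X).take k = (a' ++ Y).take k →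
            lev (a ++ X) (a' ++ Y) ≤ 12 * L * (x + fc k u (a' ++ Y)) + 6 * L) := by
    intro n X Y hX l
    have hn : c0 ≤ c0 * (n + 1) := le_mul_of_one_le_right hc (by linarith [n.cast_nonneg (α := ℝ)])
    rcases H X Y hX.isInfix l.le with ⟨h1, -, h2⟩ | ⟨x, h1, h2, h3⟩
    · refine ⟨0, ((le_cost_mul _ _).trans h2).trans (ex_mono (by simpa using hn)), ?_⟩
      intro a a' la la' _
      have := lev_le (a ++ X) (a' ++ Y)
      simp only [List.length_append] at this
      exact ⟨by omega, fun _ _ => by omega⟩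
    · refine ⟨x, ((le_cost_mul _ _).trans h3).trans (ex_mono (by linarith)), ?_⟩
      intro a a' la la' _
      have := lev_le (a ++ X) (a' ++ Y)
      simp only [List.length_append, mul_add, mul_assoc] at this h2 ⊢
      exact ⟨by omega, fun _ _ => by omega⟩
  induction n with
  | zero => exact fun X Y hX l => base 0 X Y hX (by omega)
  | succ n ih =>
    intro X Y hX l
    by_cases l0 : X.length < L
    · exact base _ X Y hX l0
    have e := List.take_append_drop L X
    have l1 : (X.take L).length = L := List.length_take_of_le (by omega)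
    generalize X.take L = u' at *
    generalize X.drop L = X' at *
    subst e
    obtain ⟨v', Y', rfl, hs⟩ := bc_exists_split (p := p) u' X' Y
    obtain ⟨x, b1, b2⟩ := ih X' Y' ((List.suffix_append _ _).trans hX)
      (by simp only [List.length_append, add_mul] at l ⊢; omega)
    rcases H u' v' ((List.prefix_append _ _).isInfix.trans hX.isInfix) l1.le with
      ⟨h1, h2, h3⟩ | ⟨x', h1, h2, h3⟩
    · refine ⟨x, hs.trans ((mul_le_mul' h3 b1).trans (le_of_eq ?_)), ?_⟩
      · rw [← ex_add]; congr 1; push_cast; ring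
      obtain ⟨r, lr, ⟨s1, t1, rfl⟩, ⟨s2, t2, rfl⟩⟩ := h2.resolve_left (by omega)
      intro a a' la la' ha
      simp only [List.length_append] at l1 h1
      have hs2 : r ++ t1 ++ X' <:+ u := IsTrans.trans _ _ _ (⟨s1, by simp⟩ : _ <:+ _) hX
      have e1 : (r ++ t1 ++ X').take k = (r ++ t2 ++ Y').take k := by simp [← lr]
      have e2 : k ≤ (r ++ t1 ++ X').length := by simp; omega
      have c1 := (b2 (r ++ t1) (r ++ t2) (by simp; omega) (by simp; omega) hs2).2 e2 e1
      have c2 := lev_append (a ++ s1) (a' ++ s2) (r ++ t1 ++ X') (r ++ t2 ++ Y')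
      have c3 := lev_le (a ++ s1) (a' ++ s2)
      have c4 := fc_le_append (k := k) (u := u) (a' ++ s2) (r ++ t2 ++ Y')
      have c5 := chain hT hk hs2 e2 e1 (a' ++ s2) _ ha
      have c6 := lev_append (a' ++ s2) (a' ++ s2) (r ++ t1 ++ X') (r ++ t2 ++ Y')
      rw [lev_self] at c6
      simp only [List.append_assoc, List.length_append] at c1 c2 c3 c4 c5 c6 ⊢
      have c7 := Nat.mul_le_mul_left L c4
      refine ⟨by simp only [mul_add, mul_assoc] at c1 ⊢; omega, fun d1 d2 => ?_⟩
      rcases c4.eq_or_lt with c8 | c8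
      · rw [c5 d1 d2 c8.ge, ← c8]
        omega
      · have c9 := Nat.mul_le_mul_left L (Nat.succ_le_of_lt c8)
        simp only [mul_add, mul_assoc, Nat.succ_eq_add_one, mul_one] at c1 c9 ⊢
        omega
    · refine ⟨x + x', hs.trans ((mul_le_mul' h3 b1).trans ?_), ?_⟩
      · rw [← ex_add]; exact ex_mono (by push_cast; linarith)
      intro a a' la la' ha
      have c1 := (b2 [] [] (by simp) (by simp) ((List.suffix_append _ _).trans hX)).1
      have c2 := lev_append (a ++ u') (a' ++ v') X' Y'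
      have c3 := lev_le (a ++ u') (a' ++ v')
      have c4 := Nat.mul_le_mul_left L (fc_le_append (k := k) (u := u) (a' ++ v') Y')
      have c5 := Nat.mul_le_mul_left L h1
      simp only [List.append_assoc, List.length_append, List.nil_append, mul_add, mul_assoc,
        mul_one] at c1 c2 c3 c4 c5 h2 ⊢
      exact ⟨by omega, fun _ _ => by omega⟩

theorem cost_le_exp {j : ℕ} (hj : 200 ≤ j) : (cost j : ℝ) ≤ Real.exp (j / 12 - 1) := by
  have h : (200 : ℝ) ≤ j := by exact_mod_cast hj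
  have h1 := Real.pow_div_factorial_le_exp (j / 12 - 1) (by linarith) 8
  refine le_trans ?_ h1
  have h2 : (j / 13 : ℝ) ≤ j / 12 - 1 := by linarith
  have h3 : (j / 13 : ℝ) ^ 8 ≤ (j / 12 - 1) ^ 8 := by gcongr
  have h4 : (15 : ℝ) ^ 6 ≤ (j / 13) ^ 6 := by gcongr; linarith
  have h5 : (j / 13 : ℝ) ^ 8 = (j / 13) ^ 6 * (j / 13) ^ 2 := by ring
  have h6 : (15 : ℝ) ^ 6 * (j / 13) ^ 2 ≤ (j / 13) ^ 6 * (j / 13) ^ 2 := by gcongr
  simp only [cost, Nat.factorial]
  push_cast
  nlinarith

theorem cost_mono {i j : ℕ} (h : i ≤ j) : cost i ≤ cost j := by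
  unfold cost; gcongr

theorem order (hp0 : 0 ≤ p) (hp : p ≤ 1 / 100) (hT : Typ k1 u) (hk : k1 < k) (hL : 100 ≤ L)
    (hkL : 4 * k ≤ L) (hc : (cost (2 * L) : ℝ) ≤ Real.exp (c0 - 1))
    (hg : 12 * (g + c0) ≤ L)
    (H : ∀ u' v' : List Bool, Typ k1 u' → u'.length = L → v'.length ≤ 2 * L →
      L ≤ 4 * fc k u' v' → bc p (p / 4) u' v' ≤ ex (-g - c0))
    {n : ℕ} (hn : u.length < n * L) (v : List Bool) :
    ∃ x : ℕ, bc p (p / 4) u v ≤ ex (c0 * n - g * x) ∧ lev u v ≤ 12 * L * (x + fc k u v + 1) := by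
  have hc0 : 1 ≤ c0 := by
    have : (1 : ℝ) ≤ cost (2 * L) := by exact_mod_cast (by unfold cost; nlinarith : 1 ≤ cost (2 * L))
    linarith [Real.one_le_exp_iff.1 (this.trans hc)]
  have hL' : (100 : ℝ) ≤ L := by exact_mod_cast hL
  obtain ⟨n, rfl⟩ : ∃ n', n = n' + 1 := ⟨n - 1, by rcases n with _ | n <;> simp at hn ⊢⟩
  refine (order_aux (p := p) (g := g) (c0 := c0) (L := L) hT hk (by linarith) ?_ n u v
    List.suffix_rfl hn).imp fun x ⟨h1, h2⟩ => ⟨by simpa using h1,
      by simpa [mul_add] using (h2 [] [] (by simp) (by simp) List.suffix_rfl).1⟩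
  intro u' v' hu l
  by_cases l1 : v'.length ≤ 2 * L
  · have c1 : (cost v'.length : ℝ≥0∞) ≤ ex (c0 - 1) :=
      natCast_le_ex (le_trans (by exact_mod_cast cost_mono l1) hc)
    by_cases l2 : u'.length < L ∨ ∃ r : List Bool, r.length = k ∧ r <:+: u' ∧ r <:+: v'
    · refine Or.inl ⟨l1, l2, (mul_le_mul' c1 (bc_le_ex hp0 (by linarith) (by positivity)
        (by linarith) _ _)).trans ?_⟩
      rw [← ex_add]; exact ex_mono (by linarith)
    have l3 : u'.length = L := by omega
    refine Or.inr ⟨1, le_rfl, by omega, ?_⟩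
    by_cases l4 : 2 * v'.length ≤ u'.length
    · refine (mul_le_mul' c1 (bc_short hp0 hp (by positivity) (by linarith) _ _ l4)).trans ?_
      rw [← ex_add, l3]; exact ex_mono (by push_cast; linarith)
    · have := fc_ge_of_no_common (k := k) (u := u') (v := v') (by omega) fun h => l2 (Or.inr h)
      refine (mul_le_mul' c1 (H u' v' (hT.mono hu) l3 l1 (by omega))).trans ?_
      rw [← ex_add]; exact ex_mono (by push_cast; linarith)
  · have d1 := Nat.div_add_mod v'.length L
    have d2 := Nat.mod_lt v'.length (show 0 < L by omega)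
    have d3 : 2 ≤ v'.length / L := (Nat.le_div_iff_mul_le (by omega)).2 (by omega)
    have d4 := Nat.mul_le_mul_left L d3
    refine Or.inr ⟨v'.length / L, by omega, by rw [mul_assoc]; omega, ?_⟩
    refine (mul_le_mul' (natCast_le_ex (cost_le_exp (by omega)))
      (bc_long hp0 hp (by positivity) (by linarith) _ _ (by omega))).trans ?_
    rw [← ex_add]
    refine ex_mono ?_
    have d5 : (L : ℝ) * (v'.length / L : ℕ) ≤ v'.length := by exact_mod_cast (by omega)
    have d6 : (0 : ℝ) ≤ (v'.length / L : ℕ) := by positivity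
    nlinarith

end Pool.Agent.Lib.MP_78205c_lc
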