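import Pool.Agent.Lib.MP_78205c_lc.ML
import Pool.Agent.Lib.MP_78205c_lc.Order

/-!
The union bound, block by block.
-/

namespace Pool.Agent.Lib.MP_78205c_lc

open ENNReal Finset

/-- The weighted union bound for a string. -/
noncomputable def Phi (p : ℝ) (m : ℕ) (l : ℝ) (s : List Bool) : ℝ≥0∞ :=
  ∑' z, bc p (p / 4) s z ^ m * ex (l * lev s z)

/-- The weighted union bound for a block. -/
noncomputable def psi (p : ℝ) (m : ℕ) (l : ℝ) (u : List Bool) : ℝ≥0∞ :=
  ∑' v : List Bool, (cost v.length * bc p (p / 4) u v) ^ m * ex (l * lev u v)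

variable {p l : ℝ} {m : ℕ}

theorem Phi_le_psi (u : List Bool) : Phi p m l u ≤ psi p m l u :=
  ENNReal.tsum_le_tsum fun v => by gcongr; exact le_cost_mul _ _

theorem Phi_append (hl : 0 ≤ l) (u x : List Bool) :
    Phi p m l (u ++ x) ≤ psi p m l u * Phi p m l x := by
  unfold Phi psi
  simp only [← ENNReal.tsum_mul_right]
  simp only [← ENNReal.tsum_mul_left]
  rw [← tsum_split (fun v z => (cost v.length * bc p (p / 4) u v) ^ m * ex (l * lev u v) *
    (bc p (p / 4) x z ^ m * ex (l * lev x z)))]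
  refine ENNReal.tsum_le_tsum fun z => ?_
  obtain ⟨v, z', rfl, h⟩ := bc_exists_split (p := p) u x z
  refine le_trans ?_ (Finset.single_le_sum (fun _ _ => zero_le) (a := v.length) (by simp))
  simp only [List.take_left', List.drop_left']
  rw [mul_mul_mul_comm, ← mul_pow, ← ex_add, ← mul_add]
  gcongr
  exact_mod_cast lev_append _ _ _ _

theorem term_long (hp0 : 0 ≤ p) (hp : p ≤ 1 / 100) (hl : 0 ≤ l) (hm : 24 * (l + 1) ≤ m)
    {u v : List Bool} (h1 : 2 * u.length ≤ v.length) (h2 : 200 ≤ v.length) :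
    (cost v.length * bc p (p / 4) u v) ^ m * ex (l * lev u v) ≤ ex (-2 * v.length) := by
  have a := mul_le_mul' (natCast_le_ex (cost_le_exp h2))
    (bc_long hp0 hp (s := p / 4) (by positivity) (by linarith) _ _ h1)
  refine (mul_le_mul_left (pow_le_pow_left' a m) _).trans ?_
  rw [← ex_add, ex_pow, ← ex_add]
  refine ex_mono ?_
  have b : (lev u v : ℝ) ≤ 2 * v.length := by
    exact_mod_cast (by have := lev_le u v; omega : lev u v ≤ 2 * v.length)
  have c : (0 : ℝ) ≤ v.length := by positivity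
  nlinarith [mul_le_mul_of_nonneg_left b hl, mul_le_mul_of_nonneg_right hm c]

theorem psi_crude (hp0 : 0 ≤ p) (hp : p ≤ 1 / 100) (hl : 0 ≤ l) (hm : 24 * (l + 1) ≤ m)
    {B : ℕ} (hB : 100 ≤ B) {cB : ℝ} (hc : (cost (2 * B) : ℝ) ≤ Real.exp (cB - 1)) (hc0 : 0 ≤ cB)
    {u : List Bool} (hu : u.length ≤ B) : psi p m l u ≤ ex (m * cB + 3 * l * B + 4 * B + 1) := by
  rw [ex_add]
  refine le_trans ?_ (mul_le_mul_right tsum_ex_len _)
  rw [← ENNReal.tsum_mul_left]
  refine ENNReal.tsum_le_tsum fun v => ?_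
  by_cases hv : v.length ≤ 2 * B
  · have c1 : (cost v.length : ℝ≥0∞) ≤ ex (cB - 1) :=
      natCast_le_ex (le_trans (by exact_mod_cast cost_mono hv) hc)
    have a := mul_le_mul' c1 (bc_le_ex hp0 (by linarith) (s := p / 4) (by positivity)
      (by linarith) u v)
    refine (mul_le_mul_left (pow_le_pow_left' a m) _).trans ?_
    rw [← ex_add, ex_pow, ← ex_add, ← ex_add]
    refine ex_mono ?_
    have b : (lev u v : ℝ) ≤ 3 * B := by
      exact_mod_cast (by have := lev_le u v; omega : lev u v ≤ 3 * B)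
    have c : (v.length : ℝ) ≤ 2 * B := by exact_mod_cast hv
    have d : (0 : ℝ) ≤ m := by positivity
    nlinarith [mul_le_mul_of_nonneg_left b hl]
  · exact (term_long hp0 hp hl hm (by omega) (by omega)).trans
      (le_mul_of_one_le_left' (one_le_ex (by positivity)))

theorem le_ex_avg {x : ℝ≥0∞} {a b : ℝ} (ha : x ≤ ex a) (hb : x ≤ ex b) : x ≤ ex ((a + b) / 2) := by
  rcases le_total a b with h | h
  · exact ha.trans (ex_mono (by linarith))
  · exact hb.trans (ex_mono (by linarith))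

theorem psi_typ (hp0 : 0 ≤ p) (hp : p ≤ 1 / 100) (hl : 0 ≤ l) (hm : 24 * (l + 1) ≤ m)
    {B L k k1 : ℕ} (hB : 100 ≤ B) {cB : ℝ} (hc : (cost (2 * B) : ℝ) ≤ Real.exp (cB - 1))
    (hc0 : 0 ≤ cB) (hk : 2 * k1 + 1 ≤ k) (hB1 : 4 * B ≤ 2 ^ k1) {C g x0 κ E1 : ℝ} (hE : 0 ≤ E1)
    (hg : 0 ≤ g) (hx0 : 0 ≤ x0) (hC : 2 * C ≤ g * x0) (hmg : 48 * l * L ≤ m * g)
    (hκ : 24 * l * L + 4 ≤ m * κ) {u : List Bool} (hT : Typ k1 u) (hu : u.length ≤ B)
    (H1 : ∀ v : List Bool, v.length ≤ 2 * B → bc p (p / 4) u v ≤ ex (E1 - κ * fc k u v))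
    (H2 : ∀ v : List Bool, ∃ x : ℕ, bc p (p / 4) u v ≤ ex (C - g * x) ∧
      lev u v ≤ 12 * L * (x + fc k u v + 1)) :
    psi p m l u ≤ ex (m * (cB + E1) + 12 * l * L * (x0 + 1) + 3 * k + 2) := by
  set E0 := m * (cB + E1) + 12 * l * L * (x0 + 1) with hE0
  have hE0' : 0 ≤ E0 := by positivity
  calc _ ≤ ∑' v : List Bool, (ex (-2 * v.length) +
        ex E0 * if v.length ≤ 2 * B then ex (-2 * fc k u v) else 0) := by
        refine ENNReal.tsum_le_tsum fun v => ?_
        split_ifs with hv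
        swap
        · exact le_add_right (term_long hp0 hp hl hm (by omega) (by omega))
        refine le_add_left ?_
        have c1 : (cost v.length : ℝ≥0∞) ≤ ex (cB - 1) :=
          natCast_le_ex (le_trans (by exact_mod_cast cost_mono hv) hc)
        obtain ⟨x, a1, a2⟩ := H2 v
        have a3 : (lev u v : ℝ) ≤ 12 * L * (x + fc k u v + 1) := by exact_mod_cast a2
        have a4 := mul_le_mul_of_nonneg_left a3 hl
        have t0 : (0 : ℝ) ≤ fc k u v := by positivity
        have m0 : (0 : ℝ) ≤ m := by positivity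
        have x1 : (0 : ℝ) ≤ x := by positivity
        have l0 : 0 ≤ l * L := by positivity
        have a5 := mul_le_mul_of_nonneg_right hκ t0
        by_cases hx : x ≤ x0
        · refine (mul_le_mul_left (pow_le_pow_left' (mul_le_mul' c1 (H1 v hv)) m) _).trans ?_
          rw [← ex_add, ex_pow, ← ex_add, ← ex_add]
          refine ex_mono ?_
          nlinarith [mul_le_mul_of_nonneg_left hx l0, mul_nonneg l0 t0]
        · have a6 := mul_le_mul_of_nonneg_left (not_le.1 hx).le hg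
          have a7 : bc p (p / 4) u v ≤ ex (-(g * x / 2)) := a1.trans (ex_mono (by linarith))
          refine (mul_le_mul_left (pow_le_pow_left' (mul_le_mul' c1
            (le_ex_avg (H1 v hv) a7)) m) _).trans ?_
          rw [← ex_add, ex_pow, ← ex_add, ← ex_add]
          refine ex_mono ?_
          nlinarith [mul_le_mul_of_nonneg_right hmg x1, mul_nonneg l0 hx0, mul_nonneg m0 hE]
    _ ≤ ex 1 + ex E0 * ex (3 * k + 1) := by
        rw [ENNReal.tsum_add, ENNReal.tsum_mul_left]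
        gcongr
        · exact tsum_ex_len
        · exact count hT hk (by omega)
    _ ≤ _ := by
        rw [← ex_add]
        have : (0 : ℝ) ≤ k := by positivity
        exact ex_add_ex_le (by linarith) (by linarith)

theorem Phi_blocks (hl : 0 ≤ l) {B k1 : ℕ} {E μ : ℝ} (hE : 0 ≤ E)
    (h1 : ∀ u : List Bool, u.length ≤ B → psi p m l u ≤ ex μ)
    (h2 : ∀ u : List Bool, u.length = B → Typ k1 u → psi p m l u ≤ ex E) {R : ℕ} (hR : R ≤ B)
    (N : ℕ) : ∀ s : List Bool, s.length = N * B + R →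
      Phi p m l s ≤ ex (E * N + μ * (nb k1 B N s + 1)) := by
  induction N with
  | zero => exact fun s hs => (Phi_le_psi s).trans (by simpa [nb] using h1 s (by omega))
  | succ N ih =>
    intro s hs
    have l1 : (s.take B).length = B := List.length_take_of_le (by rw [hs, add_mul]; omega)
    have a := Phi_append (p := p) (m := m) hl (s.take B) (s.drop B)
    rw [List.take_append_drop] at a
    have b := ih (s.drop B) (by rw [List.length_drop, hs, add_mul]; omega)
    rw [nb]
    split_ifs with h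
    · refine a.trans ((mul_le_mul' (h2 _ l1 h) b).trans ?_)
      rw [← ex_add]; exact ex_mono (by push_cast; linarith)
    · refine a.trans ((mul_le_mul' (h1 _ l1.le) b).trans ?_)
      rw [← ex_add]; exact ex_mono (by push_cast; linarith)

theorem large (hp0 : 0 ≤ p) (hp1 : p ≤ 1) (hl : 0 ≤ l) {B k1 n : ℕ} (hB : 0 < B) {E μ π K D : ℝ}
    (hE : 0 ≤ E) (hμ : 0 ≤ μ) (hπ : (B : ℝ) ^ 2 ≤ π * 2 ^ k1) (hπ0 : 0 ≤ π)
    (h1 : ∀ u : List Bool, u.length ≤ B → psi p m l u ≤ ex μ)
    (h2 : ∀ u : List Bool, u.length = B → Typ k1 u → psi p m l u ≤ ex E) :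
    ∃ A, 1 - (Real.exp (3 * π * n - K) + Real.exp (E * (n / B) + μ * (K + 1) - l * D)) ≤
      success p n m A D := by
  have e : n = n / B * B + n % B := (Nat.div_add_mod' n B).symm
  refine ml hp0 hp1 n m D (fun s => (nb k1 B (n / B) s : ℝ) ≤ K) (by positivity) (by positivity)
    ?_ ?_
  · have := tot_nb_tail hπ (n % B) (n / B) K
    rw [← e] at this
    refine this.trans (mul_le_mul_left (ex_mono ?_) _)
    have : ((n / B : ℕ) : ℝ) ≤ n := by exact_mod_cast Nat.div_le_self _ _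
    gcongr
  · intro s hs hK
    have a := Phi_blocks hl hE h1 h2 (Nat.mod_lt n hB).le (n / B) s (hs.trans e)
    calc _ ≤ ∑' z, ex (-(l * D)) * (bc p (p / 4) s z ^ m * ex (l * lev s z)) := by
          refine (tot_le_tsum _ _).trans (ENNReal.tsum_le_tsum fun z => ?_)
          rw [mul_left_comm, mul_comm, ← ex_add]
          refine mul_le_mul' (pow_le_pow_left' (bc_mono (by positivity) _ _) _)
            (ind_le fun h => one_le_ex ?_)
          nlinarith
      _ ≤ ex (-(l * D)) * ex (E * (n / B : ℕ) + μ * (nb k1 B (n / B) s + 1)) := by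
          rw [ENNReal.tsum_mul_left]
          exact mul_le_mul_right a _
      _ ≤ ex (E * (n / B) + μ * (K + 1) - l * D) := by
          rw [← ex_add]
          refine ex_mono ?_
          have : ((n / B : ℕ) : ℝ) ≤ n / B := Nat.cast_div_le
          nlinarith

theorem small (hp0 : 0 ≤ p) (hp1 : p ≤ 1) {n k1 : ℕ} {π D ε : ℝ} (hD : 0 ≤ D) (hπ0 : 0 ≤ π)
    (hε : 0 ≤ ε) (hπ : (n : ℝ) ^ 2 ≤ π * 2 ^ k1)
    (h : ∀ s : List Bool, s.length = n → Typ k1 s →
      tot n (fun z => ind (z ≠ s) * bc p 0 s z ^ m) ≤ ENNReal.ofReal ε) :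
    ∃ A, 1 - (π + ε) ≤ success p n m A D := by
  refine ml hp0 hp1 n m D (Typ k1) hπ0 hε (tot_atyp_le hπ) fun s hs hT => le_trans ?_ (h s hs hT)
  refine tot_mono fun z _ => mul_le_mul_left (ind_le fun h => (ind_pos ?_).ge) _
  rintro rfl
  rw [lev_self] at h
  simp at h
  linarith

theorem small_of_uniform {n : ℕ} {s : List Bool} {a : ℝ}
    (h : ∀ z : List Bool, z.length = n → z ≠ s → bc p 0 s z ≤ ex (-a)) :
    tot n (fun z => ind (z ≠ s) * bc p 0 s z ^ m) ≤ ex (n - m * a) := by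
  calc _ ≤ tot n (fun _ => ex (-a) ^ m) := by
        refine tot_mono fun z hz => ?_
        by_cases a : z ≠ s
        · rw [ind_pos a, one_mul]; exact pow_le_pow_left' (h z hz a) _
        · rw [ind_neg a]; simp
    _ ≤ ex (-a) ^ m * ex 1 ^ n := by
        rw [tot_const]; gcongr; exact two_le_ex_one
    _ = _ := by rw [ex_pow, ex_pow, ← ex_add]; congr 1; ring

theorem small_of_count {n k k1 : ℕ} {s : List Bool} {a : ℝ} (hT : Typ k1 s) (hk : 2 * k1 + 1 ≤ k)
    (hn : 2 * n ≤ 2 ^ k1)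
    (h : ∀ z : List Bool, z.length = n → z ≠ s → bc p 0 s z ^ m ≤ ex (-a - 2 * fc k s z)) :
    tot n (fun z => ind (z ≠ s) * bc p 0 s z ^ m) ≤ ex (3 * k + 1 - a) := by
  rw [sub_eq_neg_add, ex_add]
  refine le_trans ?_ (mul_le_mul_right (count hT hk hn) _)
  rw [← ENNReal.tsum_mul_left]
  refine le_trans (tot_mono fun z hz => ?_) (tot_le_tsum n _)
  rw [if_pos hz.le, ← ex_add]
  by_cases a : z ≠ s
  · rw [ind_pos a, one_mul]; exact (h z hz a).trans (ex_mono (by linarith))
  · rw [ind_neg a]; simp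

end Pool.Agent.Lib.MP_78205c_lc
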