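import Pool.Agent.Lib.MP_78205c_lc.BC

/-!
Typical strings, foreign windows, the chain lemma, and counting.
-/

namespace Pool.Agent.Lib.MP_78205c_lc

open ENNReal Finset

/-- All windows of length `k` of `u` are distinct. -/
def Typ (k : ℕ) (u : List Bool) : Prop :=
  ∀ X Y : List Bool, X <:+ u → Y <:+ u → k ≤ X.length → k ≤ Y.length → X.take k = Y.take k → X = Y

/-- The first window of length `k` of `Y` occurs in `u`. -/
def Occ (k : ℕ) (u Y : List Bool) : Prop := ∃ X, X <:+ u ∧ k ≤ X.length ∧ X.take k = Y.take k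

/-- The first window of length `k` of `Y` is foreign to `u`. -/
def Fgn (k : ℕ) (u Y : List Bool) : Prop := k ≤ Y.length ∧ ¬ Occ k u Y

open Classical in
/-- The number of windows of length `k` that are foreign to `u`. -/
noncomputable def fc (k : ℕ) (u : List Bool) : List Bool → ℕ
  | [] => 0
  | c :: Y => (if Fgn k u (c :: Y) then 1 else 0) + fc k u Y

variable {k k1 : ℕ} {u : List Bool}

theorem Typ.mono (h : Typ k u) {u' : List Bool} (hu : u' <:+: u) : Typ k u' := by
  obtain ⟨a, b, rfl⟩ := hu
  intro X Y hX hY lX lY e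
  have s : ∀ {X}, X <:+ u' → X ++ b <:+ a ++ u' ++ b := by
    rintro X ⟨t, rfl⟩
    exact ⟨a ++ t, by simp⟩
  have := h _ _ (s hX) (s hY) (by simp; omega) (by simp; omega)
    (by rw [List.take_append_of_le_length lX, List.take_append_of_le_length lY, e])
  simpa using this

theorem take_eq_of_le {X Y : List Bool} {j : ℕ} (h : X.take k = Y.take k) (hj : j ≤ k) :
    X.take j = Y.take j := by
  have := congrArg (List.take j) h
  simpa [List.take_take, min_eq_left hj] using this

theorem length_of_take_eq {X Y : List Bool} (h : X.take k = Y.take k) (hX : k ≤ X.length) :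
    k ≤ Y.length := by
  have := congrArg List.length h
  simp only [List.length_take] at this
  omega

theorem Occ.anti {Y : List Bool} {j : ℕ} (h : Occ k u Y) (hj : j ≤ k) : Occ j u Y := by
  obtain ⟨X, h1, h2, h3⟩ := h
  exact ⟨X, h1, hj.trans h2, take_eq_of_le h3 hj⟩

theorem Occ.cons {Y : List Bool} {c : Bool} (h : Occ (k + 1) u (c :: Y)) :
    ∃ X, c :: X <:+ u ∧ k ≤ X.length ∧ X.take k = Y.take k := by
  obtain ⟨X, h1, h2, h3⟩ := h
  cases X with
  | nil => simp at h2
  | cons d X =>
    simp only [List.take_succ_cons, List.cons.injEq] at h3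
    obtain ⟨rfl, h3⟩ := h3
    exact ⟨X, h1, by simpa using h2, h3⟩

theorem Occ.tail {Y : List Bool} {c : Bool} (h : Occ (k + 1) u (c :: Y)) : Occ k u Y := by
  obtain ⟨X, h1, h2, h3⟩ := h.cons
  exact ⟨X, (List.suffix_cons c X).trans h1, h2, h3⟩

theorem occ_of_infix {r Y : List Bool} (h : r <:+: u) (hr : r.length = k) (hY : r <+: Y) :
    Occ k u Y := by
  obtain ⟨a, b, rfl⟩ := h
  obtain ⟨t, rfl⟩ := hY
  exact ⟨r ++ b, ⟨a, by simp⟩, by simp; omega, by simp [← hr]⟩

theorem fc_le_append (γ Y : List Bool) : fc k u Y ≤ fc k u (γ ++ Y) := by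
  induction γ with
  | nil => rfl
  | cons c γ ih => simp only [List.cons_append, fc]; omega

theorem fc_append_le (γ Y : List Bool) : fc k u (γ ++ Y) ≤ γ.length + fc k u Y := by
  induction γ with
  | nil => simp
  | cons c γ ih => simp only [List.cons_append, fc, List.length_cons]; split_ifs <;> omega

theorem fc_self {Y : List Bool} (h : Y <:+ u) : fc k u Y = 0 := by
  induction Y with
  | nil => rfl
  | cons c Y ih =>
    rw [fc, ih ((List.suffix_cons c Y).trans h), if_neg]
    exact fun hf => hf.2 ⟨_, h, hf.1, rfl⟩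

theorem fc_ge_of_no_common (hk : 1 ≤ k) {v : List Bool}
    (h : ¬ ∃ r, r.length = k ∧ r <:+: u ∧ r <:+: v) : v.length + 1 ≤ fc k u v + k := by
  induction v with
  | nil => simpa [fc] using hk
  | cons c v ih =>
    have ih := ih fun ⟨r, h1, h2, h3⟩ => h ⟨r, h1, h2, List.infix_cons h3⟩
    rw [fc]
    split_ifs with hf
    · simp only [List.length_cons]; omega
    · by_contra hlt
      refine hf ⟨by simp only [List.length_cons] at hlt ⊢; omega, fun ⟨X, h1, h2, h3⟩ => h ?_⟩
      exact ⟨X.take k, List.length_take_of_le h2, (List.take_prefix _ _).isInfix.trans h1.isInfix,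
        h3 ▸ (List.take_prefix _ _).isInfix⟩

theorem chain (hT : Typ k1 u) (hk : k1 < k) {Y2 X2 : List Bool} (h2 : X2 <:+ u)
    (l2 : k ≤ X2.length) (e2 : X2.take k = Y2.take k) (γ : List Bool) :
    ∀ X1, X1 <:+ u → k ≤ X1.length → X1.take k = (γ ++ Y2).take k →
      fc k u (γ ++ Y2) ≤ fc k u Y2 → X1 = γ ++ X2 := by
  induction γ with
  | nil =>
    intro X1 h1 l1 e1 _
    exact hT X1 X2 h1 h2 (by omega) (by omega) (take_eq_of_le (e1.trans e2.symm) hk.le)
  | cons c γ ih =>
    intro X1 h1 l1 e1 hf
    obtain ⟨j, rfl⟩ : ∃ j, k = j + 1 := ⟨k - 1, by omega⟩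
    have hf' : fc (j + 1) u (γ ++ Y2) ≤ fc (j + 1) u Y2 := by
      simp only [List.cons_append, fc] at hf; omega
    obtain ⟨X, hX, lX, eX⟩ : Occ (j + 1) u (γ ++ Y2) := by
      cases γ with
      | nil => exact ⟨X2, h2, l2, e2⟩
      | cons d γ =>
        by_contra hn
        have h3 : Fgn (j + 1) u (d :: (γ ++ Y2)) :=
          ⟨by have := length_of_take_eq e2 l2; simp; omega, hn⟩
        have := fc_le_append (k := j + 1) (u := u) γ Y2
        simp only [List.cons_append, fc, if_pos h3] at hf'
        omega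
    cases X1 with
    | nil => simp at l1
    | cons d X1 =>
      simp only [List.cons_append, List.take_succ_cons, List.cons.injEq] at e1 ⊢
      refine ⟨e1.1, ?_⟩
      have : X1 = X := hT _ _ ((List.suffix_cons d X1).trans h1) hX (by simp at l1; omega) (by omega)
        (take_eq_of_le (e1.2.trans (take_eq_of_le eX (Nat.le_succ j)).symm) (by omega))
      exact this ▸ ih X hX lX eX hf'

theorem occ_of_fc_zero (hk : 1 ≤ k) {Y : List Bool} (h : fc k u Y = 0) (l : k ≤ Y.length) :
    Occ k u Y := by
  cases Y with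
  | nil => simp at l; omega
  | cons c Y =>
    by_contra hn
    rw [fc, if_pos ⟨l, hn⟩] at h
    omega

theorem eq_of_fc_zero (hT : Typ k1 u) (hk : k1 < k) {z : List Bool} (hl : z.length = u.length)
    (l : k ≤ z.length) (h : fc k u z = 0) : z = u := by
  obtain ⟨X1, h1, l1, e1⟩ := occ_of_fc_zero (by omega) h l
  have hz := List.take_append_drop (z.length - k) z
  have h' : fc k u (z.drop (z.length - k)) = 0 := by
    have := fc_le_append (k := k) (u := u) (z.take (z.length - k)) (z.drop (z.length - k))
    rw [hz] at this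
    omega
  obtain ⟨X2, h2, l2, e2⟩ := occ_of_fc_zero (by omega) h' (by simp; omega)
  have := chain hT hk h2 l2 e2 (z.take (z.length - k)) X1 h1 l1 (by rw [hz, e1]) (by rw [hz]; omega)
  have hle := h1.length_le
  rw [this] at hle h1
  simp only [List.length_append, List.length_take] at hle
  rw [List.take_of_length_le (by omega), List.take_of_length_le (by simp; omega)] at e2
  rw [e2, hz] at h1
  exact h1.eq_of_length hl

theorem tsum_geo (ω : List Bool → ℝ) (h0 : ∀ v, 0 ≤ ω v) {θ M : ℝ} (hθ : 0 ≤ θ) (hM : 0 ≤ M)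
    (h1 : ∀ v, ω (false :: v) + ω (true :: v) ≤ θ * ω v) (h2 : ω [] + θ * M ≤ M) :
    ∑' v, ENNReal.ofReal (ω v) ≤ ENNReal.ofReal M := by
  refine tsum_le_of_trunc fun N => ?_
  induction N with
  | zero => simp
  | succ N ih =>
    rw [tsum_list, ← ENNReal.tsum_add]
    refine le_trans ?_ (ENNReal.ofReal_le_ofReal h2)
    rw [ENNReal.ofReal_add (h0 _) (by positivity), ENNReal.ofReal_mul hθ]
    refine add_le_add (by simp) (le_trans ?_ (mul_le_mul_right ih _))
    rw [← ENNReal.tsum_mul_left]
    refine ENNReal.tsum_le_tsum fun v => ?_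
    simp only [List.length_cons, Nat.add_lt_add_iff_right]
    split_ifs
    · rw [← ENNReal.ofReal_add (h0 _) (h0 _), ← ENNReal.ofReal_mul hθ]
      exact ENNReal.ofReal_le_ofReal (h1 v)
    · simp

theorem tsum_ex_len : ∑' v : List Bool, ex (-2 * v.length) ≤ ex 1 := by
  refine le_trans ?_ two_le_ex_one
  have e1 := Real.exp_neg_one_lt_d9
  have e2 : Real.exp (-2) = Real.exp (-1) * Real.exp (-1) := by rw [← Real.exp_add]; norm_num
  have e3 : Real.exp (-2) ≤ 1 / 4 := by nlinarith [Real.exp_pos (-1)]
  have := tsum_geo (fun v => Real.exp (-2 * v.length)) (fun v => by positivity) (θ := 1 / 2)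
    (M := 2) (by norm_num) (by norm_num) (fun v => by
      simp only [List.length_cons, Nat.cast_add, Nat.cast_one, mul_add, mul_one, Real.exp_add]
      nlinarith [Real.exp_pos (-2 * v.length)]) (by simp; norm_num)
  simpa [ex] using this

open Classical in
/-- The weight given by predicting each letter from the letters after it. -/
noncomputable def om (k1 : ℕ) (u : List Bool) : List Bool → ℝ
  | [] => 1
  | c :: v => (if Occ (2 * k1) u v then (if Occ (k1 + 1) u (c :: v) then 1 else (1 / 2) ^ k1)
      else 1 / 2) * om k1 u v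

theorem om_nonneg (v : List Bool) : 0 ≤ om k1 u v := by
  induction v with
  | nil => simp [om]
  | cons c v ih => rw [om]; split_ifs <;> positivity

theorem om_sum (hT : Typ k1 u) (v : List Bool) :
    om k1 u (false :: v) + om k1 u (true :: v) ≤ (1 + (1 / 2) ^ k1) * om k1 u v := by
  have h0 := om_nonneg (k1 := k1) (u := u) v
  have h1 : ((1 : ℝ) / 2) ^ k1 ≤ 1 := pow_le_one₀ (by norm_num) (by norm_num)
  have h2 : (0 : ℝ) ≤ (1 / 2) ^ k1 := by positivity
  rw [om, om, ← add_mul]
  refine mul_le_mul_of_nonneg_right ?_ h0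
  split_ifs with a b c
  · exfalso
    obtain ⟨X, h1, h2, h3⟩ := b.cons
    obtain ⟨Y, h4, h5, h6⟩ := c.cons
    obtain rfl := hT _ _ ((List.suffix_cons _ _).trans h1) ((List.suffix_cons _ _).trans h4) h2 h5
      (h3.trans h6.symm)
    simpa using (List.suffix_of_suffix_length_le h1 h4 (by simp)).eq_of_length (by simp)
  all_goals linarith

theorem om_lower (hk : 2 * k1 + 1 ≤ k) (v : List Bool) : ∃ d ≤ k1,
    (0 < d → ¬ Occ (2 * k1 + 1 - d) u v) ∧
      1 ≤ om k1 u v * 4 ^ (fc k u v + min v.length k) * 2 ^ d := by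
  induction v with
  | nil => exact ⟨0, by simp, by simp, by simp [om, fc]⟩
  | cons c v ih =>
    obtain ⟨d, hd, h1, h2⟩ := ih
    have h0 := om_nonneg (k1 := k1) (u := u) v
    have hU : fc k u v + min v.length k ≤ fc k u (c :: v) + min (c :: v).length k := by
      simp only [fc, List.length_cons]; omega
    by_cases a : Occ (2 * k1) u v
    · obtain rfl : d = 0 := by
        by_contra hn
        exact h1 (by omega) (a.anti (by omega))
      have h3 : 1 ≤ om k1 u v * 4 ^ (fc k u (c :: v) + min (c :: v).length k) := by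
        refine le_trans (by simpa using h2) (mul_le_mul_of_nonneg_left ?_ h0)
        exact pow_le_pow_right₀ (by norm_num) hU
      by_cases b : Occ (k1 + 1) u (c :: v)
      · exact ⟨0, by simp, by simp, by simpa only [om, if_pos a, if_pos b, one_mul, pow_zero,
          mul_one] using h3⟩
      · refine ⟨k1, le_rfl, fun _ => by rwa [show 2 * k1 + 1 - k1 = k1 + 1 by omega], ?_⟩
        rw [om, if_pos a, if_neg b]
        refine h3.trans (le_of_eq ?_)
        have : ((1 : ℝ) / 2) ^ k1 * 2 ^ k1 = 1 := by rw [← mul_pow]; simp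
        linear_combination (-(om k1 u v * 4 ^ (fc k u (c :: v) + min (c :: v).length k))) * this
    · have hU' : fc k u v + min v.length k + 1 ≤ fc k u (c :: v) + min (c :: v).length k := by
        by_cases l : k ≤ v.length
        · have : Fgn k u (c :: v) := ⟨by simp; omega, fun h => a (h.anti hk).tail⟩
          simp only [fc, List.length_cons, if_pos this]; omega
        · simp only [fc, List.length_cons]; omega
      refine ⟨d - 1, by omega, fun h h' => h1 (by omega) ?_, ?_⟩
      · rw [show 2 * k1 + 1 - (d - 1) = 2 * k1 + 1 - d + 1 by omega] at h'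
        exact h'.tail
      · rw [om, if_neg a]
        refine h2.trans ?_
        have e1 : (4 : ℝ) ^ (fc k u v + min v.length k + 1) ≤
            4 ^ (fc k u (c :: v) + min (c :: v).length k) := pow_le_pow_right₀ (by norm_num) hU'
        have e2 : (2 : ℝ) ^ d ≤ 2 ^ (d - 1 + 1) := pow_le_pow_right₀ (by norm_num) (by omega)
        calc _ ≤ om k1 u v * 4 ^ (fc k u v + min v.length k) * 2 ^ (d - 1 + 1) := by gcongr
          _ = 1 / 2 * om k1 u v * 4 ^ (fc k u v + min v.length k + 1) * 2 ^ (d - 1) := by ring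
          _ ≤ _ := by gcongr

/-- Few strings have few foreign windows. -/
theorem count (hT : Typ k1 u) (hk : 2 * k1 + 1 ≤ k) {N : ℕ} (hN : 2 * N ≤ 2 ^ k1) :
    ∑' v : List Bool, (if v.length ≤ N then ex (-2 * fc k u v) else 0) ≤ ex (3 * k + 1) := by
  set η : ℝ := (1 / 2) ^ k1 with hη
  have η0 : 0 < η := by positivity
  have η1 : η ≤ 1 := pow_le_one₀ (by norm_num) (by norm_num)
  have η2 : η * 2 ^ k1 = 1 := by rw [hη, ← mul_pow]; simp
  have hz : Real.exp (-2 * η) * (1 + η) ≤ 1 - η / 2 := by
    have h1 := Real.add_one_le_exp η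
    have h2 : Real.exp (-2 * η) * (Real.exp η * Real.exp η) = 1 := by
      rw [← Real.exp_add, ← Real.exp_add, ← Real.exp_zero]; congr 1; ring
    have h3 := Real.exp_pos (-2 * η)
    have h4 : Real.exp (-2 * η) * ((η + 1) * (η + 1)) ≤ 1 := le_of_le_of_eq (by gcongr) h2
    have h5 : 1 ≤ (η + 1) * (1 - η / 2) := by nlinarith
    calc _ ≤ Real.exp (-2 * η) * (1 + η) * ((η + 1) * (1 - η / 2)) :=
          le_mul_of_one_le_right (by positivity) h5
      _ = Real.exp (-2 * η) * ((η + 1) * (η + 1)) * (1 - η / 2) := by ring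
      _ ≤ 1 * (1 - η / 2) := by gcongr; linarith
      _ = _ := one_mul _
  have key := tsum_geo (fun v => Real.exp (-2 * η * v.length) * om k1 u v)
    (fun v => mul_nonneg (by positivity) (om_nonneg v)) (θ := 1 - η / 2) (M := 2 * 2 ^ k1)
    (by linarith) (by positivity) (fun v => by
      simp only [List.length_cons, Nat.cast_add, Nat.cast_one, mul_add, mul_one, Real.exp_add]
      have h0 := om_nonneg (k1 := k1) (u := u) v
      calc _ = Real.exp (-2 * η * v.length) * Real.exp (-2 * η) *
            (om k1 u (false :: v) + om k1 u (true :: v)) := by ring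
        _ ≤ Real.exp (-2 * η * v.length) * Real.exp (-2 * η) * ((1 + η) * om k1 u v) := by
            gcongr; exact om_sum hT v
        _ = Real.exp (-2 * η) * (1 + η) * (Real.exp (-2 * η * v.length) * om k1 u v) := by ring
        _ ≤ _ := by gcongr) (by simp [om]; nlinarith)
  have e4 : (4 : ℝ) ≤ Real.exp 2 := by
    have : Real.exp 2 = Real.exp 1 * Real.exp 1 := by rw [← Real.exp_add]; norm_num
    nlinarith [Real.exp_one_gt_d9]
  have e2 : (2 : ℝ) ≤ Real.exp 1 := by linarith [Real.exp_one_gt_d9]
  have p2 : ∀ j : ℕ, (2 : ℝ) ^ j ≤ Real.exp j := fun j => by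
    rw [← mul_one (j : ℝ), Real.exp_nat_mul]; gcongr
  have p4 : ∀ j : ℕ, (4 : ℝ) ^ j ≤ Real.exp (j * 2) := fun j => by
    rw [Real.exp_nat_mul]; gcongr
  calc _ ≤ ∑' v : List Bool, ex (2 * k + k1 + 1) *
        ENNReal.ofReal (Real.exp (-2 * η * v.length) * om k1 u v) := by
        refine ENNReal.tsum_le_tsum fun v => ?_
        split_ifs with hv
        swap
        · simp
        obtain ⟨d, hd, -, h⟩ := om_lower (u := u) hk v
        have h0 := om_nonneg (k1 := k1) (u := u) v
        rw [ex, ex, ← ENNReal.ofReal_mul (by positivity)]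
        refine ENNReal.ofReal_le_ofReal ?_
        have hv' : 2 * η * v.length ≤ 1 := by
          have : (2 * v.length : ℝ) ≤ 2 ^ k1 := by exact_mod_cast (by omega : 2 * v.length ≤ 2 ^ k1)
          nlinarith
        have h' : 1 ≤ om k1 u v * Real.exp ((fc k u v + k : ℕ) * 2) * Real.exp k1 := by
          refine h.trans ?_
          gcongr
          · exact (pow_le_pow_right₀ (by norm_num) (by omega)).trans (p4 _)
          · exact (pow_le_pow_right₀ (by norm_num) hd).trans (p2 _)
        calc _ ≤ Real.exp (-2 * fc k u v) *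
              (om k1 u v * Real.exp ((fc k u v + k : ℕ) * 2) * Real.exp k1) :=
              le_mul_of_one_le_right (by positivity) h'
          _ = Real.exp (-2 * fc k u v + (fc k u v + k : ℕ) * 2 + k1) * om k1 u v := by
              rw [Real.exp_add, Real.exp_add]; ring
          _ ≤ Real.exp (2 * k + k1 + 1 + -2 * η * v.length) * om k1 u v := by
              refine mul_le_mul_of_nonneg_right (Real.exp_le_exp.2 ?_) h0
              push_cast; linarith
          _ = _ := by rw [Real.exp_add _ (-2 * η * v.length)]; ring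
    _ ≤ ex (2 * k + k1 + 1) * ex (1 + k1) := by
        rw [ENNReal.tsum_mul_left]
        gcongr
        refine key.trans (ENNReal.ofReal_le_ofReal ?_)
        rw [Real.exp_add]
        gcongr
        exact p2 _
    _ ≤ _ := by
        rw [← ex_add]
        refine ex_mono ?_
        have : (2 * k1 + 1 : ℝ) ≤ k := by exact_mod_cast hk
        linarith

end Pool.Agent.Lib.MP_78205c_lc
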